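import Pool.Agent.Lib.MP_afeff1_an.Tensor

/-!
# Fréchet algebras, Fréchet bimodules, flatness, weak dimensions
-/

set_option autoImplicit false
set_option linter.unusedSectionVars false

open scoped TensorProduct Topology Uniformity
open Filter UniformSpace

namespace Pool.Agent.FrHom

universe u

section Instances

instance : FrechetSpace ℂ := FrechetSpace.of ℂ

instance {E F : Type*} [AddCommGroup E] [Module ℂ E] [UniformSpace E] [FrechetSpace E]
    [AddCommGroup F] [Module ℂ F] [UniformSpace F] [FrechetSpace F] : FrechetSpace (E × F) :=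
  FrechetSpace.of (E × F)

instance : FrechetSpace PUnit.{u + 1} := by
  have h1 : IsUniformAddGroup PUnit.{u + 1} := ⟨uniformContinuous_of_const fun _ _ => rfl⟩
  have h2 : Topology.IsInducing (0 : PUnit.{u + 1} →ₗ[ℂ] ℂ) := ⟨Subsingleton.elim _ _⟩
  have h3 : PolynormableSpace ℂ PUnit.{u + 1} := h2.polynormableSpace
  exact FrechetSpace.of _

instance : FrechetAlgebra PUnit.{u + 1} where
  smul_assoc _ _ _ := rfl
  smul_comm _ _ _ := rfl
  continuous_mul := continuous_of_const fun _ _ => rfl

/-- A closed subspace of a Fréchet space is a Fréchet space. -/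
theorem frechetSpace_submodule {E : Type*} [AddCommGroup E] [Module ℂ E] [UniformSpace E]
    [FrechetSpace E] (S : Submodule ℂ E) (hS : IsClosed (S : Set E)) : FrechetSpace S := by
  have h1 : CompleteSpace S := hS.completeSpace_coe
  have h2 : IsUniformAddGroup S := inferInstanceAs (IsUniformAddGroup S.toAddSubgroup)
  have h3 : TopologicalSpace.MetrizableSpace S :=
    Topology.IsEmbedding.subtypeVal.metrizableSpace
  exact FrechetSpace.of S

end Instances

/-- A **Fréchet `B`-`C`-bimodule**: a Fréchet space with a left action `l` of `B` and a right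
action `r` of `C` (so `l b x` is `b · x` and `r c x` is `x · c`), both bilinear, associative and
jointly continuous, and commuting with each other. -/
structure BMod (B C : Type u) [NonUnitalRing B] [Module ℂ B] [UniformSpace B]
    [NonUnitalRing C] [Module ℂ C] [UniformSpace C] where
  /-- the underlying space -/
  carrier : Type u
  [acg : AddCommGroup carrier]
  [mod : Module ℂ carrier]
  [us : UniformSpace carrier]
  [fr : FrechetSpace carrier]
  /-- the left action `b · x` -/
  l : B →ₗ[ℂ] carrier →ₗ[ℂ] carrier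
  /-- the right action `x · c` -/
  r : C →ₗ[ℂ] carrier →ₗ[ℂ] carrier
  l_mul : ∀ a b x, l (a * b) x = l a (l b x)
  r_mul : ∀ a b x, r (a * b) x = r b (r a x)
  l_r : ∀ b c x, l b (r c x) = r c (l b x)
  l_cont : Continuous fun z : B × carrier => l z.1 z.2
  r_cont : Continuous fun z : C × carrier => r z.1 z.2

attribute [instance] BMod.acg BMod.mod BMod.us BMod.fr

section Bimodules

variable {B C : Type u} [NonUnitalRing B] [Module ℂ B] [UniformSpace B] [FrechetAlgebra B]
  [NonUnitalRing C] [Module ℂ C] [UniformSpace C] [FrechetAlgebra C]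

instance : CoeSort (BMod B C) (Type u) := ⟨BMod.carrier⟩

/-- Morphisms of Fréchet bimodules. -/
structure BMod.Hom (M N : BMod B C) where
  /-- the underlying continuous linear map -/
  f : M →L[ℂ] N
  map_l : ∀ b x, f (M.l b x) = N.l b (f x)
  map_r : ∀ c x, f (M.r c x) = N.r c (f x)

/-- The elements `m·b ⊗ x - m ⊗ b·x` and `c·m ⊗ x - m ⊗ x·c` of `M ⊗ F`, for a `C`-`B`-bimodule `M`
and a `B`-`C`-bimodule `F`. -/
def rel (M : BMod C B) (F : BMod B C) : Set (PT M F) :=
  {z | ∃ (b : B) (m : M) (x : F), z = PT.tmul (M.r b m) x - PT.tmul m (F.l b x)} ∪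
  {z | ∃ (c : C) (m : M) (x : F), z = PT.tmul (M.l c m) x - PT.tmul m (F.r c x)}

/-- The tensor product `M ⊗̂_{B-C} F` of a Fréchet `C`-`B`-bimodule `M` and a Fréchet
`B`-`C`-bimodule `F`: the quotient of `M ⊗̂ F` by the closed linear span of all elements
`m·b ⊗ x - m ⊗ b·x` and `c·m ⊗ x - m ⊗ x·c`. -/
abbrev Tens (M : BMod C B) (F : BMod B C) : Type u := QT (rel M F)

theorem Tens.mk_r (M : BMod C B) (F : BMod B C) (b : B) (m : M) (x : F) :
    (QT.mk (M.r b m) x : Tens M F) = QT.mk m (F.l b x) := by
  have h := QT.lift_mk_eq_zero (R := rel M F) (z := PT.tmul (M.r b m) x - PT.tmul m (F.l b x))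
    (Or.inl ⟨b, m, x, rfl⟩)
  rw [map_sub, PT.lift_tmul, PT.lift_tmul, sub_eq_zero] at h
  exact h

theorem Tens.mk_l (M : BMod C B) (F : BMod B C) (c : C) (m : M) (x : F) :
    (QT.mk (M.l c m) x : Tens M F) = QT.mk m (F.r c x) := by
  have h := QT.lift_mk_eq_zero (R := rel M F) (z := PT.tmul (M.l c m) x - PT.tmul m (F.r c x))
    (Or.inr ⟨c, m, x, rfl⟩)
  rw [map_sub, PT.lift_tmul, PT.lift_tmul, sub_eq_zero] at h
  exact h

theorem rel_lift {M : BMod C B} {F : BMod B C} {G : Type*} [AddCommGroup G] [Module ℂ G]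
    (β : M →ₗ[ℂ] F →ₗ[ℂ] G) (h1 : ∀ b m x, β (M.r b m) x = β m (F.l b x))
    (h2 : ∀ c m x, β (M.l c m) x = β m (F.r c x)) : ∀ z ∈ rel M F, PT.lift β z = 0 := by
  rintro z (⟨b, m, x, rfl⟩ | ⟨c, m, x, rfl⟩)
  · rw [map_sub, PT.lift_tmul, PT.lift_tmul, h1, sub_self]
  · rw [map_sub, PT.lift_tmul, PT.lift_tmul, h2, sub_self]

section TensLift

variable {M : BMod C B} {F : BMod B C} {G : Type u} [AddCommGroup G] [Module ℂ G]
  [UniformSpace G] [FrechetSpace G]

/-- The universal property of `M ⊗̂_{B-C} F`. -/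
noncomputable def Tens.lift (β : M →ₗ[ℂ] F →ₗ[ℂ] G) (hβ : Continuous fun z : M × F => β z.1 z.2)
    (h1 : ∀ b m x, β (M.r b m) x = β m (F.l b x)) (h2 : ∀ c m x, β (M.l c m) x = β m (F.r c x)) :
    Tens M F →L[ℂ] G := QT.lift β hβ (rel_lift β h1 h2)

@[simp] theorem Tens.lift_mk (β : M →ₗ[ℂ] F →ₗ[ℂ] G)
    (hβ : Continuous fun z : M × F => β z.1 z.2)
    (h1 : ∀ b m x, β (M.r b m) x = β m (F.l b x)) (h2 : ∀ c m x, β (M.l c m) x = β m (F.r c x))
    (m : M) (x : F) : Tens.lift β hβ h1 h2 (QT.mk m x) = β m x :=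
  QT.lift_mk β hβ (rel_lift β h1 h2) m x

end TensLift

/-- The bilinear map `(m, x) ↦ f m ⊗ x`. -/
noncomputable def Tens.mapAux {M M' : BMod C B} (f : M →L[ℂ] M') (F : BMod B C) :
    M →ₗ[ℂ] F →ₗ[ℂ] Tens M' F := (QT.mk : M' →ₗ[ℂ] F →ₗ[ℂ] Tens M' F) ∘ₗ f.toLinearMap

theorem Tens.mapAux_apply {M M' : BMod C B} (f : M →L[ℂ] M') (F : BMod B C) (m : M) (x : F) :
    Tens.mapAux f F m x = QT.mk (f m) x := rfl

theorem Tens.continuous_mapAux {M M' : BMod C B} (f : M →L[ℂ] M') (F : BMod B C) :
    Continuous fun z : M × F => Tens.mapAux f F z.1 z.2 := by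
  have h1 : Continuous fun z : M × F => (f z.1, z.2) := by fun_prop
  have h2 : Continuous fun z : M' × F => (QT.mk z.1 z.2 : Tens M' F) := QT.continuous_mk
  simp only [Tens.mapAux_apply]
  exact h2.comp h1

/-- The map `M ⊗̂_{B-C} F → M' ⊗̂_{B-C} F` induced by a morphism `M → M'`,
`m ⊗ x ↦ f m ⊗ x`. -/
noncomputable def Tens.map {M M' : BMod C B} (f : BMod.Hom M M') (F : BMod B C) :
    Tens M F →L[ℂ] Tens M' F :=
  Tens.lift (Tens.mapAux f.f F) (Tens.continuous_mapAux f.f F)
    (fun b m x => by
      rw [Tens.mapAux_apply, Tens.mapAux_apply, f.map_r, Tens.mk_r])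
    (fun c m x => by
      rw [Tens.mapAux_apply, Tens.mapAux_apply, f.map_l, Tens.mk_l])

@[simp] theorem Tens.map_mk {M M' : BMod C B} (f : BMod.Hom M M') (F : BMod B C) (m : M) (x : F) :
    Tens.map f F (QT.mk m x) = QT.mk (f.f m) x := by
  rw [Tens.map, Tens.lift_mk, Tens.mapAux_apply]

/-- A complex `⋯ → X (i+1) → X i → ⋯` of Fréchet bimodules, indexed by `ℤ`, together with
a contracting homotopy made of continuous linear maps: an **admissible** complex. -/
structure AdmComplex (B C : Type u) [NonUnitalRing B] [Module ℂ B] [UniformSpace B]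
    [FrechetAlgebra B] [NonUnitalRing C] [Module ℂ C] [UniformSpace C] [FrechetAlgebra C] where
  /-- the terms -/
  X : ℤ → BMod B C
  /-- the differentials (bimodule morphisms) -/
  d : ∀ i, BMod.Hom (X (i + 1)) (X i)
  /-- the contracting homotopy (continuous linear maps) -/
  s : ∀ i, X i →L[ℂ] X (i + 1)
  d_d : ∀ i x, (d i).f ((d (i + 1)).f x) = 0
  htpy : ∀ i x, (d (i + 1)).f (s (i + 1) x) + s i ((d i).f x) = x

/-- A Fréchet `B`-`C`-bimodule `F` is **flat** if the functor `(-) ⊗̂_{B-C} F` takes admissible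
complexes of `C`-`B`-bimodules to exact sequences. -/
def Flat (F : BMod B C) : Prop :=
  ∀ (K : AdmComplex C B) (i : ℤ), Function.Exact (Tens.map (K.d (i + 1)) F) (Tens.map (K.d i) F)

/-- `X` has a **flat resolution of length at most `n`**: a complex `P` of flat bimodules
with `P i = 0` for `i > n` and a morphism `ε : P 0 → X` such that the augmented complex
`⋯ → P 1 → P 0 → X → 0` has a contracting homotopy made of continuous linear maps. -/
def HasFlatResolution (X : BMod B C) (n : ℕ) : Prop :=
  ∃ (P : ℕ → BMod B C) (d : ∀ i, BMod.Hom (P (i + 1)) (P i)) (ε : BMod.Hom (P 0) X)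
    (s : ∀ i, P i →L[ℂ] P (i + 1)) (σ : X →L[ℂ] P 0),
    (∀ i, Flat (P i)) ∧ (∀ i, n < i → Subsingleton (P i)) ∧
    (∀ i x, (d i).f ((d (i + 1)).f x) = 0) ∧ (∀ x, ε.f ((d 0).f x) = 0) ∧
    (∀ x, ε.f (σ x) = x) ∧ (∀ x, (d 0).f (s 0 x) + σ (ε.f x) = x) ∧
    (∀ i x, (d (i + 1)).f (s (i + 1) x) + s i ((d i).f x) = x)

/-- The **weak homological dimension** of `X`: the least length of a flat resolution of `X`
(and `⊤` if there is no flat resolution of finite length). -/
noncomputable def wdh (X : BMod B C) : ℕ∞ :=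
  sInf {m : ℕ∞ | ∃ n : ℕ, m = n ∧ HasFlatResolution X n}

end Bimodules

section Algebra

variable (A : Type u) [NonUnitalRing A] [Module ℂ A] [UniformSpace A] [FrechetAlgebra A]

/-- The algebra `A` as a bimodule over itself. -/
noncomputable def regular : BMod A A where
  carrier := A
  l := LinearMap.mul ℂ A
  r := (LinearMap.mul ℂ A).flip
  l_mul a b x := by simp [mul_assoc]
  r_mul a b x := by simp [mul_assoc]
  l_r b c x := by simp [mul_assoc]
  l_cont := by simpa using! continuous_mul
  r_cont := by simpa using! continuous_mul.comp continuous_swap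

/-- The unitization `A₊ = ℂ ⊕ A` as an `A`-bimodule:
`a · (z, b) = (0, z • a + a * b)` and `(z, b) · a = (0, z • a + b * a)`. -/
noncomputable def unitization : BMod A A where
  carrier := ℂ × A
  l := LinearMap.mk₂ ℂ (fun a x => ((0 : ℂ), x.1 • a + a * x.2))
    (fun a a' x => by ext; · simp
                      simp only [smul_add, add_mul, Prod.snd_add]; abel)
    (fun z a x => by ext; · simp
                     simp only [Prod.smul_snd, smul_add, smul_comm x.1 z a, smul_mul_assoc])
    (fun a x x' => by ext; · simp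
                      simp only [Prod.fst_add, Prod.snd_add, add_smul, mul_add]; abel)
    (fun z a x => by ext; · simp
                     simp only [Prod.smul_fst, Prod.smul_snd, smul_eq_mul, mul_smul, smul_add,
                       mul_smul_comm])
  r := LinearMap.mk₂ ℂ (fun a x => ((0 : ℂ), x.1 • a + x.2 * a))
    (fun a a' x => by ext; · simp
                      simp only [smul_add, mul_add, Prod.snd_add]; abel)
    (fun z a x => by ext; · simp
                     simp only [Prod.smul_snd, smul_add, smul_comm x.1 z a, mul_smul_comm])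
    (fun a x x' => by ext; · simp
                      simp only [Prod.fst_add, Prod.snd_add, add_smul, add_mul]; abel)
    (fun z a x => by ext; · simp
                     simp only [Prod.smul_fst, Prod.smul_snd, smul_eq_mul, mul_smul, smul_add,
                       smul_mul_assoc])
  l_mul a b x := by
    ext; · simp
    simp only [LinearMap.mk₂_apply, mul_add, mul_assoc, zero_smul, zero_add, mul_smul_comm]
  r_mul a b x := by
    ext; · simp
    simp only [LinearMap.mk₂_apply, add_mul, mul_assoc, zero_smul, zero_add, smul_mul_assoc]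
  l_r b c x := by
    ext; · simp
    simp only [LinearMap.mk₂_apply, add_mul, mul_add, mul_assoc, zero_smul, zero_add,
      smul_mul_assoc, mul_smul_comm]
  l_cont := by simp only [LinearMap.mk₂_apply]; fun_prop
  r_cont := by simp only [LinearMap.mk₂_apply]; fun_prop

/-- `A` is **biflat** if it is flat as a bimodule over itself. -/
def Biflat : Prop := Flat (regular A)

/-- The **weak bidimension** of `A`: the weak homological dimension of the bimodule `A₊`. -/
noncomputable def wdb : ℕ∞ := wdh (unitization A)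

end Algebra

end Pool.Agent.FrHom
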