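import Pool.Agent.Lib.MP_afeff1_an.Main

/-!
# Comparison of the definitions of the statement with the ones used in the proof
-/

set_option autoImplicit false
set_option linter.unusedSectionVars false
set_option linter.unusedVariables false

open scoped TensorProduct Topology Uniformity
open Filter UniformSpace

namespace Pool.Agent.FrHom

universe u

variable {A : Type u} [NonUnitalRing A] [Module ℂ A] [UniformSpace A] [FrechetAlgebra A]

/-- From the bimodules of the statement to the ones of the proof. -/
noncomputable def toB (M : Bimodule A) : BMod A A where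
  carrier := M.carrier
  fr := M.isBimodule.frechet
  l := LinearMap.mk₂ ℂ M.l (fun a b x => (M.isBimodule.l_linear' x).map_add a b)
    (fun z a x => (M.isBimodule.l_linear' x).map_smul z a)
    (fun a x y => (M.isBimodule.l_linear a).map_add x y)
    (fun z a x => (M.isBimodule.l_linear a).map_smul z x)
  r := LinearMap.mk₂ ℂ M.r (fun a b x => (M.isBimodule.r_linear' x).map_add a b)
    (fun z a x => (M.isBimodule.r_linear' x).map_smul z a)
    (fun a x y => (M.isBimodule.r_linear a).map_add x y)
    (fun z a x => (M.isBimodule.r_linear a).map_smul z x)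
  l_mul a b x := M.isBimodule.l_mul a b x
  r_mul a b x := M.isBimodule.r_mul a b x
  l_r b c x := M.isBimodule.l_r b c x
  l_cont := M.isBimodule.l_continuous
  r_cont := M.isBimodule.r_continuous

/-- From the bimodules of the proof to the ones of the statement. -/
noncomputable def ofB (N : BMod A A) : Bimodule A where
  carrier := N.carrier
  l a x := N.l a x
  r a x := N.r a x
  isBimodule :=
    { frechet := N.fr
      l_linear := fun a => (N.l a).isLinear
      l_linear' := fun x => (N.l.flip x).isLinear
      r_linear := fun a => (N.r a).isLinear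
      r_linear' := fun x => (N.r.flip x).isLinear
      l_mul := N.l_mul
      r_mul := N.r_mul
      l_r := N.l_r
      l_continuous := N.l_cont
      r_continuous := N.r_cont }

theorem ofB_regular : ofB (regular A) = selfBimodule A := rfl
theorem ofB_unitization : ofB (unitization A) = unitizationBimodule A := rfl

section Compare

variable (M N F : BMod A A)

theorem mem_balancingClosure (w : CT M F) :
    w ∈ balancingClosure (fun a x => M.l a x) (fun a x => M.r a x) (fun a x => F.l a x)
      (fun a x => F.r a x) ↔ (QT.proj w : Tens M F) = 0 := by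
  have h1 : (QT.proj w : Tens M F) = 0 ↔ w ∈ relSub (rel M F) :=
    Submodule.Quotient.mk_eq_zero _
  have h2 : rel M F = balancing (fun a x => M.l a x) (fun a x => M.r a x) (fun a x => F.l a x)
      (fun a x => F.r a x) := by
    ext z
    constructor
    · rintro (⟨b, m, x, h⟩ | ⟨b, m, x, h⟩)
      · exact ⟨b, m, x, Or.inl h⟩
      · exact ⟨b, m, x, Or.inr h⟩
    · rintro ⟨b, m, x, h | h⟩
      · exact Or.inl ⟨b, m, x, h⟩
      · exact Or.inr ⟨b, m, x, h⟩
  have h3 : (relSub (rel M F) : Set (CT M F)) =
      closure ((CT.of : PT M F → CT M F) '' (Submodule.span ℂ (rel M F) : Set (PT M F))) := by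
    rw [relSub, Submodule.topologicalClosure_coe]
    congr 1
    have h4 := Submodule.map_span (CT.of : PT M F →L[ℂ] CT M F).toLinearMap (rel M F)
    have h5 := congrArg (fun S : Submodule ℂ (CT M F) => (S : Set (CT M F))) h4
    simp only [Submodule.map_coe] at h5
    exact h5.symm
  rw [h1, ← SetLike.mem_coe, h3, h2]
  exact Iff.rfl

variable {M N}

/-- The map `f ⊗ 1` on algebraic tensor products. -/
noncomputable def rT (f : BMod.Hom M N) (hf : IsLinearMap ℂ f.f) : PT M F →ₗ[ℂ] PT N F :=
  (hf.mk' f.f).rTensor F

theorem rT_tmul (f : BMod.Hom M N) (hf : IsLinearMap ℂ f.f) (m : M) (x : F) :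
    rT F f hf (PT.tmul m x) = PT.tmul (f.f m) x := rfl

theorem continuous_rT (f : BMod.Hom M N) (hf : IsLinearMap ℂ f.f) : Continuous (rT F f hf) := by
  have hp : PolynormableSpace ℂ (PT N F) :=
    (withSeminorms_cross (E := N) (F := F)).toPolynormableSpace
  have h := PT.continuous_lift (E := M) (F := F) (G := PT N F)
    ((PT.tmul : N →ₗ[ℂ] F →ₗ[ℂ] PT N F) ∘ₗ f.f.toLinearMap)
    (comp_cont (PT.continuous_tmul) f.f.continuous)
  have h2 : ∀ z : PT M F, rT F f hf z =
      PT.lift ((PT.tmul : N →ₗ[ℂ] F →ₗ[ℂ] PT N F) ∘ₗ f.f.toLinearMap) z := by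
    intro z
    induction z using PT.induction_on with
    | zero => rw [map_zero, map_zero]
    | tmul x y => rw [PT.lift_tmul, rT_tmul]; rfl
    | add x y hx hy => rw [map_add, map_add, hx, hy]
  exact h.congr fun z => (h2 z).symm

theorem uniformContinuous_rT (f : BMod.Hom M N) (hf : IsLinearMap ℂ f.f) :
    UniformContinuous (rT F f hf) :=
  uniformContinuous_addMonoidHom_of_continuous (f := (rT F f hf).toAddMonoidHom)
    (continuous_rT F f hf)

/-- The map of the statement on completed tensor products. -/
noncomputable def cT (f : BMod.Hom M N) (hf : IsLinearMap ℂ f.f) : CT M F → CT N F :=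
  PTen.map F f.f hf

theorem cT_of (f : BMod.Hom M N) (hf : IsLinearMap ℂ f.f) (z : PT M F) :
    cT F f hf (CT.of z) = CT.of (rT F f hf z) :=
  Completion.map_coe (uniformContinuous_rT F f hf) z

theorem continuous_cT (f : BMod.Hom M N) (hf : IsLinearMap ℂ f.f) : Continuous (cT F f hf) :=
  Completion.continuous_map (f := rT F f hf)

theorem map_proj (f : BMod.Hom M N) (hf : IsLinearMap ℂ f.f) (w : CT M F) :
    Tens.map f F (QT.proj w) = (QT.proj (cT F f hf w) : Tens N F) := by
  have h1 : Continuous fun w : CT M F => Tens.map f F (QT.proj w) :=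
    (Tens.map f F).continuous.comp QT.proj.continuous
  have h2 : Continuous fun w : CT M F => (QT.proj (cT F f hf w) : Tens N F) :=
    QT.proj.continuous.comp (continuous_cT F f hf)
  refine congrFun (CT.denseRange_of.equalizer h1 h2 (funext fun z => ?_)) w
  simp only [Function.comp_apply]
  rw [cT_of]
  induction z using PT.induction_on with
  | zero => simp only [map_zero]
  | tmul x y =>
    rw [rT_tmul, ← CT.mk_eq, ← CT.mk_eq, ← QT.mk_eq, ← QT.mk_eq, Tens.map_mk]
  | add x y hx hy => simp only [map_add, hx, hy]

end Compare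

section Exact

variable {L M N F : BMod A A}

theorem tensorExact_iff {L M N : Bimodule A} {F : BMod A A} (g : BMod.Hom (toB L) (toB M))
    (f : BMod.Hom (toB M) (toB N)) (hg : IsMor L M g.f) (hf : IsMor M N f.f) :
    TensorExact L M N (ofB F) g.f hg f.f hf ↔
      Function.Exact (Tens.map g F) (Tens.map f F) := by
  have key : ∀ w : PTen M.carrier (ofB F).carrier,
      (IsZeroIn N (ofB F) (PTen.map (ofB F).carrier f.f hf.clin.linear w) ↔
        Tens.map f F (QT.proj (show CT (toB M) F from w)) = 0) := by
    intro w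
    rw [map_proj F f hf.clin.linear w]
    exact mem_balancingClosure (toB N) F _
  have key2 : ∀ (w : PTen M.carrier (ofB F).carrier) (v : PTen L.carrier (ofB F).carrier),
      (IsZeroIn M (ofB F)
        (w - PTen.map (E := L.carrier) (E' := M.carrier) (ofB F).carrier g.f hg.clin.linear v) ↔
        Tens.map g F (QT.proj (show CT (toB L) F from v)) =
          QT.proj (show CT (toB M) F from w)) := by
    intro w v
    rw [map_proj F g hg.clin.linear v]
    have h1 : ∀ w v : CT (toB M) F, w - v ∈ balancingClosure (fun a x => (toB M).l a x)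
        (fun a x => (toB M).r a x) (fun a x => F.l a x) (fun a x => F.r a x) ↔
        (QT.proj v : Tens (toB M) F) = QT.proj w := by
      intro w v
      rw [mem_balancingClosure (toB M) F (w - v), map_sub, sub_eq_zero, eq_comm]
    exact h1 w _
  constructor
  · intro h y
    obtain ⟨w, rfl⟩ := QT.isOpenQuotientMap_proj.surjective y
    have h1 := h w
    constructor
    · intro h2
      obtain ⟨v, hv⟩ := h1.mp ((key w).mpr h2)
      exact ⟨QT.proj v, (key2 w v).mp hv⟩
    · rintro ⟨v', hv'⟩
      obtain ⟨v, rfl⟩ := QT.isOpenQuotientMap_proj.surjective v'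
      exact (key w).mp (h1.mpr ⟨v, (key2 w v).mpr hv'⟩)
  · intro h w
    constructor
    · intro h2
      obtain ⟨v', hv'⟩ := (h _).mp ((key w).mp h2)
      obtain ⟨v, rfl⟩ := QT.isOpenQuotientMap_proj.surjective v'
      exact ⟨v, (key2 w v).mpr hv'⟩
    · rintro ⟨v, hv⟩
      exact (key w).mpr ((h _).mpr ⟨QT.proj v, (key2 w v).mp hv⟩)

end Exact

section Transfer

/-- A continuous linear map of the statement as a bundled one. -/
def clinL {M N : Bimodule A} {f : M.carrier → N.carrier} (hf : IsCLin M N f) :
    M.carrier →L[ℂ] N.carrier := ⟨hf.linear.mk' f, hf.continuous⟩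

/-- A morphism of the statement as a morphism of the proof. -/
noncomputable def morH {M N : Bimodule A} {f : M.carrier → N.carrier} (hf : IsMor M N f) :
    BMod.Hom (toB M) (toB N) where
  f := clinL hf.clin
  map_l := hf.map_l
  map_r := hf.map_r

theorem isCLin_of {M N : BMod A A} (f : M →L[ℂ] N) : IsCLin (ofB M) (ofB N) f :=
  ⟨f.toLinearMap.isLinear, f.continuous⟩

theorem isMor_of {M N : BMod A A} (f : BMod.Hom M N) : IsMor (ofB M) (ofB N) f.f :=
  ⟨isCLin_of f.f, f.map_l, f.map_r⟩

theorem flat_of_isFlat {F : BMod A A} (h : IsFlat (ofB F)) : Flat F := by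
  intro K i
  have hK : IsAdmissible (fun j => ofB (K.X j)) (fun j => (K.d j).f) :=
    { mor := fun j => isMor_of (K.d j)
      d_d := K.d_d
      htpy := ⟨fun j => K.s j, fun j => isCLin_of (K.s j), K.htpy⟩ }
  exact (tensorExact_iff (L := ofB (K.X (i + 1 + 1))) (M := ofB (K.X (i + 1)))
    (N := ofB (K.X i)) (K.d (i + 1)) (K.d i) _ _).mp
    (h (fun j => ofB (K.X j)) (fun j => (K.d j).f) hK i)

theorem isFlat_of_flat {F : BMod A A} (h : Flat F) : IsFlat (ofB F) := by
  intro X d hX i
  obtain ⟨s, hs, hh⟩ := hX.htpy
  exact (tensorExact_iff (L := X (i + 1 + 1)) (M := X (i + 1)) (N := X i) (morH (hX.mor (i + 1)))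
    (morH (hX.mor i)) (hX.mor (i + 1)) (hX.mor i)).mpr
    (h { X := fun j => toB (X j)
         d := fun j => morH (hX.mor j)
         s := fun j => clinL (hs j)
         d_d := hX.d_d
         htpy := hh } i)

theorem flatDimLE_of {X : BMod A A} {n : ℕ} (h : HasFlatResolution X n) :
    FlatDimLE (ofB X) n := by
  obtain ⟨P, d, ε, s, σ, h1, h2, h3, h4, h5, h6, h7⟩ := h
  exact ⟨fun i => ofB (P i), fun i => (d i).f, ε.f,
    { flat := fun i => isFlat_of_flat (h1 i)
      mor := fun i => isMor_of (d i)
      mor_ε := isMor_of ε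
      d_d := h3
      ε_d := h4
      htpy := ⟨fun i => s i, σ, fun i => isCLin_of (s i), isCLin_of σ, h5, h6, h7⟩ }, h2⟩

variable (A) in
/-- **Main theorem**, in the terms of the statement. -/
theorem weakBidim_le_two (hA : IsBiflat A) : weakBidim A ≤ 2 :=
  sInf_le ⟨2, rfl, flatDimLE_of (hasFlatResolution_unitization A (flat_of_isFlat hA))⟩

end Transfer

end Pool.Agent.FrHom
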