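import Pool.Agent.Lib.MP_afeff1_an.Constr

/-!
# Composition of bimodules, the canonical free cover and its kernel
-/

set_option autoImplicit false
set_option linter.unusedSectionVars false
set_option linter.unusedVariables false

open scoped TensorProduct Topology Uniformity
open Filter UniformSpace

namespace Pool.Agent.FrHom

universe u

variable {B C : Type u} [NonUnitalRing B] [Module ℂ B] [UniformSpace B] [FrechetAlgebra B]
  [NonUnitalRing C] [Module ℂ C] [UniformSpace C] [FrechetAlgebra C]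

/-- The zero algebra. -/
abbrev Z : Type u := PUnit.{u + 1}

theorem l_punit (M : BMod Z B) (z : Z) (x : M) : M.l z x = 0 := by
  rw [Subsingleton.elim z 0, map_zero, LinearMap.zero_apply]

theorem r_punit (M : BMod B Z) (z : Z) (x : M) : M.r z x = 0 := by
  rw [Subsingleton.elim z 0, map_zero, LinearMap.zero_apply]

/-- Forget the right action. -/
noncomputable def forgetR (N : BMod B C) : BMod B Z where
  carrier := N
  l := N.l
  r := 0
  l_mul := N.l_mul
  r_mul _ _ _ := rfl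
  l_r b c x := by simp
  l_cont := N.l_cont
  r_cont := continuous_const

/-- Forget the left action. -/
noncomputable def forgetL (N : BMod B C) : BMod Z C where
  carrier := N
  l := 0
  r := N.r
  l_mul _ _ _ := rfl
  r_mul := N.r_mul
  l_r b c x := by simp
  l_cont := continuous_const
  r_cont := N.r_cont

/-- A continuous left-linear map as a morphism of left modules. -/
noncomputable def homR {N N' : BMod B C} (g : N →L[ℂ] N') (h : ∀ b x, g (N.l b x) = N'.l b (g x)) :
    BMod.Hom (forgetR N) (forgetR N') where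
  f := g
  map_l := h
  map_r c x := by
    rw [r_punit, r_punit]; exact map_zero g

theorem homR_f {N N' : BMod B C} (g : N →L[ℂ] N') (h : ∀ b x, g (N.l b x) = N'.l b (g x)) (x : N) :
    (homR g h).f x = g x := rfl

/-- The right action of `B` on `forgetR N` (no longer part of the structure). -/
noncomputable def rF (N : BMod C B) : B →ₗ[ℂ] forgetR N →ₗ[ℂ] forgetR N := N.r

theorem rF_cont (N : BMod C B) : Continuous fun z : B × forgetR N => rF N z.1 z.2 := N.r_cont

theorem rF_l (N : BMod C B) (b : B) (c : C) (m : forgetR N) :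
    rF N b ((forgetR N).l c m) = (forgetR N).l c (rF N b m) := (N.l_r c b m).symm

theorem rF_mul (N : BMod C B) (a b : B) (m : forgetR N) :
    rF N (a * b) m = rF N b (rF N a m) := N.r_mul a b m

/-- Elementary tensors of `Y ⊗̂_C N`. -/
noncomputable def cmk (N : BMod C B) (Y : BMod Z C) :
    forgetR N →ₗ[ℂ] Y →ₗ[ℂ] Tens (forgetR N) Y := QT.mk

theorem cmk_cont (N : BMod C B) (Y : BMod Z C) :
    Continuous fun z : forgetR N × Y => cmk N Y z.1 z.2 := QT.continuous_mk

theorem cmk_bal (N : BMod C B) (Y : BMod Z C) (c : C) (m : forgetR N) (y : Y) :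
    cmk N Y ((forgetR N).l c m) y = cmk N Y m (Y.r c y) := Tens.mk_l (forgetR N) Y c m y

theorem compR_rel (N : BMod C B) (Y : BMod Z C) (b : B) :
    ∀ z ∈ rel (forgetR N) Y, PT.lift (tri1 (rF N) (cmk N Y) b) z = 0 :=
  rel_lift _ (fun z m y => by
      rw [r_punit, l_punit, map_zero, map_zero, LinearMap.zero_apply])
    (fun c m y => by
      rw [tri1_apply, tri1_apply, rF_l, cmk_bal])

/-- The right action on `Y ⊗̂_C N`. -/
noncomputable def compR (N : BMod C B) (Y : BMod Z C) :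
    B →ₗ[ℂ] Tens (forgetR N) Y →ₗ[ℂ] Tens (forgetR N) Y :=
  QT.plift (tri1 (rF N) (cmk N Y)) (tri1_cont (rF_cont N) (cmk_cont N Y)) (compR_rel N Y)

theorem compR_mk (N : BMod C B) (Y : BMod Z C) (b : B) (n : forgetR N) (y : Y) :
    compR N Y b (cmk N Y n y) = cmk N Y (rF N b n) y :=
  QT.plift_mk (tri1 (rF N) (cmk N Y)) (tri1_cont (rF_cont N) (cmk_cont N Y)) (compR_rel N Y)
    b n y

theorem compR_cont (N : BMod C B) (Y : BMod Z C) :
    Continuous fun z : B × Tens (forgetR N) Y => compR N Y z.1 z.2 :=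
  QT.continuous_plift (tri1 (rF N) (cmk N Y)) (tri1_cont (rF_cont N) (cmk_cont N Y))
    (compR_rel N Y)

theorem comp_ext {N : BMod C B} {Y : BMod Z C} {G : Type*} [AddCommGroup G] [Module ℂ G]
    [UniformSpace G] [T2Space G] {f g : Tens (forgetR N) Y →ₗ[ℂ] G} (hf : Continuous f)
    (hg : Continuous g) (h : ∀ x y, f (cmk N Y x y) = g (cmk N Y x y))
    (w : Tens (forgetR N) Y) : f w = g w := QT.ext_lin hf hg h w

/-- For a `C`-`B`-bimodule `N` and a right `C`-module `Y`, the right `B`-module `Y ⊗̂_C N`. -/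
noncomputable def compMod (N : BMod C B) (Y : BMod Z C) : BMod Z B where
  carrier := Tens (forgetR N) Y
  l := 0
  r := compR N Y
  l_mul _ _ _ := rfl
  r_mul a b w := by
    refine comp_ext (g := (compR N Y b) ∘ₗ (compR N Y a)) (fix_cont (compR_cont N Y) _)
      ((fix_cont (compR_cont N Y) b).comp (fix_cont (compR_cont N Y) a)) (fun x y => ?_) w
    rw [LinearMap.comp_apply, compR_mk, compR_mk, compR_mk, rF_mul]
  l_r b c x := by simp
  l_cont := continuous_const
  r_cont := compR_cont N Y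

/-- Elementary tensors in `compMod N Y`. -/
noncomputable def kmk (N : BMod C B) (Y : BMod Z C) : N →ₗ[ℂ] Y →ₗ[ℂ] compMod N Y := cmk N Y

theorem kmk_cont (N : BMod C B) (Y : BMod Z C) :
    Continuous fun z : N × Y => kmk N Y z.1 z.2 := cmk_cont N Y

theorem kmk_bal (N : BMod C B) (Y : BMod Z C) (c : C) (n : N) (y : Y) :
    kmk N Y (N.l c n) y = kmk N Y n (Y.r c y) := cmk_bal N Y c n y

theorem kmk_r (N : BMod C B) (Y : BMod Z C) (b : B) (n : N) (y : Y) :
    (compMod N Y).r b (kmk N Y n y) = kmk N Y (N.r b n) y := compR_mk N Y b n y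

section CompLift

variable {N N' : BMod C B} {Y : BMod Z C} {G : Type*} [AddCommGroup G] [Module ℂ G]
    [UniformSpace G]

theorem kext [T2Space G] {f g : compMod N Y →ₗ[ℂ] G} (hf : Continuous f)
    (hg : Continuous g) (h : ∀ x y, f (kmk N Y x y) = g (kmk N Y x y))
    (w : compMod N Y) : f w = g w := QT.ext_lin hf hg h w

theorem kextL [T2Space G] {f g : compMod N Y →L[ℂ] G}
    (h : ∀ x y, f (kmk N Y x y) = g (kmk N Y x y)) (w : compMod N Y) : f w = g w :=
  QT.ext_apply (R := rel (forgetR N) Y) (f := f) (g := g) h w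

theorem krel_lift' (β : forgetR N →ₗ[ℂ] Y →ₗ[ℂ] G)
    (h : ∀ c n y, β ((forgetR N).l c n) y = β n (Y.r c y)) :
    ∀ z ∈ rel (forgetR N) Y, PT.lift β z = 0 :=
  rel_lift (M := forgetR N) β (fun z m y => by
    rw [r_punit, l_punit, map_zero, map_zero, LinearMap.zero_apply]) h

/-- A bilinear map on `N × Y` seen as a bilinear map on `forgetR N × Y`. -/
def asF (β : N →ₗ[ℂ] Y →ₗ[ℂ] G) : forgetR N →ₗ[ℂ] Y →ₗ[ℂ] G := β

theorem krel_lift (β : N →ₗ[ℂ] Y →ₗ[ℂ] G) (h : ∀ c n y, β (N.l c n) y = β n (Y.r c y)) :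
    ∀ z ∈ rel (forgetR N) Y, PT.lift (asF β) z = 0 :=
  krel_lift' (N := N) (Y := Y) (asF β) h

/-- Lifts out of `compMod N Y`. -/
noncomputable def klift [FrechetSpace G] (β : N →ₗ[ℂ] Y →ₗ[ℂ] G)
    (hβ : Continuous fun z : N × Y => β z.1 z.2) (h : ∀ c n y, β (N.l c n) y = β n (Y.r c y)) :
    compMod N Y →L[ℂ] G :=
  QT.lift (R := rel (forgetR N) Y) (asF β) hβ (krel_lift β h)

theorem klift_mk [FrechetSpace G] (β : N →ₗ[ℂ] Y →ₗ[ℂ] G)
    (hβ : Continuous fun z : N × Y => β z.1 z.2) (h : ∀ c n y, β (N.l c n) y = β n (Y.r c y))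
    (n : N) (y : Y) : klift β hβ h (kmk N Y n y) = β n y :=
  QT.lift_mk (R := rel (forgetR N) Y) (asF β) hβ (krel_lift β h) n y

variable {H : Type*} [AddCommGroup H] [Module ℂ H] [TopologicalSpace H]

/-- A trilinear map on `H × N × Y` seen as a trilinear map on `H × forgetR N × Y`. -/
def asF₃ (t : H →ₗ[ℂ] N →ₗ[ℂ] Y →ₗ[ℂ] G) : H →ₗ[ℂ] forgetR N →ₗ[ℂ] Y →ₗ[ℂ] G := t

/-- Lifts of trilinear maps out of `compMod N Y`. -/
noncomputable def kplift [FrechetSpace G] (t : H →ₗ[ℂ] N →ₗ[ℂ] Y →ₗ[ℂ] G)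
    (ht : Continuous fun z : H × N × Y => t z.1 z.2.1 z.2.2)
    (h : ∀ a c n y, t a (N.l c n) y = t a n (Y.r c y)) : H →ₗ[ℂ] compMod N Y →ₗ[ℂ] G :=
  QT.plift (R := rel (forgetR N) Y) (asF₃ t) ht (fun a => krel_lift (t a) (h a))

theorem kplift_mk [FrechetSpace G] (t : H →ₗ[ℂ] N →ₗ[ℂ] Y →ₗ[ℂ] G)
    (ht : Continuous fun z : H × N × Y => t z.1 z.2.1 z.2.2)
    (h : ∀ a c n y, t a (N.l c n) y = t a n (Y.r c y)) (a : H) (n : N) (y : Y) :
    kplift t ht h a (kmk N Y n y) = t a n y :=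
  QT.plift_mk (R := rel (forgetR N) Y) (asF₃ t) ht (fun a => krel_lift (t a) (h a)) a n y

theorem kplift_cont [FrechetSpace G] (t : H →ₗ[ℂ] N →ₗ[ℂ] Y →ₗ[ℂ] G)
    (ht : Continuous fun z : H × N × Y => t z.1 z.2.1 z.2.2)
    (h : ∀ a c n y, t a (N.l c n) y = t a n (Y.r c y)) :
    Continuous fun z : H × compMod N Y => kplift t ht h z.1 z.2 :=
  QT.continuous_plift (R := rel (forgetR N) Y) (asF₃ t) ht (fun a => krel_lift (t a) (h a))

/-- Functoriality of `Y ⊗̂_C N` for left `C`-linear continuous maps in `N`. -/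
noncomputable def kmapL (g : N →L[ℂ] N') (hg : ∀ c x, g (N.l c x) = N'.l c (g x)) (Y : BMod Z C) :
    compMod N Y →L[ℂ] compMod N' Y :=
  klift ((kmk N' Y) ∘ₗ g.toLinearMap) (comp_cont (kmk_cont N' Y) g.continuous)
    (fun c n y => by
      rw [LinearMap.comp_apply, LinearMap.comp_apply, ContinuousLinearMap.coe_coe, hg, kmk_bal])

theorem kmapL_mk (g : N →L[ℂ] N') (hg : ∀ c x, g (N.l c x) = N'.l c (g x)) (Y : BMod Z C)
    (n : N) (y : Y) : kmapL g hg Y (kmk N Y n y) = kmk N' Y (g n) y := by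
  rw [kmapL, klift_mk]; rfl

/-- Functoriality of `Y ⊗̂_C N` in the bimodule `N`. -/
noncomputable def kmap (g : BMod.Hom N N') (Y : BMod Z C) :
    BMod.Hom (compMod N Y) (compMod N' Y) where
  f := kmapL g.f g.map_l Y
  map_l z w := by rw [l_punit, l_punit]; exact map_zero _
  map_r b w := by
    refine kext (f := (kmapL g.f g.map_l Y).toLinearMap ∘ₗ (compMod N Y).r b)
      (g := (compMod N' Y).r b ∘ₗ (kmapL g.f g.map_l Y).toLinearMap)
      ((kmapL g.f g.map_l Y).continuous.comp (BMod.r_cont' _ b))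
      ((BMod.r_cont' _ b).comp (kmapL g.f g.map_l Y).continuous) (fun x y => ?_) w
    rw [LinearMap.comp_apply, LinearMap.comp_apply, ContinuousLinearMap.coe_coe, kmk_r, kmapL_mk,
      kmapL_mk, kmk_r, g.map_r]

theorem kmap_f_mk (g : BMod.Hom N N') (Y : BMod Z C) (n : N) (y : Y) :
    (kmap g Y).f (kmk N Y n y) = kmk N' Y (g.f n) y := kmapL_mk g.f g.map_l Y n y

end CompLift

/-- If a short exact sequence of `C`-`B`-bimodules splits as a sequence of left `C`-modules, then
`Y ⊗̂_C -` transforms it into a split short exact sequence. -/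
noncomputable def SES.comp {L M N : BMod C B} {i : BMod.Hom L M} {p : BMod.Hom M N} (S : SES i p)
    (hs : ∀ c x, S.s (N.l c x) = M.l c (S.s x)) (hρ : ∀ c x, S.ρ (M.l c x) = L.l c (S.ρ x))
    (Y : BMod Z C) : SES (kmap i Y) (kmap p Y) where
  s := kmapL S.s hs Y
  ρ := kmapL S.ρ hρ Y
  ρ_i w := by
    refine kextL (f := (kmapL S.ρ hρ Y).comp (kmap i Y).f) (g := ContinuousLinearMap.id ℂ _)
      (fun x y => ?_) w
    rw [ContinuousLinearMap.comp_apply, kmap_f_mk, kmapL_mk, S.ρ_i]; rfl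
  p_s w := by
    refine kextL (f := (kmap p Y).f.comp (kmapL S.s hs Y)) (g := ContinuousLinearMap.id ℂ _)
      (fun x y => ?_) w
    rw [ContinuousLinearMap.comp_apply, kmapL_mk, kmap_f_mk, S.p_s]; rfl
  add w := by
    refine kextL (f := (kmap i Y).f.comp (kmapL S.ρ hρ Y) + (kmapL S.s hs Y).comp (kmap p Y).f)
      (g := ContinuousLinearMap.id ℂ _) (fun x y => ?_) w
    rw [_root_.add_apply, ContinuousLinearMap.comp_apply, ContinuousLinearMap.comp_apply, kmapL_mk,
      kmap_f_mk, kmap_f_mk, kmapL_mk, ← LinearMap.add_apply, ← map_add, S.add]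
    rfl

end Pool.Agent.FrHom
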