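import Pool.Agent.Lib.MP_afeff1_an.Flat

/-!
# Constructions of bimodules
-/

set_option autoImplicit false
set_option linter.unusedSectionVars false
set_option linter.unusedVariables false

open scoped TensorProduct Topology Uniformity
open Filter UniformSpace

namespace Pool.Agent.FrHom

universe u

section Trilinear

variable {H E E' F F' G : Type*} [AddCommGroup H] [Module ℂ H] [AddCommGroup E] [Module ℂ E]
  [AddCommGroup E'] [Module ℂ E'] [AddCommGroup F] [Module ℂ F] [AddCommGroup F'] [Module ℂ F']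
  [AddCommGroup G] [Module ℂ G]

/-- `(h, x, y) ↦ β (a h x) y`. -/
def tri1 (a : H →ₗ[ℂ] E →ₗ[ℂ] E') (β : E' →ₗ[ℂ] F →ₗ[ℂ] G) : H →ₗ[ℂ] E →ₗ[ℂ] F →ₗ[ℂ] G where
  toFun h := β ∘ₗ (a h)
  map_add' h h' := by ext; simp
  map_smul' c h := by ext; simp

@[simp] theorem tri1_apply (a : H →ₗ[ℂ] E →ₗ[ℂ] E') (β : E' →ₗ[ℂ] F →ₗ[ℂ] G) (h : H) (x : E)
    (y : F) : tri1 a β h x y = β (a h x) y := rfl

/-- `(h, x, y) ↦ β x (a h y)`. -/
def tri2 (a : H →ₗ[ℂ] F →ₗ[ℂ] F') (β : E →ₗ[ℂ] F' →ₗ[ℂ] G) : H →ₗ[ℂ] E →ₗ[ℂ] F →ₗ[ℂ] G where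
  toFun h := β.compl₂ (a h)
  map_add' h h' := by ext; simp
  map_smul' c h := by ext; simp

@[simp] theorem tri2_apply (a : H →ₗ[ℂ] F →ₗ[ℂ] F') (β : E →ₗ[ℂ] F' →ₗ[ℂ] G) (h : H) (x : E)
    (y : F) : tri2 a β h x y = β x (a h y) := rfl

variable [TopologicalSpace H] [TopologicalSpace E] [TopologicalSpace E'] [TopologicalSpace F]
  [TopologicalSpace F'] [TopologicalSpace G]

theorem tri1_cont {a : H →ₗ[ℂ] E →ₗ[ℂ] E'} {β : E' →ₗ[ℂ] F →ₗ[ℂ] G}
    (ha : Continuous fun z : H × E => a z.1 z.2) (hβ : Continuous fun z : E' × F => β z.1 z.2) :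
    Continuous fun z : H × E × F => tri1 a β z.1 z.2.1 z.2.2 := by
  simp only [tri1_apply]
  have h1 : Continuous fun z : H × E × F => (a z.1 z.2.1, z.2.2) :=
    (ha.comp (by fun_prop : Continuous fun z : H × E × F => (z.1, z.2.1))).prodMk (by fun_prop)
  exact hβ.comp h1

theorem tri2_cont {a : H →ₗ[ℂ] F →ₗ[ℂ] F'} {β : E →ₗ[ℂ] F' →ₗ[ℂ] G}
    (ha : Continuous fun z : H × F => a z.1 z.2) (hβ : Continuous fun z : E × F' => β z.1 z.2) :
    Continuous fun z : H × E × F => tri2 a β z.1 z.2.1 z.2.2 := by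
  simp only [tri2_apply]
  have h1 : Continuous fun z : H × E × F => (z.2.1, a z.1 z.2.2) :=
    Continuous.prodMk (by fun_prop)
      (ha.comp (by fun_prop : Continuous fun z : H × E × F => (z.1, z.2.2)))
  exact hβ.comp h1

theorem flip_cont {β : E →ₗ[ℂ] F →ₗ[ℂ] G} (hβ : Continuous fun z : E × F => β z.1 z.2) :
    Continuous fun z : F × E => β.flip z.1 z.2 := by
  simp only [LinearMap.flip_apply]
  exact hβ.comp continuous_swap

theorem comp_cont {β : E' →ₗ[ℂ] F →ₗ[ℂ] G} (hβ : Continuous fun z : E' × F => β z.1 z.2)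
    {f : E →ₗ[ℂ] E'} (hf : Continuous f) : Continuous fun z : E × F => (β ∘ₗ f) z.1 z.2 := by
  simp only [LinearMap.comp_apply]
  exact hβ.comp ((hf.comp continuous_fst).prodMk continuous_snd)

theorem compl₂_cont {β : E →ₗ[ℂ] F' →ₗ[ℂ] G} (hβ : Continuous fun z : E × F' => β z.1 z.2)
    {f : F →ₗ[ℂ] F'} (hf : Continuous f) : Continuous fun z : E × F => (β.compl₂ f) z.1 z.2 := by
  simp only [LinearMap.compl₂_apply]
  exact hβ.comp (continuous_fst.prodMk (hf.comp continuous_snd))

theorem fix_cont {β : E →ₗ[ℂ] F →ₗ[ℂ] G} (hβ : Continuous fun z : E × F => β z.1 z.2) (x : E) :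
    Continuous (β x) := hβ.comp (by fun_prop : Continuous fun y : F => (x, y))

theorem fix_cont' {β : E →ₗ[ℂ] F →ₗ[ℂ] G} (hβ : Continuous fun z : E × F => β z.1 z.2) (y : F) :
    Continuous fun x => β x y := hβ.comp (by fun_prop : Continuous fun x : E => (x, y))

end Trilinear

section ExtLin

variable {E F G : Type*} [AddCommGroup E] [Module ℂ E] [UniformSpace E] [FrechetSpace E]
  [AddCommGroup F] [Module ℂ F] [UniformSpace F] [FrechetSpace F]
  [AddCommGroup G] [Module ℂ G] [UniformSpace G] [T2Space G]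

theorem CT.ext_lin {f g : CT E F →ₗ[ℂ] G} (hf : Continuous f) (hg : Continuous g)
    (h : ∀ x y, f (CT.mk x y) = g (CT.mk x y)) (w : CT E F) : f w = g w :=
  CT.ext_apply (f := ⟨f, hf⟩) (g := ⟨g, hg⟩) h w

theorem QT.ext_lin {R : Set (PT E F)} {f g : QT R →ₗ[ℂ] G} (hf : Continuous f)
    (hg : Continuous g) (h : ∀ x y, f (QT.mk x y) = g (QT.mk x y)) (w : QT R) : f w = g w :=
  QT.ext_apply (f := ⟨f, hf⟩) (g := ⟨g, hg⟩) h w

end ExtLin

variable {B C D D' : Type u} [NonUnitalRing B] [Module ℂ B] [UniformSpace B] [FrechetAlgebra B]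
  [NonUnitalRing C] [Module ℂ C] [UniformSpace C] [FrechetAlgebra C]
  [NonUnitalRing D] [Module ℂ D] [UniformSpace D] [FrechetAlgebra D]
  [NonUnitalRing D'] [Module ℂ D'] [UniformSpace D'] [FrechetAlgebra D']

/-- The exterior tensor product `P ⊗̂ Q`, with the left action of `B` coming from `P` and the right
action of `C` coming from `Q`. -/
noncomputable def outer (P : BMod B D) (Q : BMod D' C) : BMod B C where
  carrier := CT P Q
  l := CT.plift (tri1 P.l CT.mk) (tri1_cont P.l_cont CT.continuous_mk)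
  r := CT.plift (tri2 Q.r CT.mk) (tri2_cont Q.r_cont CT.continuous_mk)
  l_mul a b w := by
    have hc := CT.continuous_plift (tri1 P.l (CT.mk (F := Q)))
      (tri1_cont P.l_cont CT.continuous_mk)
    refine CT.ext_lin (g := (CT.plift (tri1 P.l (CT.mk (F := Q))) _ a) ∘ₗ
      (CT.plift (tri1 P.l (CT.mk (F := Q))) _ b)) (fix_cont hc _)
      ((fix_cont hc a).comp (fix_cont hc b)) (fun x y => ?_) w
    simp [P.l_mul]
  r_mul a b w := by
    have hc := CT.continuous_plift (tri2 Q.r (CT.mk (E := P)))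
      (tri2_cont Q.r_cont CT.continuous_mk)
    refine CT.ext_lin (g := (CT.plift (tri2 Q.r (CT.mk (E := P))) _ b) ∘ₗ
      (CT.plift (tri2 Q.r (CT.mk (E := P))) _ a)) (fix_cont hc _)
      ((fix_cont hc b).comp (fix_cont hc a)) (fun x y => ?_) w
    simp [Q.r_mul]
  l_r b c w := by
    have hc := CT.continuous_plift (tri1 P.l (CT.mk (F := Q)))
      (tri1_cont P.l_cont CT.continuous_mk)
    have hc' := CT.continuous_plift (tri2 Q.r (CT.mk (E := P)))
      (tri2_cont Q.r_cont CT.continuous_mk)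
    refine CT.ext_lin (f := (CT.plift (tri1 P.l (CT.mk (F := Q))) _ b) ∘ₗ
      (CT.plift (tri2 Q.r (CT.mk (E := P))) _ c)) (g := (CT.plift (tri2 Q.r (CT.mk (E := P))) _ c) ∘ₗ
      (CT.plift (tri1 P.l (CT.mk (F := Q))) _ b)) ((fix_cont hc b).comp (fix_cont hc' c))
      ((fix_cont hc' c).comp (fix_cont hc b)) (fun x y => ?_) w
    simp
  l_cont := CT.continuous_plift _ _
  r_cont := CT.continuous_plift _ _

section Outer

variable (P P' : BMod B D) (Q Q' : BMod D' C)

/-- Elementary tensors in `outer P Q`. -/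
noncomputable def omk : P →ₗ[ℂ] Q →ₗ[ℂ] outer P Q := CT.mk

theorem omk_cont : Continuous fun z : P × Q => omk P Q z.1 z.2 := CT.continuous_mk

variable {P P' Q Q'}

theorem outer_l (b : B) (x : P) (y : Q) :
    (outer P Q).l b (omk P Q x y) = omk P Q (P.l b x) y :=
  CT.plift_mk (tri1 P.l CT.mk) (tri1_cont P.l_cont CT.continuous_mk) b x y

theorem outer_r (c : C) (x : P) (y : Q) :
    (outer P Q).r c (omk P Q x y) = omk P Q x (Q.r c y) :=
  CT.plift_mk (tri2 Q.r CT.mk) (tri2_cont Q.r_cont CT.continuous_mk) c x y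

section

variable {G : Type*} [AddCommGroup G] [Module ℂ G] [UniformSpace G]

theorem outer_ext [T2Space G] {f g : outer P Q →ₗ[ℂ] G} (hf : Continuous f) (hg : Continuous g)
    (h : ∀ x y, f (omk P Q x y) = g (omk P Q x y)) (w : outer P Q) : f w = g w :=
  CT.ext_lin hf hg h w

theorem outer_extL [T2Space G] {f g : outer P Q →L[ℂ] G}
    (h : ∀ x y, f (omk P Q x y) = g (omk P Q x y)) (w : outer P Q) : f w = g w :=
  CT.ext_apply h w

variable [FrechetSpace G]

/-- Lifts out of the exterior tensor product. -/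
noncomputable def olift (β : P →ₗ[ℂ] Q →ₗ[ℂ] G) (hβ : Continuous fun z : P × Q => β z.1 z.2) :
    outer P Q →L[ℂ] G := CT.lift β hβ

@[simp] theorem olift_mk (β : P →ₗ[ℂ] Q →ₗ[ℂ] G) (hβ : Continuous fun z : P × Q => β z.1 z.2)
    (x : P) (y : Q) : olift β hβ (omk P Q x y) = β x y := CT.lift_mk β hβ x y

variable {H : Type*} [AddCommGroup H] [Module ℂ H] [TopologicalSpace H]

/-- Lifts of trilinear maps out of the exterior tensor product. -/
noncomputable def oplift (t : H →ₗ[ℂ] P →ₗ[ℂ] Q →ₗ[ℂ] G)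
    (ht : Continuous fun z : H × P × Q => t z.1 z.2.1 z.2.2) : H →ₗ[ℂ] outer P Q →ₗ[ℂ] G :=
  CT.plift t ht

@[simp] theorem oplift_mk (t : H →ₗ[ℂ] P →ₗ[ℂ] Q →ₗ[ℂ] G)
    (ht : Continuous fun z : H × P × Q => t z.1 z.2.1 z.2.2) (h : H) (x : P) (y : Q) :
    oplift t ht h (omk P Q x y) = t h x y := CT.plift_mk t ht h x y

theorem oplift_cont (t : H →ₗ[ℂ] P →ₗ[ℂ] Q →ₗ[ℂ] G)
    (ht : Continuous fun z : H × P × Q => t z.1 z.2.1 z.2.2) :
    Continuous fun z : H × outer P Q => oplift t ht z.1 z.2 := CT.continuous_plift t ht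

end

/-- The map `f ⊗ 1` on exterior tensor products, for a continuous linear map `f`. -/
noncomputable def omapL (f : P →L[ℂ] P') (Q : BMod D' C) : outer P Q →L[ℂ] outer P' Q :=
  olift ((omk P' Q) ∘ₗ f.toLinearMap) (comp_cont (omk_cont P' Q) f.continuous)

@[simp] theorem omapL_mk (f : P →L[ℂ] P') (x : P) (y : Q) :
    omapL f Q (omk P Q x y) = omk P' Q (f x) y := by
  rw [omapL, olift_mk]; rfl

/-- The map `1 ⊗ g` on exterior tensor products, for a continuous linear map `g`. -/
noncomputable def omapR (P : BMod B D) (g : Q →L[ℂ] Q') : outer P Q →L[ℂ] outer P Q' :=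
  olift ((omk P Q').compl₂ g.toLinearMap) (compl₂_cont (omk_cont P Q') g.continuous)

@[simp] theorem omapR_mk (g : Q →L[ℂ] Q') (x : P) (y : Q) :
    omapR P g (omk P Q x y) = omk P Q' x (g y) := by
  rw [omapR, olift_mk]; rfl

/-- Continuity of the left action for fixed algebra element. -/
theorem BMod.l_cont' (M : BMod B C) (b : B) : Continuous (M.l b) := fix_cont M.l_cont b
theorem BMod.r_cont' (M : BMod B C) (c : C) : Continuous (M.r c) := fix_cont M.r_cont c

/-- `f ⊗ 1` as a morphism. -/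
noncomputable def omap (f : BMod.Hom P P') (Q : BMod D' C) : BMod.Hom (outer P Q) (outer P' Q) where
  f := omapL f.f Q
  map_l b w := by
    refine outer_ext (f := (omapL f.f Q).toLinearMap ∘ₗ (outer P Q).l b)
      (g := (outer P' Q).l b ∘ₗ (omapL f.f Q).toLinearMap)
      ((omapL f.f Q).continuous.comp (BMod.l_cont' _ b))
      ((BMod.l_cont' _ b).comp (omapL f.f Q).continuous) (fun x y => ?_) w
    simp [outer_l, f.map_l]
  map_r b w := by
    refine outer_ext (f := (omapL f.f Q).toLinearMap ∘ₗ (outer P Q).r b)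
      (g := (outer P' Q).r b ∘ₗ (omapL f.f Q).toLinearMap)
      ((omapL f.f Q).continuous.comp (BMod.r_cont' _ b))
      ((BMod.r_cont' _ b).comp (omapL f.f Q).continuous) (fun x y => ?_) w
    simp [outer_r]

/-- `1 ⊗ g` as a morphism. -/
noncomputable def omap' (P : BMod B D) (g : BMod.Hom Q Q') : BMod.Hom (outer P Q) (outer P Q') where
  f := omapR P g.f
  map_l b w := by
    refine outer_ext (f := (omapR P g.f).toLinearMap ∘ₗ (outer P Q).l b)
      (g := (outer P Q').l b ∘ₗ (omapR P g.f).toLinearMap)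
      ((omapR P g.f).continuous.comp (BMod.l_cont' _ b))
      ((BMod.l_cont' _ b).comp (omapR P g.f).continuous) (fun x y => ?_) w
    simp [outer_l]
  map_r b w := by
    refine outer_ext (f := (omapR P g.f).toLinearMap ∘ₗ (outer P Q).r b)
      (g := (outer P Q').r b ∘ₗ (omapR P g.f).toLinearMap)
      ((omapR P g.f).continuous.comp (BMod.r_cont' _ b))
      ((BMod.r_cont' _ b).comp (omapR P g.f).continuous) (fun x y => ?_) w
    simp [outer_r, g.map_r]

/-- `- ⊗̂ Q` maps split short exact sequences to split short exact sequences. -/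
noncomputable def SES.outer {L M N : BMod B D} {i : BMod.Hom L M} {p : BMod.Hom M N} (S : SES i p)
    (Q : BMod D' C) : SES (omap i Q) (omap p Q) where
  s := omapL S.s Q
  ρ := omapL S.ρ Q
  ρ_i w := by
    refine outer_extL (f := (omapL S.ρ Q).comp (omapL i.f Q)) (g := ContinuousLinearMap.id ℂ _)
      (fun x y => ?_) w
    simp [S.ρ_i]
  p_s w := by
    refine outer_extL (f := (omapL p.f Q).comp (omapL S.s Q)) (g := ContinuousLinearMap.id ℂ _)
      (fun x y => ?_) w
    simp [S.p_s]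
  add w := by
    refine outer_extL (f := (omapL i.f Q).comp (omapL S.ρ Q) + (omapL S.s Q).comp (omapL p.f Q))
      (g := ContinuousLinearMap.id ℂ _) (fun x y => ?_) w
    simp only [_root_.add_apply, ContinuousLinearMap.comp_apply, omapL_mk,
      ContinuousLinearMap.id_apply]
    rw [← LinearMap.add_apply, ← map_add, S.add]

/-- `P ⊗̂ -` maps split short exact sequences to split short exact sequences. -/
noncomputable def SES.outer' {L M N : BMod D' C} {i : BMod.Hom L M} {p : BMod.Hom M N}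
    (S : SES i p) (P : BMod B D) : SES (omap' P i) (omap' P p) where
  s := omapR P S.s
  ρ := omapR P S.ρ
  ρ_i w := by
    refine outer_extL (f := (omapR P S.ρ).comp (omapR P i.f)) (g := ContinuousLinearMap.id ℂ _)
      (fun x y => ?_) w
    simp [S.ρ_i]
  p_s w := by
    refine outer_extL (f := (omapR P p.f).comp (omapR P S.s)) (g := ContinuousLinearMap.id ℂ _)
      (fun x y => ?_) w
    simp [S.p_s]
  add w := by
    refine outer_extL (f := (omapR P i.f).comp (omapR P S.ρ) + (omapR P S.s).comp (omapR P p.f))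
      (g := ContinuousLinearMap.id ℂ _) (fun x y => ?_) w
    simp only [_root_.add_apply, ContinuousLinearMap.comp_apply, omapR_mk,
      ContinuousLinearMap.id_apply]
    rw [← map_add, S.add]

end Outer

end Pool.Agent.FrHom
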