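import Pool.Agent.Lib.MP_afeff1_an.Comp

/-!
# The canonical free cover of a bimodule and its kernel
-/

set_option autoImplicit false
set_option linter.unusedSectionVars false
set_option linter.unusedVariables false

open scoped TensorProduct Topology Uniformity
open Filter UniformSpace

namespace Pool.Agent.FrHom

universe u

variable {B C : Type u} [NonUnitalRing B] [Module ℂ B] [UniformSpace B] [FrechetAlgebra B]
  [NonUnitalRing C] [Module ℂ C] [UniformSpace C] [FrechetAlgebra C]

section Unitization

variable (B) in
/-- The unit of the unitization. -/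
def uone : unitization B := ((1 : ℂ), (0 : B))

variable (B) in
/-- The inclusion of `B` in its unitization. -/
def uinr : B →ₗ[ℂ] unitization B := LinearMap.inr ℂ ℂ B

variable (B) in
/-- The scalar part. -/
def ufst : unitization B →ₗ[ℂ] ℂ := LinearMap.fst ℂ ℂ B

variable (B) in
/-- The `B` part. -/
def usnd : unitization B →ₗ[ℂ] B := LinearMap.snd ℂ ℂ B

theorem ufst_cont : Continuous (ufst B) := continuous_fst
theorem usnd_cont : Continuous (usnd B) := continuous_snd
theorem uinr_cont : Continuous (uinr B) := (continuous_const.prodMk continuous_id : Continuous fun b : B => ((0 : ℂ), b))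

theorem u_eq (u : unitization B) : u = ufst B u • uone B + uinr B (usnd B u) := by
  have h : ∀ v : ℂ × B, v = v.1 • ((1 : ℂ), (0 : B)) + ((0 : ℂ), v.2) := by
    intro v; ext <;> simp
  exact h u

@[simp] theorem ufst_uone : ufst B (uone B) = 1 := rfl
@[simp] theorem usnd_uone : usnd B (uone B) = 0 := rfl
@[simp] theorem ufst_uinr (b : B) : ufst B (uinr B b) = 0 := rfl
@[simp] theorem usnd_uinr (b : B) : usnd B (uinr B b) = b := rfl

theorem u_l (b : B) (u : unitization B) :
    (unitization B).l b u = uinr B (ufst B u • b + b * usnd B u) := rfl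

theorem u_r (b : B) (u : unitization B) :
    (unitization B).r b u = uinr B (ufst B u • b + usnd B u * b) := rfl

variable {E : Type*} [AddCommGroup E] [Module ℂ E]

/-- The extension of an action of `B` to the unitization. -/
noncomputable def uact (a : B →ₗ[ℂ] E →ₗ[ℂ] E) : unitization B →ₗ[ℂ] E →ₗ[ℂ] E :=
  (LinearMap.lsmul ℂ E) ∘ₗ (ufst B) + a ∘ₗ (usnd B)

theorem uact_apply (a : B →ₗ[ℂ] E →ₗ[ℂ] E) (u : unitization B) (x : E) :
    uact a u x = ufst B u • x + a (usnd B u) x := rfl

@[simp] theorem uact_uone (a : B →ₗ[ℂ] E →ₗ[ℂ] E) (x : E) : uact a (uone B) x = x := by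
  rw [uact_apply, ufst_uone, usnd_uone, map_zero, LinearMap.zero_apply, one_smul, add_zero]

@[simp] theorem uact_uinr (a : B →ₗ[ℂ] E →ₗ[ℂ] E) (b : B) (x : E) :
    uact a (uinr B b) x = a b x := by
  rw [uact_apply, ufst_uinr, usnd_uinr, zero_smul, zero_add]

theorem uact_cont [TopologicalSpace E] [ContinuousSMul ℂ E] [ContinuousAdd E]
    {a : B →ₗ[ℂ] E →ₗ[ℂ] E} (ha : Continuous fun z : B × E => a z.1 z.2) :
    Continuous fun z : unitization B × E => uact a z.1 z.2 := by
  simp only [uact_apply]
  refine Continuous.add ?_ ?_
  · exact (ufst_cont.comp continuous_fst).smul continuous_snd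
  · exact ha.comp ((usnd_cont.comp continuous_fst).prodMk continuous_snd)

/-- Compatibility for a left action. -/
theorem uact_l (M : BMod B C) (b : B) (u : unitization B) (x : M) :
    uact M.l ((unitization B).l b u) x = M.l b (uact M.l u x) := by
  rw [u_l, uact_uinr, uact_apply, map_add, LinearMap.add_apply, map_smul, map_add, map_smul,
    LinearMap.smul_apply, M.l_mul]

theorem uact_l' (M : BMod B C) (b : B) (u : unitization B) (x : M) :
    uact M.l ((unitization B).r b u) x = uact M.l u (M.l b x) := by
  rw [u_r, uact_uinr, uact_apply, map_add, LinearMap.add_apply, map_smul,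
    LinearMap.smul_apply, M.l_mul]

/-- Compatibility for a right action. -/
theorem uact_r (M : BMod C B) (b : B) (u : unitization B) (x : M) :
    uact M.r ((unitization B).r b u) x = M.r b (uact M.r u x) := by
  rw [u_r, uact_uinr, uact_apply, map_add, LinearMap.add_apply, map_smul, map_add, map_smul,
    LinearMap.smul_apply, M.r_mul]

theorem uact_r' (M : BMod C B) (b : B) (u : unitization B) (x : M) :
    uact M.r ((unitization B).l b u) x = uact M.r u (M.r b x) := by
  rw [u_l, uact_uinr, uact_apply, map_add, LinearMap.add_apply, map_smul,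
    LinearMap.smul_apply, M.r_mul]

end Unitization

section Cover

variable (N N' : BMod C B)

/-- The free cover `N ⊗̂ B₊` of `N`. -/
noncomputable abbrev cov : BMod C B := outer N (unitization B)

/-- The action map `N ⊗̂ B₊ → N`. -/
noncomputable def muL : cov N →L[ℂ] N :=
  olift (P := N) (Q := unitization B) (uact N.r).flip (flip_cont (uact_cont N.r_cont))

theorem muL_mk (n : N) (u : unitization B) : muL N (omk N (unitization B) n u) = uact N.r u n := by
  rw [muL, olift_mk, LinearMap.flip_apply]

/-- The action map `N ⊗̂ B₊ → N` as a morphism of bimodules. -/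
noncomputable def mu : BMod.Hom (cov N) N where
  f := muL N
  map_l c w := by
    refine outer_ext (P := N) (Q := unitization B) (f := (muL N).toLinearMap ∘ₗ (cov N).l c)
      (g := N.l c ∘ₗ (muL N).toLinearMap)
      ((muL N).continuous.comp (BMod.l_cont' _ c))
      ((BMod.l_cont' _ c).comp (muL N).continuous) (fun n u => ?_) w
    have h1 : (cov N).l c (omk N (unitization B) n u) = omk N (unitization B) (N.l c n) u :=
      outer_l c n u
    rw [LinearMap.comp_apply, LinearMap.comp_apply, ContinuousLinearMap.coe_coe, h1, muL_mk,
      muL_mk, uact_apply, uact_apply, map_add, map_smul, N.l_r]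
  map_r b w := by
    refine outer_ext (P := N) (Q := unitization B) (f := (muL N).toLinearMap ∘ₗ (cov N).r b)
      (g := N.r b ∘ₗ (muL N).toLinearMap)
      ((muL N).continuous.comp (BMod.r_cont' _ b))
      ((BMod.r_cont' _ b).comp (muL N).continuous) (fun n u => ?_) w
    have h1 : (cov N).r b (omk N (unitization B) n u) =
        omk N (unitization B) n ((unitization B).r b u) := outer_r b n u
    rw [LinearMap.comp_apply, LinearMap.comp_apply, ContinuousLinearMap.coe_coe, h1, muL_mk,
      muL_mk, uact_r]

/-- The section `n ↦ n ⊗ 1` of the action map. -/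
noncomputable def sg : N →L[ℂ] cov N where
  toLinearMap := (omk N (unitization B)).flip (uone B)
  cont := fix_cont (flip_cont (omk_cont N (unitization B))) (uone B)

theorem sg_apply (n : N) : sg N n = omk N (unitization B) n (uone B) := rfl

theorem mu_sg (n : N) : (mu N).f (sg N n) = n := by
  change muL N _ = n
  rw [sg_apply, muL_mk, uact_uone]

theorem sg_l (c : C) (n : N) : sg N (N.l c n) = (cov N).l c (sg N n) :=
  (outer_l (P := N) (Q := unitization B) c n (uone B)).symm

/-- The kernel of the action map. -/
noncomputable abbrev Om : BMod C B := BMod.ker (mu N)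

/-- The inclusion of the kernel in the cover. -/
noncomputable def inc : BMod.Hom (Om N) (cov N) := BMod.kerIncl (mu N)

theorem inc_injective : Function.Injective (inc N).f := BMod.kerIncl_injective _

theorem mu_inc (w : Om N) : (mu N).f ((inc N).f w) = 0 := BMod.f_kerIncl _ w

/-- The retraction of the cover on the kernel. -/
noncomputable def rho : cov N →L[ℂ] Om N :=
  BMod.toKer (mu N) (ContinuousLinearMap.id ℂ _ - (sg N).comp (mu N).f) (fun x => by
    rw [_root_.sub_apply, ContinuousLinearMap.comp_apply, map_sub, mu_sg]
    exact sub_self _)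

theorem inc_rho (t : cov N) : (inc N).f (rho N t) = t - sg N ((mu N).f t) := rfl

theorem rho_inc (w : Om N) : rho N ((inc N).f w) = w := by
  apply inc_injective
  rw [inc_rho, mu_inc, map_zero, sub_zero]

theorem rho_l (c : C) (t : cov N) : rho N ((cov N).l c t) = (Om N).l c (rho N t) := by
  apply inc_injective
  rw [inc_rho, (inc N).map_l, inc_rho, (mu N).map_l, sg_l, map_sub]

/-- The canonical split short exact sequence `0 → Ω N → N ⊗̂ B₊ → N → 0`. -/
noncomputable def covSES : SES (inc N) (mu N) where
  s := sg N
  ρ := rho N
  ρ_i := rho_inc N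
  p_s := mu_sg N
  add x := by rw [inc_rho]; abel

variable {N N'}

/-- The map induced on covers. -/
noncomputable def covMap (f : BMod.Hom N N') : BMod.Hom (cov N) (cov N') := omap f (unitization B)

theorem covMap_mk (f : BMod.Hom N N') (n : N) (u : unitization B) :
    (covMap f).f (omk N (unitization B) n u) = omk N' (unitization B) (f.f n) u :=
  omapL_mk f.f n u

theorem mu_covMap (f : BMod.Hom N N') (t : cov N) :
    (mu N').f ((covMap f).f t) = f.f ((mu N).f t) := by
  refine outer_extL (P := N) (Q := unitization B) (f := (mu N').f.comp (covMap f).f)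
    (g := f.f.comp (mu N).f) (fun n u => ?_) t
  rw [ContinuousLinearMap.comp_apply, covMap_mk, ContinuousLinearMap.comp_apply]
  change muL N' _ = f.f (muL N _)
  rw [muL_mk, muL_mk, uact_apply, uact_apply, map_add, map_smul, f.map_r]

theorem sg_map (f : BMod.Hom N N') (n : N) : (covMap f).f (sg N n) = sg N' (f.f n) := by
  rw [sg_apply, covMap_mk, sg_apply]

/-- The map induced on the kernels. -/
noncomputable def omMap (f : BMod.Hom N N') : BMod.Hom (Om N) (Om N') :=
  BMod.homToKer (mu N') ((covMap f).comp (inc N)) (fun x => by
    have h := mu_covMap f ((inc N).f x)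
    rw [mu_inc, map_zero] at h
    exact h)

theorem inc_omMap (f : BMod.Hom N N') (w : Om N) :
    (inc N').f ((omMap f).f w) = (covMap f).f ((inc N).f w) := rfl

/-- The kernel functor preserves split short exact sequences. -/
noncomputable def SES.om {L M N : BMod C B} {i : BMod.Hom L M} {p : BMod.Hom M N} (S : SES i p) :
    SES (omMap i) (omMap p) where
  s := (rho M).comp ((S.outer (unitization B)).s.comp (inc N).f)
  ρ := (rho L).comp ((S.outer (unitization B)).ρ.comp (inc M).f)
  ρ_i w := by
    rw [ContinuousLinearMap.comp_apply, ContinuousLinearMap.comp_apply, inc_omMap]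
    have h := (S.outer (unitization B)).ρ_i ((inc L).f w)
    exact (congrArg (rho L) h).trans (rho_inc L w)
  p_s w := by
    apply inc_injective
    rw [inc_omMap, ContinuousLinearMap.comp_apply, ContinuousLinearMap.comp_apply, inc_rho,
      map_sub, sg_map, ← mu_covMap]
    have h : (covMap p).f ((S.outer (unitization B)).s ((inc N).f w)) = (inc N).f w :=
      (S.outer (unitization B)).p_s ((inc N).f w)
    rw [h, mu_inc, map_zero, sub_zero]
  add w := by
    apply inc_injective
    rw [map_add, inc_omMap, ContinuousLinearMap.comp_apply, ContinuousLinearMap.comp_apply,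
      ContinuousLinearMap.comp_apply, ContinuousLinearMap.comp_apply, inc_rho, inc_rho, inc_omMap,
      map_sub, sg_map, ← mu_covMap]
    have h : (covMap i).f ((S.outer (unitization B)).ρ ((inc M).f w)) +
        (S.outer (unitization B)).s ((covMap p).f ((inc M).f w)) = (inc M).f w :=
      (S.outer (unitization B)).add ((inc M).f w)
    have h2 := congrArg (fun t => sg M ((mu M).f t)) h
    simp only [map_add] at h2
    rw [mu_inc, map_zero] at h2
    rw [sub_add_sub_comm, h, h2, sub_zero]

end Cover

end Pool.Agent.FrHom
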