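import Mathlib

/-!
# Definitions: Fréchet algebras, Fréchet bimodules, flatness, weak bidimension

All the definitions that the statement of the main theorem uses.
-/

set_option autoImplicit false

open scoped TensorProduct
open UniformSpace

namespace Pool.Agent.FrHom

universe u v w

/-- A (complex) **Fréchet space**: a complete metrizable locally convex topological vector space.
(`PolynormableSpace ℂ E` says that the topology of `E` is generated by seminorms.) -/
class FrechetSpace (E : Type*) [AddCommGroup E] [Module ℂ E] [UniformSpace E] : Prop extends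
    IsUniformAddGroup E, CompleteSpace E, TopologicalSpace.MetrizableSpace E,
    PolynormableSpace ℂ E

/-- A **Fréchet algebra**: an associative, not necessarily unital complex algebra with a complete
metrizable locally convex topology for which multiplication is (jointly) continuous. -/
class FrechetAlgebra (A : Type*) [NonUnitalRing A] [Module ℂ A] [UniformSpace A] : Prop extends
    FrechetSpace A, IsScalarTower ℂ A A, SMulCommClass ℂ A A, ContinuousMul A

section Tensor

variable (E : Type u) (F : Type v) [AddCommGroup E] [Module ℂ E] [UniformSpace E]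
  [AddCommGroup F] [Module ℂ F] [UniformSpace F]

/-- The seminorms `r` on `E ⊗ F` for which there are continuous seminorms `p` on `E` and `q` on `F`
with `r (x ⊗ y) ≤ p x * q y`. -/
def CrossSeminorm (r : Seminorm ℂ (E ⊗[ℂ] F)) : Prop :=
  ∃ p : Seminorm ℂ E, ∃ q : Seminorm ℂ F, Continuous p ∧ Continuous q ∧
    ∀ x y, r (x ⊗ₜ[ℂ] y) ≤ p x * q y

/-- The family of all cross seminorms. -/
def crossSeminorms : SeminormFamily ℂ (E ⊗[ℂ] F)
    {r : Seminorm ℂ (E ⊗[ℂ] F) // CrossSeminorm E F r} :=
  fun r => r.1

/-- The projective topology on `E ⊗ F`, with its uniform structure: the locally convex topology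
generated by the cross seminorms. -/
@[reducible]
noncomputable def projUS : UniformSpace (E ⊗[ℂ] F) := (crossSeminorms E F).addGroupFilterBasis.uniformSpace

/-- The completed projective tensor product `E ⊗̂ F`. -/
abbrev PTen : Type (max u v) := @Completion (E ⊗[ℂ] F) (projUS E F)

variable {E} {E' : Type w} [AddCommGroup E'] [Module ℂ E'] [UniformSpace E']

/-- The map `f ⊗̂ 1 : E ⊗̂ F → E' ⊗̂ F` (the extension by continuity of `f ⊗ 1`). -/
noncomputable def PTen.map (f : E → E') (hf : IsLinearMap ℂ f) : PTen E F → PTen E' F :=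
  @Completion.map (E ⊗[ℂ] F) (projUS E F) (E' ⊗[ℂ] F) (projUS E' F) ((hf.mk' f).rTensor F)

end Tensor

section Bimodules

variable (A : Type u) [NonUnitalRing A] [Module ℂ A] [UniformSpace A]

/-- `l` and `r` make the Fréchet space `M` a **Fréchet `A`-bimodule**; `l a x` is `a · x` and
`r a x` is `x · a`. -/
structure IsBimodule (M : Type v) [AddCommGroup M] [Module ℂ M] [UniformSpace M]
    (l r : A → M → M) : Prop where
  frechet : FrechetSpace M
  l_linear : ∀ a, IsLinearMap ℂ (l a)
  l_linear' : ∀ x, IsLinearMap ℂ (fun a => l a x)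
  r_linear : ∀ a, IsLinearMap ℂ (r a)
  r_linear' : ∀ x, IsLinearMap ℂ (fun a => r a x)
  l_mul : ∀ a b x, l (a * b) x = l a (l b x)
  r_mul : ∀ a b x, r (a * b) x = r b (r a x)
  l_r : ∀ a b x, l a (r b x) = r b (l a x)
  l_continuous : Continuous (fun z : A × M => l z.1 z.2)
  r_continuous : Continuous (fun z : A × M => r z.1 z.2)

/-- For `A`-bimodules `M` and `F`, the set of all elements `m·a ⊗ x - m ⊗ a·x` and
`a·m ⊗ x - m ⊗ x·a` of the algebraic tensor product `M ⊗ F`. -/
def balancing {A : Type u} {M : Type v} [AddCommGroup M] [Module ℂ M] {F : Type w}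
    [AddCommGroup F] [Module ℂ F] (lM rM : A → M → M) (lF rF : A → F → F) : Set (M ⊗[ℂ] F) :=
  {z | ∃ a m x, z = rM a m ⊗ₜ[ℂ] x - m ⊗ₜ[ℂ] lF a x ∨ z = lM a m ⊗ₜ[ℂ] x - m ⊗ₜ[ℂ] rF a x}

/-- The closed linear span in `M ⊗̂ F` of the elements of `balancing`, so that
`M ⊗̂_{A-A} F` is `M ⊗̂ F` modulo this subspace. -/
def balancingClosure {A : Type u} {M : Type v} [AddCommGroup M] [Module ℂ M] [UniformSpace M]
    {F : Type w} [AddCommGroup F] [Module ℂ F] [UniformSpace F]
    (lM rM : A → M → M) (lF rF : A → F → F) : Set (PTen M F) :=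
  closure (@Completion.coe' (M ⊗[ℂ] F) (projUS M F) ''
    (Submodule.span ℂ (balancing lM rM lF rF) : Set (M ⊗[ℂ] F)))

/-- A **Fréchet `A`-bimodule**. -/
structure Bimodule where
  /-- the underlying space -/
  carrier : Type u
  [group : AddCommGroup carrier]
  [module : Module ℂ carrier]
  [uniform : UniformSpace carrier]
  /-- the left action `a · x` -/
  l : A → carrier → carrier
  /-- the right action `x · a` -/
  r : A → carrier → carrier
  isBimodule : IsBimodule A carrier l r

attribute [instance] Bimodule.group Bimodule.module Bimodule.uniform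

variable {A}

/-- Continuous linear maps between the underlying spaces of two bimodules. -/
structure IsCLin (M N : Bimodule A) (f : M.carrier → N.carrier) : Prop where
  linear : IsLinearMap ℂ f
  continuous : Continuous f

/-- Morphisms of Fréchet bimodules: continuous linear maps that commute with both actions. -/
structure IsMor (M N : Bimodule A) (f : M.carrier → N.carrier) : Prop where
  clin : IsCLin M N f
  map_l : ∀ a x, f (M.l a x) = N.l a (f x)
  map_r : ∀ a x, f (M.r a x) = N.r a (f x)

/-- `w` is zero in `M ⊗̂_{A-A} F`. -/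
def IsZeroIn (M F : Bimodule A) (w : PTen M.carrier F.carrier) : Prop :=
  w ∈ balancingClosure M.l M.r F.l F.r

/-- Exactness in the middle of `L ⊗̂_{A-A} F → M ⊗̂_{A-A} F → N ⊗̂_{A-A} F`, the maps being induced
by `g : L → M` and `f : M → N`: an element `w` of `M ⊗̂ F` is mapped to zero in `N ⊗̂_{A-A} F` if and
only if it is equal in `M ⊗̂_{A-A} F` to the image of some `v` in `L ⊗̂ F`. -/
def TensorExact (L M N F : Bimodule A) (g : L.carrier → M.carrier) (hg : IsMor L M g)
    (f : M.carrier → N.carrier) (hf : IsMor M N f) : Prop :=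
  ∀ w : PTen M.carrier F.carrier, IsZeroIn N F (PTen.map F.carrier f hf.clin.linear w) ↔
    ∃ v : PTen L.carrier F.carrier, IsZeroIn M F (w - PTen.map F.carrier g hg.clin.linear v)

/-- A complex `⋯ → X (i+1) → X i → ⋯` of Fréchet bimodules, indexed by `ℤ`, is **admissible**: it
has a contracting homotopy made of continuous linear maps. -/
structure IsAdmissible (X : ℤ → Bimodule A) (d : ∀ i, (X (i + 1)).carrier → (X i).carrier) :
    Prop where
  mor : ∀ i, IsMor (X (i + 1)) (X i) (d i)
  d_d : ∀ i x, d i (d (i + 1) x) = 0
  htpy : ∃ s : ∀ i, (X i).carrier → (X (i + 1)).carrier, (∀ i, IsCLin (X i) (X (i + 1)) (s i)) ∧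
    ∀ i x, d (i + 1) (s (i + 1) x) + s i (d i x) = x

/-- A Fréchet bimodule `F` is **flat** if the functor `(-) ⊗̂_{A-A} F` takes admissible complexes of
bimodules to exact sequences. -/
def IsFlat (F : Bimodule A) : Prop :=
  ∀ (X : ℤ → Bimodule A) (d : ∀ i, (X (i + 1)).carrier → (X i).carrier) (h : IsAdmissible X d)
    (i : ℤ), TensorExact (X (i + 1 + 1)) (X (i + 1)) (X i) F (d (i + 1)) (h.mor (i + 1)) (d i)
      (h.mor i)

/-- `(P, d, ε)` is a **flat resolution** of `X`: a complex of flat bimodules with a morphism
`ε : P 0 → X` such that the augmented complex `⋯ → P 1 → P 0 → X → 0` is a complex with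
a contracting homotopy made of continuous linear maps. -/
structure IsFlatResolution (X : Bimodule A) (P : ℕ → Bimodule A)
    (d : ∀ i, (P (i + 1)).carrier → (P i).carrier) (ε : (P 0).carrier → X.carrier) : Prop where
  flat : ∀ i, IsFlat (P i)
  mor : ∀ i, IsMor (P (i + 1)) (P i) (d i)
  mor_ε : IsMor (P 0) X ε
  d_d : ∀ i x, d i (d (i + 1) x) = 0
  ε_d : ∀ x, ε (d 0 x) = 0
  htpy : ∃ (s : ∀ i, (P i).carrier → (P (i + 1)).carrier) (σ : X.carrier → (P 0).carrier),
    (∀ i, IsCLin (P i) (P (i + 1)) (s i)) ∧ IsCLin X (P 0) σ ∧ (∀ x, ε (σ x) = x) ∧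
    (∀ x, d 0 (s 0 x) + σ (ε x) = x) ∧ ∀ i x, d (i + 1) (s (i + 1) x) + s i (d i x) = x

/-- `X` has a flat resolution `P` of length at most `n`, that is with `P i = 0` for `i > n`. -/
def FlatDimLE (X : Bimodule A) (n : ℕ) : Prop :=
  ∃ P d ε, IsFlatResolution X P d ε ∧ ∀ i, n < i → Subsingleton (P i).carrier

/-- The **weak homological dimension** of `X`: the least length of a flat resolution of `X`
(and `⊤` if there is no flat resolution of finite length). -/
noncomputable def weakDim (X : Bimodule A) : ℕ∞ :=
  sInf {m : ℕ∞ | ∃ n : ℕ, m = n ∧ FlatDimLE X n}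

end Bimodules

section Algebra

variable (A : Type u) [NonUnitalRing A] [Module ℂ A] [UniformSpace A] [FrechetAlgebra A]

theorem frechetSpace_complex : FrechetSpace ℂ :=
  { toIsUniformAddGroup := inferInstance
    toCompleteSpace := inferInstance
    toMetrizableSpace := inferInstance
    toPolynormableSpace := inferInstance }

theorem frechetSpace_prod (E : Type u) (F : Type v) [AddCommGroup E] [Module ℂ E] [UniformSpace E]
    [AddCommGroup F] [Module ℂ F] [UniformSpace F] [FrechetSpace E] [FrechetSpace F] :
    FrechetSpace (E × F) :=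
  { toIsUniformAddGroup := inferInstance
    toCompleteSpace := inferInstance
    toMetrizableSpace := inferInstance
    toPolynormableSpace := inferInstance }

theorem isBimodule_self : IsBimodule A A (fun a x => a * x) (fun a x => x * a) where
  frechet := inferInstance
  l_linear a := ⟨fun x y => mul_add a x y, fun z x => mul_smul_comm z a x⟩
  l_linear' x := ⟨fun a b => add_mul a b x, fun z a => smul_mul_assoc z a x⟩
  r_linear a := ⟨fun x y => add_mul x y a, fun z x => smul_mul_assoc z x a⟩
  r_linear' x := ⟨fun a b => mul_add x a b, fun z a => mul_smul_comm z x a⟩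
  l_mul a b x := mul_assoc a b x
  r_mul a b x := (mul_assoc x a b).symm
  l_r a b x := (mul_assoc a x b).symm
  l_continuous := by fun_prop
  r_continuous := by fun_prop

/-- The algebra `A` as a bimodule over itself. -/
noncomputable def selfBimodule : Bimodule A where
  carrier := A
  l a x := a * x
  r a x := x * a
  isBimodule := isBimodule_self A

theorem isBimodule_unitization : IsBimodule A (ℂ × A) (fun a x => (0, x.1 • a + a * x.2))
    (fun a x => (0, x.1 • a + x.2 * a)) where
  frechet := by
    have := frechetSpace_complex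
    exact frechetSpace_prod ℂ A
  l_linear a := by
    refine ⟨fun x y => ?_, fun z x => ?_⟩
    · ext
      · simp
      · simp only [Prod.fst_add, Prod.snd_add, add_smul, mul_add]; abel
    · ext
      · simp
      · simp only [Prod.smul_fst, Prod.smul_snd, smul_eq_mul, mul_smul, smul_add, mul_smul_comm]
  l_linear' x := by
    refine ⟨fun a b => ?_, fun z a => ?_⟩
    · ext
      · simp
      · simp only [smul_add, add_mul, Prod.snd_add]; abel
    · ext
      · simp
      · simp only [Prod.smul_snd, smul_add, smul_comm x.1 z a, smul_mul_assoc]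
  r_linear a := by
    refine ⟨fun x y => ?_, fun z x => ?_⟩
    · ext
      · simp
      · simp only [Prod.fst_add, Prod.snd_add, add_smul, add_mul]; abel
    · ext
      · simp
      · simp only [Prod.smul_fst, Prod.smul_snd, smul_eq_mul, mul_smul, smul_add, smul_mul_assoc]
  r_linear' x := by
    refine ⟨fun a b => ?_, fun z a => ?_⟩
    · ext
      · simp
      · simp only [smul_add, mul_add, Prod.snd_add]; abel
    · ext
      · simp
      · simp only [Prod.smul_snd, smul_add, smul_comm x.1 z a, mul_smul_comm]
  l_mul a b x := by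
    ext
    · simp
    · simp only [mul_add, mul_assoc, zero_smul, zero_add, mul_smul_comm]
  r_mul a b x := by
    ext
    · simp
    · simp only [add_mul, mul_assoc, zero_smul, zero_add, smul_mul_assoc]
  l_r b c x := by
    ext
    · simp
    · simp only [add_mul, mul_add, mul_assoc, zero_smul, zero_add, smul_mul_assoc, mul_smul_comm]
  l_continuous := by
    have : ContinuousSMul ℂ A := (PolynormableSpace.withSeminorms ℂ A).continuousSMul
    fun_prop
  r_continuous := by
    have : ContinuousSMul ℂ A := (PolynormableSpace.withSeminorms ℂ A).continuousSMul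
    fun_prop

/-- The unitization `A₊ = ℂ ⊕ A` as an `A`-bimodule:
`a · (z, b) = (0, z • a + a * b)` and `(z, b) · a = (0, z • a + b * a)`. -/
noncomputable def unitizationBimodule : Bimodule A where
  carrier := ℂ × A
  l a x := (0, x.1 • a + a * x.2)
  r a x := (0, x.1 • a + x.2 * a)
  isBimodule := isBimodule_unitization A

/-- `A` is **biflat** if it is flat as a bimodule over itself. -/
def IsBiflat : Prop := IsFlat (selfBimodule A)

/-- The **weak bidimension** of `A`: the weak homological dimension of the bimodule `A₊`. -/
noncomputable def weakBidim : ℕ∞ := weakDim (unitizationBimodule A)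

end Algebra

end Pool.Agent.FrHom
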