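import Pool.Agent.Lib.MP_afeff1_an.Bimod

/-!
# Flatness and short exact sequences
-/

set_option autoImplicit false
set_option linter.unusedSectionVars false
set_option linter.unusedVariables false

open scoped TensorProduct Topology Uniformity
open Filter UniformSpace

namespace Pool.Agent.FrHom

universe u

variable {B C : Type u} [NonUnitalRing B] [Module ℂ B] [UniformSpace B] [FrechetAlgebra B]
  [NonUnitalRing C] [Module ℂ C] [UniformSpace C] [FrechetAlgebra C]

namespace BMod.Hom

variable {M N P : BMod B C}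

/-- The zero morphism. -/
noncomputable def zero (M N : BMod B C) : BMod.Hom M N where
  f := 0
  map_l b x := by simp
  map_r b x := by simp

/-- The identity morphism. -/
noncomputable def id (M : BMod B C) : BMod.Hom M M where
  f := ContinuousLinearMap.id ℂ M
  map_l b x := rfl
  map_r b x := rfl

/-- Composition of morphisms. -/
noncomputable def comp (g : BMod.Hom N P) (f : BMod.Hom M N) : BMod.Hom M P where
  f := g.f.comp f.f
  map_l b x := by simp [f.map_l, g.map_l]
  map_r b x := by simp [f.map_r, g.map_r]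

end BMod.Hom

section TensMap

variable {M N P : BMod C B} (F : BMod B C)

theorem Tens.ext_apply {G : Type u} [AddCommGroup G] [Module ℂ G] [UniformSpace G] [T2Space G]
    {F : BMod B C} {f g : Tens M F →L[ℂ] G} (h : ∀ x y, f (QT.mk x y) = g (QT.mk x y))
    (w : Tens M F) : f w = g w := QT.ext_apply h w

theorem Tens.map_map (g : BMod.Hom N P) (f : BMod.Hom M N) (w : Tens M F) :
    Tens.map g F (Tens.map f F w) = Tens.map (g.comp f) F w := by
  refine Tens.ext_apply (f := (Tens.map g F).comp (Tens.map f F)) (fun x y => ?_) w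
  simp [BMod.Hom.comp]

theorem Tens.map_congr {f g : BMod.Hom M N} (h : ∀ x, f.f x = g.f x) (w : Tens M F) :
    Tens.map f F w = Tens.map g F w := by
  refine Tens.ext_apply (fun x y => ?_) w
  simp [h]

theorem Tens.map_eq_zero {f : BMod.Hom M N} (h : ∀ x, f.f x = 0) (w : Tens M F) :
    Tens.map f F w = 0 := by
  refine Tens.ext_apply (g := 0) (fun x y => ?_) w
  simp [h]

theorem Tens.map_eq_self {f : BMod.Hom M M} (h : ∀ x, f.f x = x) (w : Tens M F) :
    Tens.map f F w = w := by
  refine Tens.ext_apply (g := ContinuousLinearMap.id ℂ _) (fun x y => ?_) w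
  simp [h]

end TensMap

section Ker

variable {M N : BMod B C}

/-- The underlying submodule of the kernel of a morphism. -/
def kerSub (f : BMod.Hom M N) : Submodule ℂ M := LinearMap.ker f.f.toLinearMap

theorem mem_kerSub (f : BMod.Hom M N) (x : M) : x ∈ kerSub f ↔ f.f x = 0 := Iff.rfl

theorem isClosed_kerSub (f : BMod.Hom M N) : IsClosed (kerSub f : Set M) :=
  ContinuousLinearMap.isClosed_ker f.f

instance (f : BMod.Hom M N) : FrechetSpace (kerSub f) :=
  frechetSpace_submodule _ (isClosed_kerSub f)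

/-- The kernel of a morphism, as a bimodule. -/
noncomputable def BMod.ker (f : BMod.Hom M N) : BMod B C where
  carrier := kerSub f
  l := LinearMap.mk₂ ℂ (fun b x => ⟨M.l b x.1, by rw [mem_kerSub, f.map_l, (mem_kerSub f _).mp x.2, map_zero]⟩)
    (fun a a' x => by ext; simp) (fun z a x => by ext; simp)
    (fun a x x' => by ext; simp) (fun z a x => by ext; simp)
  r := LinearMap.mk₂ ℂ (fun b x => ⟨M.r b x.1, by rw [mem_kerSub, f.map_r, (mem_kerSub f _).mp x.2, map_zero]⟩)
    (fun a a' x => by ext; simp) (fun z a x => by ext; simp)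
    (fun a x x' => by ext; simp) (fun z a x => by ext; simp)
  l_mul a b x := by ext; simp [M.l_mul]
  r_mul a b x := by ext; simp [M.r_mul]
  l_r b c x := by ext; simp [M.l_r]
  l_cont := by
    simp only [LinearMap.mk₂_apply]
    refine Continuous.subtype_mk ?_ _
    exact M.l_cont.comp (by fun_prop : Continuous fun z : B × kerSub f => (z.1, (z.2 : M)))
  r_cont := by
    simp only [LinearMap.mk₂_apply]
    refine Continuous.subtype_mk ?_ _
    exact M.r_cont.comp (by fun_prop : Continuous fun z : C × kerSub f => (z.1, (z.2 : M)))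

/-- The inclusion of the kernel. -/
noncomputable def BMod.kerIncl (f : BMod.Hom M N) : BMod.Hom (BMod.ker f) M where
  f := (kerSub f).subtypeL
  map_l b x := rfl
  map_r b x := rfl

theorem BMod.kerIncl_apply (f : BMod.Hom M N) (x : BMod.ker f) :
    (BMod.kerIncl f).f x = (show kerSub f from x).1 := rfl

theorem BMod.f_kerIncl (f : BMod.Hom M N) (x : BMod.ker f) : f.f ((BMod.kerIncl f).f x) = 0 :=
  (show kerSub f from x).2

theorem BMod.kerIncl_injective (f : BMod.Hom M N) : Function.Injective (BMod.kerIncl f).f :=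
  Subtype.val_injective

/-- A continuous linear map with values in the kernel. -/
noncomputable def BMod.toKer {E : Type u} [AddCommGroup E] [Module ℂ E] [TopologicalSpace E]
    (f : BMod.Hom M N) (g : E →L[ℂ] M) (h : ∀ x, f.f (g x) = 0) : E →L[ℂ] BMod.ker f :=
  g.codRestrict (kerSub f) h

theorem BMod.kerIncl_toKer {E : Type u} [AddCommGroup E] [Module ℂ E] [TopologicalSpace E]
    (f : BMod.Hom M N) (g : E →L[ℂ] M) (h : ∀ x, f.f (g x) = 0) (x : E) :
    (BMod.kerIncl f).f (BMod.toKer f g h x) = g x := rfl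

/-- A morphism with values in the kernel. -/
noncomputable def BMod.homToKer {L : BMod B C} (f : BMod.Hom M N) (g : BMod.Hom L M)
    (h : ∀ x, f.f (g.f x) = 0) : BMod.Hom L (BMod.ker f) where
  f := BMod.toKer f g.f h
  map_l b x := by
    apply BMod.kerIncl_injective
    rw [BMod.kerIncl_toKer, (BMod.kerIncl f).map_l, BMod.kerIncl_toKer, g.map_l]
  map_r b x := by
    apply BMod.kerIncl_injective
    rw [BMod.kerIncl_toKer, (BMod.kerIncl f).map_r, BMod.kerIncl_toKer, g.map_r]

theorem BMod.kerIncl_homToKer {L : BMod B C} (f : BMod.Hom M N) (g : BMod.Hom L M)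
    (h : ∀ x, f.f (g.f x) = 0) (x : L) :
    (BMod.kerIncl f).f ((BMod.homToKer f g h).f x) = g.f x := rfl

end Ker

/-- The zero bimodule. -/
noncomputable def BMod.zero (B C : Type u) [NonUnitalRing B] [Module ℂ B] [UniformSpace B]
    [FrechetAlgebra B] [NonUnitalRing C] [Module ℂ C] [UniformSpace C] [FrechetAlgebra C] :
    BMod B C where
  carrier := PUnit
  l := 0
  r := 0
  l_mul _ _ _ := rfl
  r_mul _ _ _ := rfl
  l_r _ _ _ := rfl
  l_cont := continuous_const
  r_cont := continuous_const

instance : Subsingleton (BMod.zero B C) := inferInstanceAs (Subsingleton PUnit)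

/-- A short exact sequence `0 → M → N → P → 0` of bimodules which splits as a sequence of
Fréchet spaces. -/
structure SES {M N P : BMod B C} (i : BMod.Hom M N) (p : BMod.Hom N P) where
  /-- continuous linear section of `p` -/
  s : P →L[ℂ] N
  /-- continuous linear retraction of `i` -/
  ρ : N →L[ℂ] M
  ρ_i : ∀ x, ρ (i.f x) = x
  p_s : ∀ x, p.f (s x) = x
  add : ∀ x, i.f (ρ x) + s (p.f x) = x

theorem SES.p_i {M N P : BMod B C} {i : BMod.Hom M N} {p : BMod.Hom N P} (S : SES i p) (x : M) :
    p.f (i.f x) = 0 := by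
  have h := congrArg p.f (S.add (i.f x))
  rw [map_add, S.p_s, S.ρ_i] at h
  simpa using h

theorem SES.exact {M N P : BMod B C} {i : BMod.Hom M N} {p : BMod.Hom N P} (S : SES i p) :
    Function.Exact i.f p.f := by
  intro x
  constructor
  · intro hx
    refine ⟨S.ρ x, ?_⟩
    have := S.add x
    rwa [hx, map_zero, add_zero] at this
  · rintro ⟨y, rfl⟩
    exact S.p_i y

section Complex

variable {M N P : BMod B C} {i : BMod.Hom M N} {p : BMod.Hom N P}

/-- The terms of the complex `⋯ 0 → M → N → P → 0 ⋯`. -/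
noncomputable def sesX (M N P : BMod B C) : ℤ → BMod B C
  | Int.ofNat 0 => P
  | Int.ofNat 1 => N
  | Int.ofNat 2 => M
  | Int.ofNat (_ + 3) => BMod.zero B C
  | Int.negSucc _ => BMod.zero B C

/-- The differentials of the complex `⋯ 0 → M → N → P → 0 ⋯`. -/
noncomputable def sesD (i : BMod.Hom M N) (p : BMod.Hom N P) :
    ∀ n : ℤ, BMod.Hom (sesX M N P (n + 1)) (sesX M N P n)
  | Int.ofNat 0 => p
  | Int.ofNat 1 => i
  | Int.ofNat (_ + 2) => BMod.Hom.zero _ _
  | Int.negSucc _ => BMod.Hom.zero _ _

/-- The contracting homotopy of the complex `⋯ 0 → M → N → P → 0 ⋯`. -/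
noncomputable def sesS (S : SES i p) : ∀ n : ℤ, sesX M N P n →L[ℂ] sesX M N P (n + 1)
  | Int.ofNat 0 => S.s
  | Int.ofNat 1 => S.ρ
  | Int.ofNat (_ + 2) => 0
  | Int.negSucc _ => 0

/-- The admissible complex attached to a split short exact sequence. -/
noncomputable def SES.complex (S : SES i p) : AdmComplex B C where
  X := sesX M N P
  d := sesD i p
  s := sesS S
  d_d n x := by
    match n with
    | Int.ofNat 0 => exact S.p_i x
    | Int.ofNat 1 => exact map_zero i.f
    | Int.ofNat (_ + 2) => rfl
    | Int.negSucc _ => rfl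
  htpy n x := by
    match n with
    | Int.ofNat 0 => exact S.add x
    | Int.ofNat 1 =>
      exact (show ∀ y : M, (0 : M) + S.ρ (i.f y) = y from fun y => by rw [zero_add, S.ρ_i]) x
    | Int.ofNat (_ + 2) => rfl
    | Int.negSucc 0 =>
      exact (show ∀ y : P, p.f (S.s y) + 0 = y from fun y => by rw [add_zero, S.p_s]) x
    | Int.negSucc (_ + 1) => rfl

end Complex

section FlatSES

variable {M N P : BMod C B} {i : BMod.Hom M N} {p : BMod.Hom N P} {F : BMod B C}

theorem Flat.exact (hF : Flat F) (S : SES i p) :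
    Function.Exact (Tens.map i F) (Tens.map p F) := hF S.complex 0

theorem Flat.injective (hF : Flat F) (S : SES i p) : Function.Injective (Tens.map i F) := by
  have h : Function.Exact (Tens.map (BMod.Hom.zero (BMod.zero C B) M) F) (Tens.map i F) :=
    hF S.complex 1
  rw [injective_iff_map_eq_zero]
  intro w hw
  obtain ⟨v, hv⟩ := (h w).mp hw
  rw [← hv]
  exact Tens.map_eq_zero F (fun x => rfl) v

theorem Flat.surjective (hF : Flat F) (S : SES i p) : Function.Surjective (Tens.map p F) := by
  have h : Function.Exact (Tens.map p F) (Tens.map (BMod.Hom.zero P (BMod.zero C B)) F) :=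
    hF S.complex (Int.negSucc 0)
  intro w
  exact (h w).mp (Tens.map_eq_zero F (fun x => rfl) w)

/-- Flatness can be tested on split short exact sequences. -/
theorem Flat.of_ses (h : ∀ (M N P : BMod C B) (i : BMod.Hom M N) (p : BMod.Hom N P), SES i p →
    Function.Injective (Tens.map i F) ∧ Function.Exact (Tens.map i F) (Tens.map p F) ∧
      Function.Surjective (Tens.map p F)) : Flat F := by
  intro K i
  obtain ⟨k, rfl⟩ : ∃ k : ℤ, i = k + 1 + 1 := ⟨i - 2, by ring⟩
  -- the short exact sequence `0 → ker d (j+1) → X (j+2) → ker d j → 0`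
  let pp : ∀ j : ℤ, BMod.Hom (K.X (j + 1 + 1)) (BMod.ker (K.d j)) := fun j =>
    BMod.homToKer (K.d j) (K.d (j + 1)) (K.d_d j)
  have hK : ∀ (j : ℤ) (x : K.X (j + 1 + 1)),
      (K.d (j + 1)).f (((K.d (j + 1 + 1)).f.comp (K.s (j + 1 + 1))) x) = 0 :=
    fun j x => K.d_d (j + 1) _
  let S : ∀ j : ℤ, SES (BMod.kerIncl (K.d (j + 1))) (pp j) := fun j =>
    { s := (K.s (j + 1)).comp (BMod.kerIncl (K.d j)).f
      ρ := BMod.toKer (K.d (j + 1)) ((K.d (j + 1 + 1)).f.comp (K.s (j + 1 + 1))) (hK j)
      ρ_i := fun x => by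
        apply BMod.kerIncl_injective
        rw [BMod.kerIncl_toKer]
        have h1 := K.htpy (j + 1) ((BMod.kerIncl (K.d (j + 1))).f x)
        rwa [BMod.f_kerIncl, map_zero, add_zero] at h1
      p_s := fun x => by
        apply BMod.kerIncl_injective
        rw [BMod.kerIncl_homToKer]
        have h1 := K.htpy j ((BMod.kerIncl (K.d j)).f x)
        rwa [BMod.f_kerIncl, map_zero, add_zero] at h1
      add := fun x => by
        rw [BMod.kerIncl_toKer]
        exact K.htpy (j + 1) x }
  have h1 := h _ _ _ _ _ (S (k + 1 + 1))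
  have h2 := h _ _ _ _ _ (S (k + 1))
  have h3 := h _ _ _ _ _ (S k)
  intro w
  have e1 : ∀ v, Tens.map (K.d (k + 1 + 1 + 1)) F v =
      Tens.map (BMod.kerIncl (K.d (k + 1 + 1))) F (Tens.map (pp (k + 1 + 1)) F v) := by
    intro v
    rw [Tens.map_map]
    exact Tens.map_congr F (fun x => rfl) v
  have e2 : ∀ v, Tens.map (K.d (k + 1 + 1)) F v =
      Tens.map (BMod.kerIncl (K.d (k + 1))) F (Tens.map (pp (k + 1)) F v) := by
    intro v
    rw [Tens.map_map]
    exact Tens.map_congr F (fun x => rfl) v
  constructor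
  · intro hw
    rw [e2] at hw
    have h4 : Tens.map (pp (k + 1)) F w = 0 := h3.1 (by rw [hw, map_zero])
    obtain ⟨v, hv⟩ := (h2.2.1 w).mp h4
    obtain ⟨t, ht⟩ := h1.2.2 v
    exact ⟨t, by rw [e1, ht, hv]⟩
  · rintro ⟨v, rfl⟩
    rw [Tens.map_map]
    exact Tens.map_eq_zero F (fun x => K.d_d _ x) v

end FlatSES

end Pool.Agent.FrHom
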