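import Pool.Agent.Lib.MP_afeff1_an.Defs

/-!
# Fréchet spaces: completions and quotients

Basic facts on complex Fréchet spaces needed for the completed projective tensor product.
-/

set_option autoImplicit false

open scoped TensorProduct Topology Uniformity
open Filter

namespace Pool.Agent.FrHom

theorem FrechetSpace.of (E : Type*) [AddCommGroup E] [Module ℂ E] [UniformSpace E]
    [h1 : IsUniformAddGroup E] [h2 : CompleteSpace E] [h3 : TopologicalSpace.MetrizableSpace E]
    [h4 : PolynormableSpace ℂ E] : FrechetSpace E :=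
  { h1, h2, h3, h4 with }

section General

variable {E : Type*} [AddCommGroup E] [Module ℂ E] [UniformSpace E] [FrechetSpace E]

instance FrechetSpace.continuousSMul : ContinuousSMul ℂ E :=
  (PolynormableSpace.withSeminorms ℂ E).continuousSMul

instance FrechetSpace.uniformContinuousConstSMul : UniformContinuousConstSMul ℂ E :=
  uniformContinuousConstSMul_of_continuousConstSMul ℂ E

end General

section Seminorms

variable {E : Type*} [AddCommGroup E] [Module ℂ E]

/-- Comparison of seminorms through their unit balls. -/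
theorem seminorm_le_of_ball_subset {p q : Seminorm ℂ E}
    (h : ∀ x, p x < 1 → q x < 1) : q ≤ p := by
  intro x
  by_contra hlt
  push Not at hlt
  have hq : 0 < q x := lt_of_le_of_lt (apply_nonneg p x) hlt
  have h1 := h (((q x)⁻¹ : ℂ) • x) (by
    rw [map_smul_eq_mul, norm_inv, Complex.norm_real, Real.norm_of_nonneg hq.le]
    rw [inv_mul_lt_iff₀ hq]; simpa using hlt)
  rw [map_smul_eq_mul, norm_inv, Complex.norm_real, Real.norm_of_nonneg hq.le,
    inv_mul_cancel₀ hq.ne'] at h1
  exact lt_irrefl _ h1

variable [TopologicalSpace E] [PolynormableSpace ℂ E]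

/-- Every neighbourhood of `0` contains the open unit ball of a continuous seminorm. -/
theorem exists_seminorm_ball_subset {U : Set E} (hU : U ∈ 𝓝 (0 : E)) :
    ∃ p : Seminorm ℂ E, Continuous p ∧ ∀ x, p x < 1 → x ∈ U := by
  have hW := PolynormableSpace.withSeminorms ℂ E
  obtain ⟨V, hV, hVU⟩ := hW.hasBasis.mem_iff.mp hU
  obtain ⟨s, ε, hε, rfl⟩ := (SeminormFamily.basisSets_iff _).mp hV
  have := hW.topologicalAddGroup
  have := hW.continuousSMul
  set P : Seminorm ℂ E := s.sup (fun p : {p : Seminorm ℂ E // Continuous p} => p.1) with hP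
  have h1 : Continuous P := Seminorm.continuous_finsetSup fun i _ => i.2
  refine ⟨(ε⁻¹).toNNReal • P, h1.const_smul _, fun x hx => hVU ?_⟩
  rw [id, Seminorm.mem_ball_zero]
  have : (ε⁻¹).toNNReal • (P x) < 1 := hx
  rw [NNReal.smul_def, smul_eq_mul, Real.coe_toNNReal _ (inv_pos.mpr hε).le,
    inv_mul_lt_iff₀ hε] at this
  simpa using this

/-- A seminorm is continuous as soon as it is dominated by a continuous seminorm. -/
theorem continuous_of_seminorm_le {p q : Seminorm ℂ E} (hq : Continuous q) (h : p ≤ q) :
    Continuous p := by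
  have := (PolynormableSpace.withSeminorms ℂ E).topologicalAddGroup
  exact Seminorm.continuous_of_le hq h

end Seminorms

section ContBil

variable {E F G : Type*} [AddCommGroup E] [Module ℂ E] [TopologicalSpace E]
  [PolynormableSpace ℂ E] [AddCommGroup F] [Module ℂ F] [TopologicalSpace F]
  [PolynormableSpace ℂ F] [AddCommGroup G] [Module ℂ G] [TopologicalSpace G]

omit [TopologicalSpace E] [PolynormableSpace ℂ E] [TopologicalSpace F] [PolynormableSpace ℂ F]
  [TopologicalSpace G] in
theorem bound_of_small {p : Seminorm ℂ E} {q : Seminorm ℂ F} {b : E →ₗ[ℂ] F →ₗ[ℂ] G}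
    {r : Seminorm ℂ G} (h : ∀ x y, p x < 1 → q y < 1 → r (b x y) < 1) (x : E) (y : F) :
    r (b x y) ≤ p x * q y := by
  -- scaling argument
  have key : ∀ ε : ℝ, 0 < ε → r (b x y) ≤ (p x + ε) * (q y + ε) := by
    intro ε hε
    have hp : 0 < p x + ε := add_pos_of_nonneg_of_pos (apply_nonneg p x) hε
    have hq : 0 < q y + ε := add_pos_of_nonneg_of_pos (apply_nonneg q y) hε
    have h1 := h (((p x + ε)⁻¹ : ℝ) • x) (((q y + ε)⁻¹ : ℝ) • y) (by
      rw [← Complex.coe_smul, map_smul_eq_mul, Complex.norm_real,
        Real.norm_of_nonneg (inv_pos.mpr hp).le, inv_mul_lt_iff₀ hp]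
      linarith) (by
      rw [← Complex.coe_smul, map_smul_eq_mul, Complex.norm_real,
        Real.norm_of_nonneg (inv_pos.mpr hq).le, inv_mul_lt_iff₀ hq]
      linarith)
    rw [← Complex.coe_smul, ← Complex.coe_smul, (b _).map_smul, b.map_smul, LinearMap.smul_apply,
      map_smul_eq_mul, map_smul_eq_mul, Complex.norm_real, Complex.norm_real,
      Real.norm_of_nonneg (inv_pos.mpr hp).le, Real.norm_of_nonneg (inv_pos.mpr hq).le] at h1
    have h2 : r (b x y) = (p x + ε) * (q y + ε) * ((q y + ε)⁻¹ * ((p x + ε)⁻¹ * r (b x y))) := by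
      field_simp
    rw [h2]
    have h3 : 0 < (p x + ε) * (q y + ε) := mul_pos hp hq
    nlinarith
  have hlim : Tendsto (fun ε : ℝ => (p x + ε) * (q y + ε)) (𝓝[>] 0) (𝓝 (p x * q y)) := by
    have : Tendsto (fun ε : ℝ => (p x + ε) * (q y + ε)) (𝓝 0) (𝓝 ((p x + 0) * (q y + 0))) := by
      apply Continuous.tendsto; fun_prop
    simp only [add_zero] at this
    exact this.mono_left nhdsWithin_le_nhds
  exact ge_of_tendsto hlim (eventually_of_mem self_mem_nhdsWithin fun ε hε => key ε hε)

/-- Local uniform seminorm bound for a continuous family of bilinear maps. -/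
theorem exists_bound_param {Θ : Type*} [TopologicalSpace Θ] (b : Θ → E →ₗ[ℂ] F →ₗ[ℂ] G)
    (hb : Continuous fun z : Θ × E × F => b z.1 z.2.1 z.2.2) (θ₀ : Θ)
    {r : Seminorm ℂ G} (hr : Continuous r) :
    ∃ U ∈ 𝓝 θ₀, ∃ p : Seminorm ℂ E, ∃ q : Seminorm ℂ F, Continuous p ∧ Continuous q ∧
      ∀ θ ∈ U, ∀ x y, r (b θ x y) ≤ p x * q y := by
  have hO : {z : Θ × E × F | r (b z.1 z.2.1 z.2.2) < 1} ∈ 𝓝 (θ₀, (0 : E), (0 : F)) := by
    apply (isOpen_lt (hr.comp hb) continuous_const).mem_nhds
    simp
  rw [nhds_prod_eq, nhds_prod_eq] at hO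
  obtain ⟨U, hU, W, hW, hUW⟩ := Filter.mem_prod_iff.mp hO
  obtain ⟨V, hV, V', hV', hVV⟩ := Filter.mem_prod_iff.mp hW
  obtain ⟨p, hp, hpV⟩ := exists_seminorm_ball_subset hV
  obtain ⟨q, hq, hqV⟩ := exists_seminorm_ball_subset hV'
  refine ⟨U, hU, p, q, hp, hq, fun θ hθ x y => bound_of_small (fun x y hx hy => ?_) x y⟩
  have : (θ, x, y) ∈ U ×ˢ W := ⟨hθ, hVV ⟨hpV x hx, hqV y hy⟩⟩
  exact hUW this

theorem exists_bound (b : E →ₗ[ℂ] F →ₗ[ℂ] G) (hb : Continuous fun z : E × F => b z.1 z.2)
    {r : Seminorm ℂ G} (hr : Continuous r) :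
    ∃ p : Seminorm ℂ E, ∃ q : Seminorm ℂ F, Continuous p ∧ Continuous q ∧
      ∀ x y, r (b x y) ≤ p x * q y := by
  obtain ⟨U, hU, p, q, hp, hq, h⟩ := exists_bound_param (Θ := Unit) (fun _ => b)
    (hb.comp (by fun_prop)) () hr
  exact ⟨p, q, hp, hq, h () (mem_of_mem_nhds hU)⟩

end ContBil

section Completion

open UniformSpace

variable {V : Type*} [AddCommGroup V] [Module ℂ V] [UniformSpace V] [IsUniformAddGroup V]
  [UniformContinuousConstSMul ℂ V]

omit [UniformContinuousConstSMul ℂ V] in
theorem seminorm_uniformContinuous {p : Seminorm ℂ V} (hp : Continuous p) :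
    UniformContinuous p :=
  p.uniformContinuous_of_continuousAt_zero hp.continuousAt

/-- The extension of a continuous seminorm to the completion. -/
noncomputable def extSeminorm (p : Seminorm ℂ V) (hp : Continuous p) :
    Seminorm ℂ (Completion V) :=
  Seminorm.of (Completion.extension p)
    (fun x y => by
      induction x, y using Completion.induction_on₂ with
      | hp =>
        refine isClosed_le ?_ ?_
        · exact Completion.continuous_extension.comp (by fun_prop)
        · exact (Completion.continuous_extension.comp (by fun_prop)).add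
            (Completion.continuous_extension.comp (by fun_prop))
      | ih x y =>
        rw [← Completion.coe_add, Completion.extension_coe (seminorm_uniformContinuous hp),
          Completion.extension_coe (seminorm_uniformContinuous hp),
          Completion.extension_coe (seminorm_uniformContinuous hp)]
        exact map_add_le_add p x y)
    (fun a x => by
      induction x using Completion.induction_on with
      | hp =>
        refine isClosed_eq ?_ ?_
        · exact Completion.continuous_extension.comp (continuous_const_smul a)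
        · exact continuous_const.mul Completion.continuous_extension
      | ih x =>
        rw [← Completion.coe_smul, Completion.extension_coe (seminorm_uniformContinuous hp),
          Completion.extension_coe (seminorm_uniformContinuous hp)]
        exact map_smul_eq_mul p a x)

theorem extSeminorm_coe (p : Seminorm ℂ V) (hp : Continuous p) (x : V) :
    extSeminorm p hp (x : Completion V) = p x :=
  Completion.extension_coe (seminorm_uniformContinuous hp) x

theorem continuous_extSeminorm (p : Seminorm ℂ V) (hp : Continuous p) :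
    Continuous (extSeminorm p hp) :=
  Completion.continuous_extension

/-- If the topology of `V` is generated by a family of seminorms, the topology of the completion
is generated by the extended seminorms. -/
theorem withSeminorms_completion {ι : Type*} {p : ι → Seminorm ℂ V} (hw : WithSeminorms p) :
    WithSeminorms (fun i => extSeminorm (p i) (hw.continuous_seminorm i)) := by
  rw [SeminormFamily.withSeminorms_iff_nhds_eq_iInf]
  refine le_antisymm ?_ ?_
  · simp_rw [le_iInf_iff, ← tendsto_iff_comap]
    intro i
    exact (continuous_extSeminorm (p i) _).tendsto' 0 0 (map_zero _)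
  · intro U hU
    obtain ⟨U', hU', hU'c, hU'U⟩ := exists_mem_nhds_isClosed_subset hU
    have h1 : ((↑) : V → Completion V) ⁻¹' U' ∈ 𝓝 (0 : V) := by
      apply (Completion.continuous_coe V).continuousAt.preimage_mem_nhds
      rw [Completion.coe_zero]
      exact hU'
    obtain ⟨W, hW, hWU⟩ := hw.hasBasis.mem_iff.mp h1
    obtain ⟨s, ε, hε, rfl⟩ := (SeminormFamily.basisSets_iff _).mp hW
    -- the open set where all the extended seminorms in `s` are `< ε`
    have hO : IsOpen {w : Completion V | ∀ i ∈ s, extSeminorm (p i) (hw.continuous_seminorm i) w < ε} := by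
      have : {w : Completion V | ∀ i ∈ s, extSeminorm (p i) (hw.continuous_seminorm i) w < ε}
          = ⋂ i ∈ s, {w | extSeminorm (p i) (hw.continuous_seminorm i) w < ε} := by
        ext w; simp
      rw [this]
      exact isOpen_biInter_finset fun i _ =>
        isOpen_lt (continuous_extSeminorm _ _) continuous_const
    have h2 : {w : Completion V | ∀ i ∈ s, extSeminorm (p i) (hw.continuous_seminorm i) w < ε}
        ⊆ U := by
      refine subset_trans (Completion.denseRange_coe.subset_closure_image_preimage_of_isOpen hO) ?_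
      refine subset_trans ?_ hU'U
      rw [hU'c.closure_subset_iff]
      rintro _ ⟨v, hv, rfl⟩
      apply hWU
      rw [id, Seminorm.mem_ball_zero]
      refine Seminorm.finset_sup_apply_lt hε fun i hi => ?_
      have := hv i hi
      rwa [extSeminorm_coe] at this
    refine mem_of_superset ?_ h2
    have h3 : {w : Completion V | ∀ i ∈ s, extSeminorm (p i) (hw.continuous_seminorm i) w < ε}
          = ⋂ i ∈ s, {w | extSeminorm (p i) (hw.continuous_seminorm i) w < ε} := by
        ext w; simp
    rw [h3]
    refine (Filter.biInter_finset_mem s).mpr fun i _ => ?_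
    refine Filter.mem_iInf_of_mem i ?_
    exact ⟨Set.Iio ε, Iio_mem_nhds hε, fun w hw => hw⟩

end Completion

section Quotient

variable {E : Type*} [AddCommGroup E] [Module ℂ E] [UniformSpace E] [FrechetSpace E]

open scoped ComplexOrder in
/-- The quotient of a locally convex space is locally convex. -/
theorem polynormableSpace_quotient (S : Submodule ℂ E) : PolynormableSpace ℂ (E ⧸ S) := by
  have hE : LocallyConvexSpace ℝ E :=
    (PolynormableSpace.withSeminorms ℂ E).toLocallyConvexSpace
  have hQ : LocallyConvexSpace ℂ (E ⧸ S) := by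
    rw [locallyConvexSpace_iff_exists_convex_subset_zero]
    intro U hU
    have h1 : S.mkQ ⁻¹' U ∈ 𝓝 (0 : E) := by
      apply S.isOpenQuotientMap_mkQ.continuous.continuousAt.preimage_mem_nhds
      rwa [map_zero]
    obtain ⟨V, hV, hVc, hVU⟩ := (locallyConvexSpace_iff_exists_convex_subset_zero ℝ E).mp hE _ h1
    refine ⟨S.mkQ '' V, ?_, ?_, ?_⟩
    · have := S.isOpenQuotientMap_mkQ.isOpenMap.image_mem_nhds hV
      rwa [map_zero] at this
    · refine convex_of_nonneg_surjective_algebraMap _ (fun x hx => ?_)
        (hVc.linear_image (S.mkQ.restrictScalars ℝ))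
      have hx' : (0 : ℂ) ≤ x := hx
      obtain ⟨r, hr, rfl⟩ := RCLike.nonneg_iff_exists_ofReal.mp hx'
      exact ⟨r, hr, rfl⟩
    · rintro _ ⟨v, hv, rfl⟩
      exact hVU hv
  have : ContinuousSMul ℝ (E ⧸ S) := IsScalarTower.continuousSMul ℂ
  exact LocallyConvexSpace.toPolynormableSpace

theorem metrizableSpace_quotient (S : Submodule ℂ E) (hS : IsClosed (S : Set E)) :
    TopologicalSpace.MetrizableSpace (E ⧸ S) := by
  let _ : UniformSpace (E ⧸ S) := IsTopologicalAddGroup.rightUniformSpace (E ⧸ S)
  have : IsUniformAddGroup (E ⧸ S) := isUniformAddGroup_of_addCommGroup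
  have : T3Space (E ⧸ S) := by
    have : IsClosed (S : Set E) := hS
    infer_instance
  have : (𝓝 (0 : E ⧸ S)).IsCountablyGenerated := by
    have h1 : 𝓝 (0 : E ⧸ S) = map S.mkQ (𝓝 (0 : E)) := by
      have := S.isOpenQuotientMap_mkQ.map_nhds_eq (0 : E)
      rw [this, map_zero]
    rw [h1]
    infer_instance
  have : (𝓤 (E ⧸ S)).IsCountablyGenerated := IsUniformAddGroup.uniformity_countably_generated
  exact UniformSpace.metrizableSpace

theorem completeSpace_quotient (S : Submodule ℂ E) :
    @CompleteSpace (E ⧸ S) (IsTopologicalAddGroup.rightUniformSpace (E ⧸ S)) :=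
  QuotientAddGroup.completeSpace_right E S.toAddSubgroup

end Quotient

end Pool.Agent.FrHom
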