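import Pool.Agent.Lib.MP_afeff1_an.Transfer

/-!
# The unitization is flat on either side; direct sums of flat bimodules are flat
-/

set_option autoImplicit false
set_option linter.unusedSectionVars false
set_option linter.unusedVariables false

open scoped TensorProduct Topology Uniformity
open Filter UniformSpace

namespace Pool.Agent.FrHom

universe u

variable {B C : Type u} [NonUnitalRing B] [Module ℂ B] [UniformSpace B] [FrechetAlgebra B]
  [NonUnitalRing C] [Module ℂ C] [UniformSpace C] [FrechetAlgebra C]

/-- A bimodule `F` for which `M ⊗̂ F` is naturally isomorphic to `M` is flat. -/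
theorem Flat.of_self {F : BMod B C} (e : ∀ M : BMod C B, Tens M F →L[ℂ] M)
    (e' : ∀ M : BMod C B, M →L[ℂ] Tens M F)
    (h1 : ∀ M w, e M (e' M w) = w) (h2 : ∀ M w, e' M (e M w) = w)
    (hn : ∀ {M N : BMod C B} (f : BMod.Hom M N) (w), e N (Tens.map f F w) = f.f (e M w)) :
    Flat F := by
  have hn' : ∀ {M N : BMod C B} (f : BMod.Hom M N) (w), e' N (f.f w) = Tens.map f F (e' M w) := by
    intro M N f w
    have h := hn f (e' M w)
    rw [h1] at h
    rw [← h, h2]
  refine Flat.of_ses fun L M N i p S => ⟨?_, ?_, ?_⟩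
  · intro v w hvw
    have h := congrArg (e M) hvw
    rw [hn, hn] at h
    have h' := congrArg S.ρ h
    rw [S.ρ_i, S.ρ_i] at h'
    have h5 := congrArg (e' L) h'
    rwa [h2, h2] at h5
  · intro w
    constructor
    · intro hw
      have h := congrArg (e N) hw
      rw [hn, map_zero] at h
      obtain ⟨v, hv⟩ := (S.exact _).mp h
      exact ⟨e' L v, by rw [← hn', hv, h2]⟩
    · rintro ⟨v, rfl⟩
      rw [Tens.map_map]
      exact Tens.map_eq_zero _ (fun x => S.p_i x) v
  · intro w
    exact ⟨e' M (S.s (e N w)), by rw [← hn', S.p_s, h2]⟩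

section UL

variable (M : BMod Z B)

/-- `M ⊗̂_B B₊ → M`. -/
noncomputable def EL : Tens M (forgetR (unitization B)) →L[ℂ] M :=
  Tens.lift (M := M) (F := forgetR (unitization B))
    (show M →ₗ[ℂ] forgetR (unitization B) →ₗ[ℂ] M from (uact M.r).flip)
    (flip_cont (uact_cont M.r_cont))
    (fun b m u => (uact_r' M b u m).symm)
    (fun z v x => by rw [l_punit, r_punit, map_zero, map_zero, LinearMap.zero_apply])

theorem EL_mk (m : M) (u : unitization B) :
    EL M (lmk (unitization B) M m u) = uact M.r u m := by
  have h := tlift_mk (M := M) (F := forgetR (unitization B))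
    (show M →ₗ[ℂ] forgetR (unitization B) →ₗ[ℂ] M from (uact M.r).flip)
    (flip_cont (uact_cont M.r_cont))
    (fun b m u => (uact_r' M b u m).symm)
    (fun z v x => by rw [l_punit, r_punit, map_zero, map_zero, LinearMap.zero_apply]) m u
  exact h

/-- `M → M ⊗̂_B B₊`. -/
noncomputable def EL' : M →L[ℂ] Tens M (forgetR (unitization B)) where
  toLinearMap := (lmk (unitization B) M).flip (uone B)
  cont := fix_cont (flip_cont (lmk_cont (unitization B) M)) (uone B)

theorem EL'_apply (m : M) : EL' M m = lmk (unitization B) M m (uone B) := rfl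

theorem lmk_u (m : M) (u : unitization B) :
    lmk (unitization B) M (uact M.r u m) (uone B) = lmk (unitization B) M m u := by
  rw [uact_apply, map_add, LinearMap.add_apply, lmk_bal]
  have h : (unitization B).l (usnd B u) (uone B) = uinr B (usnd B u) := by
    rw [u_l, ufst_uone, usnd_uone, mul_zero, add_zero, one_smul]
  rw [h, map_smul, LinearMap.smul_apply, ← map_smul, ← map_add, ← u_eq]

end UL

/-- The unitization is flat as a left module. -/
theorem flat_unitization_left : Flat (forgetR (unitization B)) :=
  Flat.of_self EL EL'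
    (fun M m => by rw [EL'_apply, EL_mk, uact_uone])
    (fun M w => by
      refine QT.ext_apply (f := (EL' M).comp (EL M)) (g := ContinuousLinearMap.id ℂ _)
        (fun m x => ?_) w
      have h : ∀ x : unitization B, EL' M (EL M (lmk (unitization B) M m x)) =
          lmk (unitization B) M m x := fun x => by
        rw [EL_mk, EL'_apply, lmk_u]
      exact h x)
    (fun {M N} f w => by
      refine QT.ext_apply (f := (EL N).comp (Tens.map f _)) (g := f.f.comp (EL M))
        (fun m x => ?_) w
      have h : ∀ x : unitization B, EL N (Tens.map f _ (lmk (unitization B) M m x)) =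
          f.f (EL M (lmk (unitization B) M m x)) := fun x => by
        have h1 : Tens.map f (forgetR (unitization B)) (lmk (unitization B) M m x) =
          lmk (unitization B) N (f.f m) x := tmap_mk f (forgetR (unitization B)) m x
        rw [h1, EL_mk, EL_mk, uact_apply, uact_apply, map_add, map_smul, f.map_r]
      exact h x)

section UR

variable (M : BMod C Z)

/-- `C₊ ⊗̂_C M → M`. -/
noncomputable def ER : Tens M (forgetL (unitization C)) →L[ℂ] M :=
  Tens.lift (M := M) (F := forgetL (unitization C))
    (show M →ₗ[ℂ] forgetL (unitization C) →ₗ[ℂ] M from (uact M.l).flip)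
    (flip_cont (uact_cont M.l_cont))
    (fun z v x => by rw [l_punit, r_punit, map_zero, map_zero, LinearMap.zero_apply])
    (fun b m u => (uact_l' M b u m).symm)

theorem ER_mk (m : M) (u : unitization C) :
    ER M (rmk (unitization C) M m u) = uact M.l u m := by
  have h := tlift_mk (M := M) (F := forgetL (unitization C))
    (show M →ₗ[ℂ] forgetL (unitization C) →ₗ[ℂ] M from (uact M.l).flip)
    (flip_cont (uact_cont M.l_cont))
    (fun z v x => by rw [l_punit, r_punit, map_zero, map_zero, LinearMap.zero_apply])
    (fun b m u => (uact_l' M b u m).symm) m u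
  exact h

/-- `M → C₊ ⊗̂_C M`. -/
noncomputable def ER' : M →L[ℂ] Tens M (forgetL (unitization C)) where
  toLinearMap := (rmk (unitization C) M).flip (uone C)
  cont := fix_cont (flip_cont (rmk_cont (unitization C) M)) (uone C)

theorem ER'_apply (m : M) : ER' M m = rmk (unitization C) M m (uone C) := rfl

theorem rmk_u (m : M) (u : unitization C) :
    rmk (unitization C) M (uact M.l u m) (uone C) = rmk (unitization C) M m u := by
  rw [uact_apply, map_add, LinearMap.add_apply, rmk_bal]
  have h : (unitization C).r (usnd C u) (uone C) = uinr C (usnd C u) := by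
    rw [u_r, ufst_uone, usnd_uone, zero_mul, add_zero, one_smul]
  rw [h, map_smul, LinearMap.smul_apply, ← map_smul, ← map_add, ← u_eq]

end UR

/-- The unitization is flat as a right module. -/
theorem flat_unitization_right : Flat (forgetL (unitization C)) :=
  Flat.of_self ER ER'
    (fun M m => by rw [ER'_apply, ER_mk, uact_uone])
    (fun M w => by
      refine QT.ext_apply (f := (ER' M).comp (ER M)) (g := ContinuousLinearMap.id ℂ _)
        (fun m x => ?_) w
      have h : ∀ x : unitization C, ER' M (ER M (rmk (unitization C) M m x)) =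
          rmk (unitization C) M m x := fun x => by
        rw [ER_mk, ER'_apply, rmk_u]
      exact h x)
    (fun {M N} f w => by
      refine QT.ext_apply (f := (ER N).comp (Tens.map f _)) (g := f.f.comp (ER M))
        (fun m x => ?_) w
      have h : ∀ x : unitization C, ER N (Tens.map f _ (rmk (unitization C) M m x)) =
          f.f (ER M (rmk (unitization C) M m x)) := fun x => by
        have h1 : Tens.map f (forgetL (unitization C)) (rmk (unitization C) M m x) =
          rmk (unitization C) N (f.f m) x := tmap_mk f (forgetL (unitization C)) m x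
        rw [h1, ER_mk, ER_mk, uact_apply, uact_apply, map_add, map_smul, f.map_l]
      exact h x)

section Prod

/-- The direct sum of two bimodules. -/
noncomputable def BMod.prod (P Q : BMod B C) : BMod B C where
  carrier := P × Q
  l := LinearMap.mk₂ ℂ (fun b x => (P.l b x.1, Q.l b x.2))
    (fun a a' x => by ext <;> simp) (fun z a x => by ext <;> simp)
    (fun a x x' => by ext <;> simp) (fun z a x => by ext <;> simp)
  r := LinearMap.mk₂ ℂ (fun b x => (P.r b x.1, Q.r b x.2))
    (fun a a' x => by ext <;> simp) (fun z a x => by ext <;> simp)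
    (fun a x x' => by ext <;> simp) (fun z a x => by ext <;> simp)
  l_mul a b x := by ext <;> simp [P.l_mul, Q.l_mul]
  r_mul a b x := by ext <;> simp [P.r_mul, Q.r_mul]
  l_r b c x := by ext <;> simp [P.l_r, Q.l_r]
  l_cont := by
    simp only [LinearMap.mk₂_apply]
    exact (P.l_cont.comp (by fun_prop : Continuous fun z : B × P × Q => (z.1, z.2.1))).prodMk
      (Q.l_cont.comp (by fun_prop : Continuous fun z : B × P × Q => (z.1, z.2.2)))
  r_cont := by
    simp only [LinearMap.mk₂_apply]
    exact (P.r_cont.comp (by fun_prop : Continuous fun z : C × P × Q => (z.1, z.2.1))).prodMk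
      (Q.r_cont.comp (by fun_prop : Continuous fun z : C × P × Q => (z.1, z.2.2)))

variable (P Q : BMod B C)

/-- First projection. -/
noncomputable def pfst : BMod.Hom (BMod.prod P Q) P where
  f := ContinuousLinearMap.fst ℂ P Q
  map_l _ _ := rfl
  map_r _ _ := rfl

/-- Second projection. -/
noncomputable def psnd : BMod.Hom (BMod.prod P Q) Q where
  f := ContinuousLinearMap.snd ℂ P Q
  map_l _ _ := rfl
  map_r _ _ := rfl

/-- First injection. -/
noncomputable def pinl : BMod.Hom P (BMod.prod P Q) where
  f := ContinuousLinearMap.inl ℂ P Q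
  map_l b x := by
    have h : ((P.l b x, 0) : P × Q) = (P.l b x, Q.l b 0) := by rw [map_zero]
    exact h
  map_r b x := by
    have h : ((P.r b x, 0) : P × Q) = (P.r b x, Q.r b 0) := by rw [map_zero]
    exact h

/-- Second injection. -/
noncomputable def pinr : BMod.Hom Q (BMod.prod P Q) where
  f := ContinuousLinearMap.inr ℂ P Q
  map_l b x := by
    have h : ((0, Q.l b x) : P × Q) = (P.l b 0, Q.l b x) := by rw [map_zero]
    exact h
  map_r b x := by
    have h : ((0, Q.r b x) : P × Q) = (P.r b 0, Q.r b x) := by rw [map_zero]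
    exact h

theorem pfst_pinl (x : P) : (pfst P Q).f ((pinl P Q).f x) = x := rfl
theorem psnd_pinl (x : P) : (psnd P Q).f ((pinl P Q).f x) = 0 := rfl
theorem pfst_pinr (x : Q) : (pfst P Q).f ((pinr P Q).f x) = 0 := rfl
theorem psnd_pinr (x : Q) : (psnd P Q).f ((pinr P Q).f x) = x := rfl
theorem pinl_add_pinr (x : BMod.prod P Q) :
    (pinl P Q).f ((pfst P Q).f x) + (pinr P Q).f ((psnd P Q).f x) = x := by
  have h : ∀ x : P × Q, ((x.1, 0) : P × Q) + (0, x.2) = x := fun x => by ext <;> simp
  exact h x

variable {P Q}

theorem prod_ext {x y : BMod.prod P Q} (h1 : (pfst P Q).f x = (pfst P Q).f y)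
    (h2 : (psnd P Q).f x = (psnd P Q).f y) : x = y := by
  rw [← pinl_add_pinr P Q x, ← pinl_add_pinr P Q y, h1, h2]

end Prod

section Map2

variable {F F' : BMod B C}

/-- Functoriality of the tensor product in the second variable. -/
noncomputable def tmap₂ (M : BMod C B) (g : BMod.Hom F F') : Tens M F →L[ℂ] Tens M F' :=
  Tens.lift ((tmk M F').compl₂ g.f.toLinearMap) (compl₂_cont (tmk_cont M F') g.f.continuous)
    (fun b m x => by
      rw [LinearMap.compl₂_apply, LinearMap.compl₂_apply, ContinuousLinearMap.coe_coe, g.map_l,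
        tmk_r])
    (fun c m x => by
      rw [LinearMap.compl₂_apply, LinearMap.compl₂_apply, ContinuousLinearMap.coe_coe, g.map_r,
        tmk_l])

theorem tmap₂_mk (M : BMod C B) (g : BMod.Hom F F') (m : M) (x : F) :
    tmap₂ M g (tmk M F m x) = tmk M F' m (g.f x) := by
  rw [tmap₂, tlift_mk]; rfl

theorem tens_ext {M : BMod C B} {G : Type*} [AddCommGroup G] [Module ℂ G] [UniformSpace G]
    [T2Space G] {f g : Tens M F →L[ℂ] G} (h : ∀ m x, f (tmk M F m x) = g (tmk M F m x))
    (w : Tens M F) : f w = g w := QT.ext_apply h w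

theorem tmap₂_natural {M N : BMod C B} (f : BMod.Hom M N) (g : BMod.Hom F F') (w : Tens M F) :
    tmap₂ N g (Tens.map f F w) = Tens.map f F' (tmap₂ M g w) := by
  refine tens_ext (f := (tmap₂ N g).comp (Tens.map f F))
    (g := (Tens.map f F').comp (tmap₂ M g)) (fun m x => ?_) w
  rw [ContinuousLinearMap.comp_apply, ContinuousLinearMap.comp_apply, tmap_mk, tmap₂_mk, tmap₂_mk,
    tmap_mk]

/-- The direct sum of two flat bimodules is flat. -/
theorem Flat.prod {P Q : BMod B C} (hP : Flat P) (hQ : Flat Q) : Flat (BMod.prod P Q) := by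
  have key : ∀ (M : BMod C B) (w : Tens M (BMod.prod P Q)),
      tmap₂ M (pinl P Q) (tmap₂ M (pfst P Q) w) + tmap₂ M (pinr P Q) (tmap₂ M (psnd P Q) w) = w := by
    intro M w
    refine tens_ext (f := (tmap₂ M (pinl P Q)).comp (tmap₂ M (pfst P Q)) +
      (tmap₂ M (pinr P Q)).comp (tmap₂ M (psnd P Q))) (g := ContinuousLinearMap.id ℂ _)
      (fun m x => ?_) w
    rw [_root_.add_apply, ContinuousLinearMap.comp_apply, ContinuousLinearMap.comp_apply, tmap₂_mk,
      tmap₂_mk, tmap₂_mk, tmap₂_mk, ← map_add, pinl_add_pinr]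
    rfl
  refine Flat.of_ses fun L M N i p S => ⟨?_, ?_, ?_⟩
  · rw [injective_iff_map_eq_zero]
    intro w hw
    have h1 : tmap₂ L (pfst P Q) w = 0 := hP.injective S (by
      rw [← tmap₂_natural, hw, map_zero, map_zero])
    have h2 : tmap₂ L (psnd P Q) w = 0 := hQ.injective S (by
      rw [← tmap₂_natural, hw, map_zero, map_zero])
    rw [← key L w, h1, h2, map_zero, map_zero, add_zero]
  · intro w
    constructor
    · intro hw
      have h1 : Tens.map p P (tmap₂ M (pfst P Q) w) = 0 := by
        rw [← tmap₂_natural, hw, map_zero]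
      have h2 : Tens.map p Q (tmap₂ M (psnd P Q) w) = 0 := by
        rw [← tmap₂_natural, hw, map_zero]
      obtain ⟨v1, hv1⟩ := (hP.exact S _).mp h1
      obtain ⟨v2, hv2⟩ := (hQ.exact S _).mp h2
      refine ⟨tmap₂ L (pinl P Q) v1 + tmap₂ L (pinr P Q) v2, ?_⟩
      rw [map_add, ← tmap₂_natural, ← tmap₂_natural, hv1, hv2, key]
    · rintro ⟨v, rfl⟩
      rw [Tens.map_map]
      exact Tens.map_eq_zero _ (fun x => S.p_i x) v
  · intro w
    obtain ⟨v1, hv1⟩ := hP.surjective S (tmap₂ N (pfst P Q) w)
    obtain ⟨v2, hv2⟩ := hQ.surjective S (tmap₂ N (psnd P Q) w)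
    refine ⟨tmap₂ M (pinl P Q) v1 + tmap₂ M (pinr P Q) v2, ?_⟩
    rw [map_add, ← tmap₂_natural, ← tmap₂_natural, hv1, hv2, key]

/-- The zero bimodule is flat. -/
theorem flat_zero : Flat (BMod.zero B C) := by
  have h0 : ∀ (M : BMod C B) (w : Tens M (BMod.zero B C)), w = 0 := by
    intro M w
    refine tens_ext (f := ContinuousLinearMap.id ℂ _) (g := 0) (fun m x => ?_) w
    rw [Subsingleton.elim x 0, map_zero]
    rfl
  intro K i w
  constructor
  · intro _
    exact ⟨0, by rw [h0 _ w, map_zero]⟩
  · intro _
    exact h0 _ _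

end Map2

end Pool.Agent.FrHom
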