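import Pool.Agent.Lib.MP_afeff1_an.Cover

/-!
# Natural isomorphisms between iterated tensor products
-/

set_option autoImplicit false
set_option linter.unusedSectionVars false
set_option linter.unusedVariables false

open scoped TensorProduct Topology Uniformity
open Filter UniformSpace

namespace Pool.Agent.FrHom

universe u

variable {B C : Type u} [NonUnitalRing B] [Module ℂ B] [UniformSpace B] [FrechetAlgebra B]
  [NonUnitalRing C] [Module ℂ C] [UniformSpace C] [FrechetAlgebra C]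

/-- Elementary tensors in `Tens M F`. -/
noncomputable def tmk (M : BMod C B) (F : BMod B C) : M →ₗ[ℂ] F →ₗ[ℂ] Tens M F := QT.mk

theorem tmk_cont (M : BMod C B) (F : BMod B C) :
    Continuous fun z : M × F => tmk M F z.1 z.2 := QT.continuous_mk

theorem tmk_r (M : BMod C B) (F : BMod B C) (b : B) (m : M) (x : F) :
    tmk M F (M.r b m) x = tmk M F m (F.l b x) := Tens.mk_r M F b m x

theorem tmk_l (M : BMod C B) (F : BMod B C) (c : C) (m : M) (x : F) :
    tmk M F (M.l c m) x = tmk M F m (F.r c x) := Tens.mk_l M F c m x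

theorem tmap_mk {M M' : BMod C B} (f : BMod.Hom M M') (F : BMod B C) (m : M) (x : F) :
    Tens.map f F (tmk M F m x) = tmk M' F (f.f m) x := Tens.map_mk f F m x

theorem tlift_mk {M : BMod C B} {F : BMod B C} {G : Type u} [AddCommGroup G] [Module ℂ G]
    [UniformSpace G] [FrechetSpace G] (β : M →ₗ[ℂ] F →ₗ[ℂ] G)
    (hβ : Continuous fun z : M × F => β z.1 z.2)
    (h1 : ∀ b m x, β (M.r b m) x = β m (F.l b x)) (h2 : ∀ c m x, β (M.l c m) x = β m (F.r c x))
    (m : M) (x : F) : Tens.lift β hβ h1 h2 (tmk M F m x) = β m x := Tens.lift_mk β hβ h1 h2 m x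

section

variable {N N' : BMod C B} {Y : BMod Z C} {X : BMod B Z}

/-- The functor `N ↦ (Y ⊗̂_C N) ⊗̂_B X`. -/
abbrev FT (N : BMod C B) (Y : BMod Z C) (X : BMod B Z) : Type u := Tens (compMod N Y) X

/-- Elementary tensors in `FT N Y X`. -/
noncomputable def fmk (N : BMod C B) (Y : BMod Z C) (X : BMod B Z) (n : N) (y : Y) (x : X) :
    FT N Y X := tmk (compMod N Y) X (kmk N Y n y) x

theorem FT_ext {G : Type*} [AddCommGroup G] [Module ℂ G] [UniformSpace G] [T2Space G]
    {f g : FT N Y X →L[ℂ] G} (h : ∀ n y x, f (fmk N Y X n y x) = g (fmk N Y X n y x))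
    (w : FT N Y X) : f w = g w := by
  refine QT.ext_apply (fun v x => ?_) w
  have hc : Continuous ((tmk (compMod N Y) X).flip x) :=
    fix_cont (flip_cont (tmk_cont (compMod N Y) X)) x
  exact kext (f := f.toLinearMap ∘ₗ (tmk (compMod N Y) X).flip x)
    (g := g.toLinearMap ∘ₗ (tmk (compMod N Y) X).flip x)
    (f.continuous.comp hc) (g.continuous.comp hc) (fun n y => h n y x) v

/-- Elementary tensors in `FT (cov N) Y X`. -/
noncomputable def fcmk (N : BMod C B) (Y : BMod Z C) (X : BMod B Z) (n : N) (u : unitization B)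
    (y : Y) (x : X) : FT (cov N) Y X := fmk (cov N) Y X (omk N (unitization B) n u) y x

theorem FTcov_ext {G : Type*} [AddCommGroup G] [Module ℂ G] [UniformSpace G] [T2Space G]
    {f g : FT (cov N) Y X →L[ℂ] G} (h : ∀ n u y x, f (fcmk N Y X n u y x) = g (fcmk N Y X n u y x))
    (w : FT (cov N) Y X) : f w = g w := by
  refine FT_ext (fun v y x => ?_) w
  have hc1 : Continuous ((kmk (cov N) Y).flip y) := fix_cont (flip_cont (kmk_cont (cov N) Y)) y
  have hc2 : Continuous ((tmk (compMod (cov N) Y) X).flip x) :=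
    fix_cont (flip_cont (tmk_cont (compMod (cov N) Y) X)) x
  exact outer_ext (f := f.toLinearMap ∘ₗ (tmk (compMod (cov N) Y) X).flip x ∘ₗ
      (kmk (cov N) Y).flip y)
    (g := g.toLinearMap ∘ₗ (tmk (compMod (cov N) Y) X).flip x ∘ₗ (kmk (cov N) Y).flip y)
    (f.continuous.comp (hc2.comp hc1)) (g.continuous.comp (hc2.comp hc1))
    (fun n u => h n u y x) v

/-- The map induced by a morphism. -/
noncomputable def FTm (f : BMod.Hom N N') (Y : BMod Z C) (X : BMod B Z) :
    FT N Y X →L[ℂ] FT N' Y X := Tens.map (kmap f Y) X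

theorem FTm_mk (f : BMod.Hom N N') (n : N) (y : Y) (x : X) :
    FTm f Y X (fmk N Y X n y x) = fmk N' Y X (f.f n) y x := by
  rw [FTm, fmk, tmap_mk, kmap_f_mk, fmk]

/-! ### `FT (cov N) Y X ≃ (N ⊗̂ X) ⊗̂_C Y` -/

/-- `(x, n ⊗ u) ↦ n ⊗ u x`. -/
noncomputable def phi (N : BMod C B) (X : BMod B Z) : X →ₗ[ℂ] cov N →ₗ[ℂ] outer N X :=
  oplift (P := N) (Q := unitization B) (tri2 (uact X.l).flip (omk N X))
    (tri2_cont (flip_cont (uact_cont X.l_cont)) (omk_cont N X))

theorem phi_mk (x : X) (n : N) (u : unitization B) :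
    phi N X x (omk N (unitization B) n u) = omk N X n (uact X.l u x) := by
  rw [phi, oplift_mk, tri2_apply, LinearMap.flip_apply]

theorem phi_cont (N : BMod C B) (X : BMod B Z) : Continuous fun z : X × cov N => phi N X z.1 z.2 :=
  oplift_cont (P := N) (Q := unitization B) (tri2 (uact X.l).flip (omk N X))
    (tri2_cont (flip_cont (uact_cont X.l_cont)) (omk_cont N X))

theorem phi_l (x : X) (c : C) (w : cov N) :
    phi N X x ((cov N).l c w) = (outer N X).l c (phi N X x w) := by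
  refine outer_ext (f := phi N X x ∘ₗ (cov N).l c) (g := (outer N X).l c ∘ₗ phi N X x)
    ((fix_cont (phi_cont N X) x).comp (BMod.l_cont' _ c))
    ((BMod.l_cont' _ c).comp (fix_cont (phi_cont N X) x)) (fun n u => ?_) w
  rw [LinearMap.comp_apply, LinearMap.comp_apply, outer_l, phi_mk, phi_mk, outer_l]

theorem phi_r (x : X) (b : B) (w : cov N) :
    phi N X x ((cov N).r b w) = phi N X (X.l b x) w := by
  refine outer_ext (f := phi N X x ∘ₗ (cov N).r b) (g := phi N X (X.l b x))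
    ((fix_cont (phi_cont N X) x).comp (BMod.r_cont' _ b))
    (fix_cont (phi_cont N X) _) (fun n u => ?_) w
  rw [LinearMap.comp_apply, outer_r, phi_mk, phi_mk, uact_l']

/-- The auxiliary trilinear map `(x, w, y) ↦ phi x w ⊗ y`. -/
noncomputable def PhiT (N : BMod C B) (Y : BMod Z C) (X : BMod B Z) :
    X →ₗ[ℂ] cov N →ₗ[ℂ] Y →ₗ[ℂ] Tens (outer N X) Y := tri1 (phi N X) (tmk (outer N X) Y)

theorem PhiT_cont (N : BMod C B) (Y : BMod Z C) (X : BMod B Z) :
    Continuous fun z : X × cov N × Y => PhiT N Y X z.1 z.2.1 z.2.2 :=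
  tri1_cont (phi_cont N X) (tmk_cont (outer N X) Y)

theorem PhiT_bal (x : X) (c : C) (w : cov N) (y : Y) :
    PhiT N Y X x ((cov N).l c w) y = PhiT N Y X x w (Y.r c y) := by
  rw [PhiT, tri1_apply, tri1_apply, phi_l, tmk_l]

/-- The auxiliary bilinear map. -/
noncomputable def PhiB (N : BMod C B) (Y : BMod Z C) (X : BMod B Z) :
    X →ₗ[ℂ] compMod (cov N) Y →ₗ[ℂ] Tens (outer N X) Y :=
  kplift (N := cov N) (PhiT N Y X) (PhiT_cont N Y X) PhiT_bal

theorem PhiB_mk (x : X) (w : cov N) (y : Y) :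
    PhiB N Y X x (kmk (cov N) Y w y) = tmk (outer N X) Y (phi N X x w) y := by
  rw [PhiB, kplift_mk, PhiT, tri1_apply]

theorem PhiB_cont (N : BMod C B) (Y : BMod Z C) (X : BMod B Z) :
    Continuous fun z : X × compMod (cov N) Y => PhiB N Y X z.1 z.2 :=
  kplift_cont (N := cov N) (PhiT N Y X) (PhiT_cont N Y X) PhiT_bal

theorem PhiB_r (x : X) (b : B) (v : compMod (cov N) Y) :
    PhiB N Y X x ((compMod (cov N) Y).r b v) = PhiB N Y X (X.l b x) v := by
  refine kext (f := PhiB N Y X x ∘ₗ (compMod (cov N) Y).r b) (g := PhiB N Y X (X.l b x))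
    ((fix_cont (PhiB_cont N Y X) x).comp (BMod.r_cont' _ b))
    (fix_cont (PhiB_cont N Y X) _) (fun w y => ?_) v
  rw [LinearMap.comp_apply, kmk_r, PhiB_mk, PhiB_mk, phi_r]

/-- The isomorphism `(Y ⊗̂_C (N ⊗̂ B₊)) ⊗̂_B X → (N ⊗̂ X) ⊗̂_C Y`. -/
noncomputable def Phi (N : BMod C B) (Y : BMod Z C) (X : BMod B Z) :
    FT (cov N) Y X →L[ℂ] Tens (outer N X) Y :=
  Tens.lift (PhiB N Y X).flip (flip_cont (PhiB_cont N Y X))
    (fun b v x => by rw [LinearMap.flip_apply, LinearMap.flip_apply, PhiB_r])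
    (fun z v x => by rw [l_punit, r_punit, map_zero, map_zero, LinearMap.zero_apply])

theorem Phi_mk (w : cov N) (y : Y) (x : X) :
    Phi N Y X (fmk (cov N) Y X w y x) = tmk (outer N X) Y (phi N X x w) y := by
  rw [Phi, fmk, tlift_mk, LinearMap.flip_apply, PhiB_mk]

theorem Phi_mk' (n : N) (u : unitization B) (y : Y) (x : X) :
    Phi N Y X (fcmk N Y X n u y x) = tmk (outer N X) Y (omk N X n (uact X.l u x)) y := by
  rw [fcmk, Phi_mk, phi_mk]

/-- `(y, n) ↦ y ⊗ (n ⊗ 1)`. -/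
noncomputable def psiA (N : BMod C B) (Y : BMod Z C) : Y →ₗ[ℂ] N →ₗ[ℂ] compMod (cov N) Y :=
  (kmk (cov N) Y ∘ₗ (sg N).toLinearMap).flip

theorem psiA_apply (y : Y) (n : N) : psiA N Y y n = kmk (cov N) Y (sg N n) y := rfl

theorem psiA_cont (N : BMod C B) (Y : BMod Z C) :
    Continuous fun z : Y × N => psiA N Y z.1 z.2 :=
  flip_cont (comp_cont (kmk_cont (cov N) Y) (sg N).continuous)

/-- The auxiliary bilinear map. -/
noncomputable def PsiB (N : BMod C B) (Y : BMod Z C) (X : BMod B Z) :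
    Y →ₗ[ℂ] outer N X →ₗ[ℂ] FT (cov N) Y X :=
  oplift (tri1 (psiA N Y) (tmk (compMod (cov N) Y) X))
    (tri1_cont (psiA_cont N Y) (tmk_cont (compMod (cov N) Y) X))

theorem PsiB_mk (y : Y) (n : N) (x : X) :
    PsiB N Y X y (omk N X n x) = fmk (cov N) Y X (sg N n) y x := by
  rw [PsiB, oplift_mk, tri1_apply, psiA_apply, fmk]

theorem PsiB_cont (N : BMod C B) (Y : BMod Z C) (X : BMod B Z) :
    Continuous fun z : Y × outer N X => PsiB N Y X z.1 z.2 :=
  oplift_cont (tri1 (psiA N Y) (tmk (compMod (cov N) Y) X))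
    (tri1_cont (psiA_cont N Y) (tmk_cont (compMod (cov N) Y) X))

theorem PsiB_l (y : Y) (c : C) (w : outer N X) :
    PsiB N Y X y ((outer N X).l c w) = PsiB N Y X (Y.r c y) w := by
  refine outer_ext (f := PsiB N Y X y ∘ₗ (outer N X).l c) (g := PsiB N Y X (Y.r c y))
    ((fix_cont (PsiB_cont N Y X) y).comp (BMod.l_cont' _ c))
    (fix_cont (PsiB_cont N Y X) _) (fun n x => ?_) w
  rw [LinearMap.comp_apply, outer_l, PsiB_mk, PsiB_mk, fmk, fmk, sg_l, kmk_bal]

/-- The inverse isomorphism `(N ⊗̂ X) ⊗̂_C Y → (Y ⊗̂_C (N ⊗̂ B₊)) ⊗̂_B X`. -/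
noncomputable def Psi (N : BMod C B) (Y : BMod Z C) (X : BMod B Z) :
    Tens (outer N X) Y →L[ℂ] FT (cov N) Y X :=
  Tens.lift (M := outer N X) (F := Y) (PsiB N Y X).flip (flip_cont (PsiB_cont N Y X))
    (fun z v x => by rw [l_punit, r_punit, map_zero, map_zero, LinearMap.zero_apply])
    (fun c w y => by rw [LinearMap.flip_apply, LinearMap.flip_apply, PsiB_l])

theorem Psi_mk (n : N) (x : X) (y : Y) :
    Psi N Y X (tmk (outer N X) Y (omk N X n x) y) = fmk (cov N) Y X (sg N n) y x := by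
  rw [Psi, tlift_mk, LinearMap.flip_apply, PsiB_mk]

theorem Phi_Psi (w : Tens (outer N X) Y) : Phi N Y X (Psi N Y X w) = w := by
  refine QT.ext_apply (f := (Phi N Y X).comp (Psi N Y X)) (g := ContinuousLinearMap.id ℂ _)
    (fun v y => ?_) w
  have hc : Continuous ((tmk (outer N X) Y).flip y) :=
    fix_cont (flip_cont (tmk_cont (outer N X) Y)) y
  refine outer_ext (f := (Phi N Y X).toLinearMap ∘ₗ (Psi N Y X).toLinearMap ∘ₗ
      (tmk (outer N X) Y).flip y) (g := (tmk (outer N X) Y).flip y)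
    ((Phi N Y X).continuous.comp ((Psi N Y X).continuous.comp hc)) hc (fun n x => ?_) v
  rw [LinearMap.comp_apply, LinearMap.comp_apply, LinearMap.flip_apply,
    ContinuousLinearMap.coe_coe, ContinuousLinearMap.coe_coe, Psi_mk, Phi_mk, sg_apply, phi_mk,
    uact_uone]

theorem fcmk_eq (n : N) (u : unitization B) (y : Y) (x : X) :
    fcmk N Y X n u y x = fmk (cov N) Y X (sg N n) y (uact X.l u x) := by
  rw [fcmk, fmk, fmk, uact_apply]
  conv_lhs => rw [u_eq u]
  rw [map_add, map_add, LinearMap.add_apply, map_add, LinearMap.add_apply, map_add]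
  congr 1
  · rw [map_smul, map_smul, LinearMap.smul_apply, map_smul, LinearMap.smul_apply, map_smul,
      sg_apply]
  · rw [← tmk_r, kmk_r]
    have h : (cov N).r (usnd B u) (sg N n) = omk N (unitization B) n (uinr B (usnd B u)) := by
      rw [sg_apply, outer_r, u_r, ufst_uone, usnd_uone, zero_mul, add_zero, one_smul]
    rw [h]

theorem Psi_Phi (w : FT (cov N) Y X) : Psi N Y X (Phi N Y X w) = w := by
  refine FTcov_ext (f := (Psi N Y X).comp (Phi N Y X)) (g := ContinuousLinearMap.id ℂ _)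
    (fun n u y x => ?_) w
  rw [ContinuousLinearMap.comp_apply, Phi_mk', Psi_mk, fcmk_eq]
  rfl

theorem Phi_natural (f : BMod.Hom N N') (w : FT (cov N) Y X) :
    Phi N' Y X (FTm (covMap f) Y X w) = Tens.map (omap f X) Y (Phi N Y X w) := by
  refine FTcov_ext (f := (Phi N' Y X).comp (FTm (covMap f) Y X))
    (g := (Tens.map (omap f X) Y).comp (Phi N Y X)) (fun n u y x => ?_) w
  rw [ContinuousLinearMap.comp_apply, ContinuousLinearMap.comp_apply, Phi_mk', tmap_mk, fcmk,
    FTm_mk, covMap_mk, Phi_mk, phi_mk]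
  have h : (omap f X).f (omk N X n (uact X.l u x)) = omk N' X (f.f n) (uact X.l u x) :=
    omapL_mk f.f n _
  rw [h]

end

end Pool.Agent.FrHom
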