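import Pool.Agent.Lib.MP_afeff1_an.Iso

/-!
# The tensor product of a flat left module and a flat right module is a flat bimodule
-/

set_option autoImplicit false
set_option linter.unusedSectionVars false
set_option linter.unusedVariables false

open scoped TensorProduct Topology Uniformity
open Filter UniformSpace

namespace Pool.Agent.FrHom

universe u

variable {B C : Type u} [NonUnitalRing B] [Module ℂ B] [UniformSpace B] [FrechetAlgebra B]
  [NonUnitalRing C] [Module ℂ C] [UniformSpace C] [FrechetAlgebra C]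
  {Y : BMod Z C} {X : BMod B Z}

section Chase

variable {L M N : BMod C B} {i : BMod.Hom L M} {p : BMod.Hom M N}

theorem FTm_FTm (f : BMod.Hom L M) (g : BMod.Hom M N) (w : FT L Y X) :
    FTm g Y X (FTm f Y X w) = FTm (g.comp f) Y X w := by
  refine FT_ext (f := (FTm g Y X).comp (FTm f Y X)) (g := FTm (g.comp f) Y X)
    (fun n y x => ?_) w
  rw [ContinuousLinearMap.comp_apply, FTm_mk, FTm_mk, FTm_mk]
  rfl

theorem FTm_congr {f g : BMod.Hom L M} (h : ∀ x, f.f x = g.f x) (w : FT L Y X) :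
    FTm f Y X w = FTm g Y X w := by
  refine FT_ext (fun n y x => ?_) w
  rw [FTm_mk, FTm_mk, h]

theorem FTm_zero {f : BMod.Hom L M} (h : ∀ x, f.f x = 0) (w : FT L Y X) :
    FTm f Y X w = 0 := by
  refine FT_ext (g := 0) (fun n y x => ?_) w
  rw [FTm_mk, h, fmk, map_zero, LinearMap.zero_apply, map_zero]
  rfl

/-- The sequence `0 → F (Ω N) → F (N ⊗̂ B₊) → F N → 0` is exact if `X` is flat. -/
theorem F1 (hX : Flat X) (N : BMod C B) :
    Function.Injective (FTm (inc N) Y X) ∧ Function.Exact (FTm (inc N) Y X) (FTm (mu N) Y X) ∧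
      Function.Surjective (FTm (mu N) Y X) := by
  have S := (covSES N).comp (sg_l N) (rho_l N) Y
  exact ⟨hX.injective S, hX.exact S, hX.surjective S⟩

/-- The functor `N ↦ F (N ⊗̂ B₊)` is exact on split short exact sequences if `Y` is flat. -/
theorem F2 (hY : Flat Y) (S : SES i p) :
    Function.Injective (FTm (covMap i) Y X) ∧
      Function.Exact (FTm (covMap i) Y X) (FTm (covMap p) Y X) ∧
      Function.Surjective (FTm (covMap p) Y X) := by
  have T := S.outer X
  have h1 := hY.injective T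
  have h2 := hY.exact T
  have h3 := hY.surjective T
  refine ⟨?_, ?_, ?_⟩
  · intro v w hvw
    have h := congrArg (Phi M Y X) hvw
    rw [Phi_natural, Phi_natural] at h
    have h4 := h1 h
    have h5 := congrArg (Psi L Y X) h4
    rwa [Psi_Phi, Psi_Phi] at h5
  · intro w
    constructor
    · intro hw
      have h := congrArg (Phi N Y X) hw
      rw [Phi_natural, map_zero] at h
      obtain ⟨v, hv⟩ := (h2 _).mp h
      refine ⟨Psi L Y X v, ?_⟩
      have h5 := congrArg (Psi M Y X) (Phi_natural i (Psi L Y X v))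
      rw [Psi_Phi, Phi_Psi, hv, Psi_Phi] at h5
      exact h5
    · rintro ⟨v, rfl⟩
      rw [FTm_FTm]
      exact FTm_zero (fun x => (S.outer (unitization B)).p_i x) v
  · intro w
    obtain ⟨v, hv⟩ := h3 (Phi N Y X w)
    refine ⟨Psi M Y X v, ?_⟩
    have h5 := congrArg (Psi N Y X) (Phi_natural p (Psi M Y X v))
    rw [Psi_Phi, Phi_Psi, hv, Psi_Phi] at h5
    exact h5

theorem sqmu (f : BMod.Hom L M) (w : FT (cov L) Y X) :
    FTm (mu M) Y X (FTm (covMap f) Y X w) = FTm f Y X (FTm (mu L) Y X w) := by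
  rw [FTm_FTm, FTm_FTm]
  exact FTm_congr (fun x => mu_covMap f x) w

theorem sqinc (f : BMod.Hom L M) (w : FT (Om L) Y X) :
    FTm (inc M) Y X (FTm (omMap f) Y X w) = FTm (covMap f) Y X (FTm (inc L) Y X w) := by
  rw [FTm_FTm, FTm_FTm]
  exact FTm_congr (fun x => rfl) w

theorem FT_surj (hX : Flat X) (hY : Flat Y) (S : SES i p) :
    Function.Surjective (FTm p Y X) := by
  intro w
  obtain ⟨v, rfl⟩ := (F1 (Y := Y) hX N).2.2 w
  obtain ⟨t, rfl⟩ := (F2 (X := X) hY S).2.2 v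
  exact ⟨FTm (mu M) Y X t, (sqmu p t).symm⟩

theorem FT_zero (S : SES i p) (w : FT L Y X) : FTm p Y X (FTm i Y X w) = 0 := by
  rw [FTm_FTm]
  exact FTm_zero (fun x => S.p_i x) w

theorem FT_exact (hX : Flat X) (hY : Flat Y) (S : SES i p) :
    Function.Exact (FTm i Y X) (FTm p Y X) := by
  intro w
  constructor
  · intro hw
    obtain ⟨t, rfl⟩ := (F1 (Y := Y) hX M).2.2 w
    rw [← sqmu] at hw
    obtain ⟨v, hv⟩ := ((F1 (Y := Y) hX N).2.1 _).mp hw
    obtain ⟨v', rfl⟩ := FT_surj hX hY S.om v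
    have h1 : FTm (covMap p) Y X (t - FTm (inc M) Y X v') = 0 := by
      rw [map_sub, ← sqinc, hv, sub_self]
    obtain ⟨r, hr⟩ := ((F2 (X := X) hY S).2.1 _).mp h1
    refine ⟨FTm (mu L) Y X r, ?_⟩
    rw [← sqmu, hr, map_sub, ((F1 (Y := Y) hX M).2.1 _).mpr ⟨v', rfl⟩, sub_zero]
  · rintro ⟨v, rfl⟩
    exact FT_zero S v

theorem FT_inj (hX : Flat X) (hY : Flat Y) (S : SES i p) :
    Function.Injective (FTm i Y X) := by
  rw [injective_iff_map_eq_zero]
  intro w hw
  obtain ⟨t, rfl⟩ := (F1 (Y := Y) hX L).2.2 w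
  rw [← sqmu] at hw
  obtain ⟨v, hv⟩ := ((F1 (Y := Y) hX M).2.1 _).mp hw
  have h1 : FTm (inc N) Y X (FTm (omMap p) Y X v) = 0 := by
    rw [sqinc, hv]
    exact ((F2 (X := X) hY S).2.1 _).mpr ⟨t, rfl⟩
  have h2 : FTm (omMap p) Y X v = 0 := (F1 (Y := Y) hX N).1 (by rw [h1, map_zero])
  obtain ⟨v', rfl⟩ := (FT_exact hX hY S.om v).mp h2
  rw [sqinc] at hv
  have h3 := (F2 (X := X) hY S).1 hv
  rw [← h3]
  exact ((F1 (Y := Y) hX L).2.1 _).mpr ⟨v', rfl⟩

end Chase

/-! ### `N ⊗̂_{B-C} (X ⊗̂ Y) ≃ (Y ⊗̂_C N) ⊗̂_B X` -/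

section Iso1

variable {N N' : BMod C B}

/-- The auxiliary bilinear map. -/
noncomputable def ThB (N : BMod C B) (Y : BMod Z C) (X : BMod B Z) :
    N →ₗ[ℂ] outer X Y →ₗ[ℂ] FT N Y X :=
  oplift (tri2 (kmk N Y) (tmk (compMod N Y) X).flip)
    (tri2_cont (kmk_cont N Y) (flip_cont (tmk_cont (compMod N Y) X)))

theorem ThB_mk (n : N) (x : X) (y : Y) : ThB N Y X n (omk X Y x y) = fmk N Y X n y x := by
  rw [ThB, oplift_mk, tri2_apply, LinearMap.flip_apply, fmk]

theorem ThB_cont (N : BMod C B) (Y : BMod Z C) (X : BMod B Z) :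
    Continuous fun z : N × outer X Y => ThB N Y X z.1 z.2 :=
  oplift_cont (tri2 (kmk N Y) (tmk (compMod N Y) X).flip)
    (tri2_cont (kmk_cont N Y) (flip_cont (tmk_cont (compMod N Y) X)))

theorem ThB_r (b : B) (n : N) (w : outer X Y) :
    ThB N Y X (N.r b n) w = ThB N Y X n ((outer X Y).l b w) := by
  refine outer_ext (f := ThB N Y X (N.r b n)) (g := ThB N Y X n ∘ₗ (outer X Y).l b)
    (fix_cont (ThB_cont N Y X) _) ((fix_cont (ThB_cont N Y X) _).comp (BMod.l_cont' _ b))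
    (fun x y => ?_) w
  rw [LinearMap.comp_apply, outer_l, ThB_mk, ThB_mk, fmk, fmk, ← kmk_r, tmk_r]

theorem ThB_l (c : C) (n : N) (w : outer X Y) :
    ThB N Y X (N.l c n) w = ThB N Y X n ((outer X Y).r c w) := by
  refine outer_ext (f := ThB N Y X (N.l c n)) (g := ThB N Y X n ∘ₗ (outer X Y).r c)
    (fix_cont (ThB_cont N Y X) _) ((fix_cont (ThB_cont N Y X) _).comp (BMod.r_cont' _ c))
    (fun x y => ?_) w
  rw [LinearMap.comp_apply, outer_r, ThB_mk, ThB_mk, fmk, fmk, kmk_bal]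

/-- The isomorphism `N ⊗̂_{B-C} (X ⊗̂ Y) → (Y ⊗̂_C N) ⊗̂_B X`. -/
noncomputable def Th (N : BMod C B) (Y : BMod Z C) (X : BMod B Z) :
    Tens N (outer X Y) →L[ℂ] FT N Y X :=
  Tens.lift (ThB N Y X) (ThB_cont N Y X) ThB_r ThB_l

theorem Th_mk (n : N) (x : X) (y : Y) :
    Th N Y X (tmk N (outer X Y) n (omk X Y x y)) = fmk N Y X n y x := by
  rw [Th, tlift_mk, ThB_mk]

/-- The auxiliary trilinear map. -/
noncomputable def UpT (N : BMod C B) (Y : BMod Z C) (X : BMod B Z) :
    X →ₗ[ℂ] N →ₗ[ℂ] Y →ₗ[ℂ] Tens N (outer X Y) := tri2 (omk X Y) (tmk N (outer X Y))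

theorem UpT_cont (N : BMod C B) (Y : BMod Z C) (X : BMod B Z) :
    Continuous fun z : X × N × Y => UpT N Y X z.1 z.2.1 z.2.2 :=
  tri2_cont (omk_cont X Y) (tmk_cont N (outer X Y))

theorem UpT_bal (x : X) (c : C) (n : N) (y : Y) :
    UpT N Y X x (N.l c n) y = UpT N Y X x n (Y.r c y) := by
  rw [UpT, tri2_apply, tri2_apply, tmk_l, outer_r]

/-- The auxiliary bilinear map. -/
noncomputable def UpB (N : BMod C B) (Y : BMod Z C) (X : BMod B Z) :
    X →ₗ[ℂ] compMod N Y →ₗ[ℂ] Tens N (outer X Y) :=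
  kplift (UpT N Y X) (UpT_cont N Y X) UpT_bal

theorem UpB_mk (x : X) (n : N) (y : Y) :
    UpB N Y X x (kmk N Y n y) = tmk N (outer X Y) n (omk X Y x y) := by
  rw [UpB, kplift_mk, UpT, tri2_apply]

theorem UpB_cont (N : BMod C B) (Y : BMod Z C) (X : BMod B Z) :
    Continuous fun z : X × compMod N Y => UpB N Y X z.1 z.2 :=
  kplift_cont (UpT N Y X) (UpT_cont N Y X) UpT_bal

theorem UpB_r (x : X) (b : B) (v : compMod N Y) :
    UpB N Y X x ((compMod N Y).r b v) = UpB N Y X (X.l b x) v := by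
  refine kext (f := UpB N Y X x ∘ₗ (compMod N Y).r b) (g := UpB N Y X (X.l b x))
    ((fix_cont (UpB_cont N Y X) x).comp (BMod.r_cont' _ b))
    (fix_cont (UpB_cont N Y X) _) (fun n y => ?_) v
  rw [LinearMap.comp_apply, kmk_r, UpB_mk, UpB_mk, tmk_r, outer_l]

/-- The inverse isomorphism. -/
noncomputable def Up (N : BMod C B) (Y : BMod Z C) (X : BMod B Z) :
    FT N Y X →L[ℂ] Tens N (outer X Y) :=
  Tens.lift (M := compMod N Y) (F := X) (UpB N Y X).flip (flip_cont (UpB_cont N Y X))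
    (fun b v x => by rw [LinearMap.flip_apply, LinearMap.flip_apply, UpB_r])
    (fun z v x => by rw [l_punit, r_punit, map_zero, map_zero, LinearMap.zero_apply])

theorem Up_mk (n : N) (y : Y) (x : X) :
    Up N Y X (fmk N Y X n y x) = tmk N (outer X Y) n (omk X Y x y) := by
  rw [Up, fmk, tlift_mk, LinearMap.flip_apply, UpB_mk]

theorem Th_Up (w : FT N Y X) : Th N Y X (Up N Y X w) = w := by
  refine FT_ext (f := (Th N Y X).comp (Up N Y X)) (g := ContinuousLinearMap.id ℂ _)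
    (fun n y x => ?_) w
  rw [ContinuousLinearMap.comp_apply, Up_mk, Th_mk]
  rfl

theorem tens_outer_ext {G : Type*} [AddCommGroup G] [Module ℂ G] [UniformSpace G] [T2Space G]
    {f g : Tens N (outer X Y) →L[ℂ] G}
    (h : ∀ n x y, f (tmk N (outer X Y) n (omk X Y x y)) = g (tmk N (outer X Y) n (omk X Y x y)))
    (w : Tens N (outer X Y)) : f w = g w := by
  refine QT.ext_apply (fun n v => ?_) w
  have hc : Continuous (tmk N (outer X Y) n) := fix_cont (tmk_cont N (outer X Y)) n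
  exact outer_ext (f := f.toLinearMap ∘ₗ tmk N (outer X Y) n)
    (g := g.toLinearMap ∘ₗ tmk N (outer X Y) n)
    (f.continuous.comp hc) (g.continuous.comp hc) (fun x y => h n x y) v

theorem Up_Th (w : Tens N (outer X Y)) : Up N Y X (Th N Y X w) = w := by
  refine tens_outer_ext (f := (Up N Y X).comp (Th N Y X)) (g := ContinuousLinearMap.id ℂ _)
    (fun n x y => ?_) w
  rw [ContinuousLinearMap.comp_apply, Th_mk, Up_mk]
  rfl

theorem Th_natural (f : BMod.Hom N N') (w : Tens N (outer X Y)) :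
    Th N' Y X (Tens.map f (outer X Y) w) = FTm f Y X (Th N Y X w) := by
  refine tens_outer_ext (f := (Th N' Y X).comp (Tens.map f (outer X Y)))
    (g := (FTm f Y X).comp (Th N Y X)) (fun n x y => ?_) w
  rw [ContinuousLinearMap.comp_apply, ContinuousLinearMap.comp_apply, Th_mk, tmap_mk, Th_mk,
    FTm_mk]

end Iso1

/-- **Key theorem.** Let `X` be a flat left Fréchet `B`-module and `Y` a flat right Fréchet
`C`-module. Then `X ⊗̂ Y` is a flat Fréchet `B`-`C`-bimodule. -/
theorem flat_outer (hX : Flat X) (hY : Flat Y) : Flat (outer X Y) := by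
  refine Flat.of_ses fun L M N i p S => ⟨?_, ?_, ?_⟩
  · intro v w hvw
    have h := congrArg (Th M Y X) hvw
    rw [Th_natural, Th_natural] at h
    have h5 := congrArg (Up L Y X) (FT_inj hX hY S h)
    rwa [Up_Th, Up_Th] at h5
  · intro w
    constructor
    · intro hw
      have h := congrArg (Th N Y X) hw
      rw [Th_natural, map_zero] at h
      obtain ⟨v, hv⟩ := (FT_exact hX hY S _).mp h
      refine ⟨Up L Y X v, ?_⟩
      have h5 := congrArg (Up M Y X) (Th_natural i (Up L Y X v))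
      rw [Up_Th, Th_Up, hv, Up_Th] at h5
      exact h5
    · rintro ⟨v, rfl⟩
      rw [Tens.map_map]
      exact Tens.map_eq_zero _ (fun x => S.p_i x) v
  · intro w
    obtain ⟨v, hv⟩ := FT_surj hX hY S (Th N Y X w)
    refine ⟨Up M Y X v, ?_⟩
    have h5 := congrArg (Up N Y X) (Th_natural p (Up M Y X v))
    rw [Up_Th, Th_Up, hv, Up_Th] at h5
    exact h5

end Pool.Agent.FrHom
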