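import Pool.Agent.Lib.MP_afeff1_an.Resol

/-!
# The weak bidimension of a biflat algebra is at most two
-/

set_option autoImplicit false
set_option linter.unusedSectionVars false
set_option linter.unusedVariables false

open scoped TensorProduct Topology Uniformity
open Filter UniformSpace

namespace Pool.Agent.FrHom

universe u

variable (A : Type u) [NonUnitalRing A] [Module ℂ A] [UniformSpace A] [FrechetAlgebra A]

/-- `A` as a left module. -/
noncomputable abbrev AL : BMod A Z := forgetR (regular A)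
/-- `A` as a right module. -/
noncomputable abbrev AR : BMod Z A := forgetL (regular A)
/-- `A₊` as a left module. -/
noncomputable abbrev UL : BMod A Z := forgetR (unitization A)
/-- `A₊` as a right module. -/
noncomputable abbrev UR : BMod Z A := forgetL (unitization A)

/-- The term of degree zero: `A ⊕ (A₊ ⊗̂ A₊)`. -/
noncomputable abbrev R0 : BMod A A := BMod.prod (regular A) (outer (UL A) (UR A))
/-- The term of degree one: `(A ⊗̂ A₊) ⊕ (A₊ ⊗̂ A)`. -/
noncomputable abbrev R1 : BMod A A := BMod.prod (outer (AL A) (UR A)) (outer (UL A) (AR A))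
/-- The term of degree two: `A ⊗̂ A`. -/
noncomputable abbrev R2 : BMod A A := outer (AL A) (AR A)

/-- `A ⊗̂ A₊ → A₊ ⊗̂ A₊`. -/
noncomputable def jU : BMod.Hom (outer (AL A) (UR A)) (outer (UL A) (UR A)) :=
  omap (fR (iot A)) (UR A)
/-- `A₊ ⊗̂ A → A₊ ⊗̂ A₊`. -/
noncomputable def Uj : BMod.Hom (outer (UL A) (AR A)) (outer (UL A) (UR A)) :=
  omap' (UL A) (fL (iot A))
/-- `A ⊗̂ A → A ⊗̂ A₊`. -/
noncomputable def Aj : BMod.Hom (outer (AL A) (AR A)) (outer (AL A) (UR A)) :=
  omap' (AL A) (fL (iot A))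
/-- `A ⊗̂ A → A₊ ⊗̂ A`. -/
noncomputable def jA : BMod.Hom (outer (AL A) (AR A)) (outer (UL A) (AR A)) :=
  omap (fR (iot A)) (AR A)

/-- `a ⊗ v` -/
noncomputable def tAU (a : A) (v : unitization A) : outer (AL A) (UR A) := omk (AL A) (UR A) a v
/-- `u ⊗ v` -/
noncomputable def tUU (u v : unitization A) : outer (UL A) (UR A) := omk (UL A) (UR A) u v
/-- `u ⊗ b` -/
noncomputable def tUA (u : unitization A) (b : A) : outer (UL A) (AR A) := omk (UL A) (AR A) u b
/-- `a ⊗ b` -/
noncomputable def tAA (a b : A) : outer (AL A) (AR A) := omk (AL A) (AR A) a b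

variable {A}

theorem extAU {G : Type*} [AddCommGroup G] [Module ℂ G] [UniformSpace G] [T2Space G]
    {f g : outer (AL A) (UR A) →L[ℂ] G} (h : ∀ a v, f (tAU A a v) = g (tAU A a v))
    (w : outer (AL A) (UR A)) : f w = g w := outer_extL (P := AL A) (Q := UR A) h w
theorem extUU {G : Type*} [AddCommGroup G] [Module ℂ G] [UniformSpace G] [T2Space G]
    {f g : outer (UL A) (UR A) →L[ℂ] G} (h : ∀ a v, f (tUU A a v) = g (tUU A a v))
    (w : outer (UL A) (UR A)) : f w = g w := outer_extL (P := UL A) (Q := UR A) h w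
theorem extUA {G : Type*} [AddCommGroup G] [Module ℂ G] [UniformSpace G] [T2Space G]
    {f g : outer (UL A) (AR A) →L[ℂ] G} (h : ∀ a v, f (tUA A a v) = g (tUA A a v))
    (w : outer (UL A) (AR A)) : f w = g w := outer_extL (P := UL A) (Q := AR A) h w
theorem extAA {G : Type*} [AddCommGroup G] [Module ℂ G] [UniformSpace G] [T2Space G]
    {f g : outer (AL A) (AR A) →L[ℂ] G} (h : ∀ a v, f (tAA A a v) = g (tAA A a v))
    (w : outer (AL A) (AR A)) : f w = g w := outer_extL (P := AL A) (Q := AR A) h w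

theorem jU_t (a : A) (v : unitization A) : (jU A).f (tAU A a v) = tUU A (uinr A a) v :=
  omapL_mk (P := AL A) (P' := UL A) (Q := UR A) (fR (iot A)).f a v
theorem Uj_t (u : unitization A) (b : A) : (Uj A).f (tUA A u b) = tUU A u (uinr A b) :=
  omapR_mk (P := UL A) (Q := AR A) (Q' := UR A) (fL (iot A)).f u b
theorem Aj_t (a b : A) : (Aj A).f (tAA A a b) = tAU A a (uinr A b) :=
  omapR_mk (P := AL A) (Q := AR A) (Q' := UR A) (fL (iot A)).f a b
theorem jA_t (a b : A) : (jA A).f (tAA A a b) = tUA A (uinr A a) b :=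
  omapL_mk (P := AL A) (P' := UL A) (Q := AR A) (fR (iot A)).f a b

theorem tUU_add (u u' v : unitization A) : tUU A (u + u') v = tUU A u v + tUU A u' v := by
  have h := (omk (UL A) (UR A)).map_add₂ u u' v
  exact h
theorem tUU_add' (u v v' : unitization A) : tUU A u (v + v') = tUU A u v + tUU A u v' :=
  (omk (UL A) (UR A) u).map_add v v'
theorem tUU_smul (z : ℂ) (u v : unitization A) : tUU A (z • u) v = z • tUU A u v :=
  (omk (UL A) (UR A)).map_smul₂ z u v
theorem tUU_smul' (z : ℂ) (u v : unitization A) : tUU A u (z • v) = z • tUU A u v :=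
  (omk (UL A) (UR A) u).map_smul z v
theorem tUA_add (u u' : unitization A) (b : A) : tUA A (u + u') b = tUA A u b + tUA A u' b :=
  (omk (UL A) (AR A)).map_add₂ u u' b
theorem tUA_zero (b : A) : tUA A 0 b = 0 := (omk (UL A) (AR A)).map_zero₂ b

theorem ra_reg_t (a : A) (v : unitization A) :
    (ra (regular A)).f (tAU A a v) = ufst A v • a + a * usnd A v := ra_mk (regular A) a v
theorem la_reg_t (u : unitization A) (b : A) :
    (la (regular A)).f (tUA A u b) = ufst A u • b + usnd A u * b := la_mk (regular A) b u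
theorem la_uni_t (u v : unitization A) :
    (la (unitization A)).f (tUU A u v) =
      ufst A u • v + uinr A (ufst A v • usnd A u + usnd A u * usnd A v) :=
  la_mk (unitization A) v u

variable (A)

/-- The augmentation `(a, w) ↦ a + π w`. -/
noncomputable def Reps : BMod.Hom (R0 A) (unitization A) := copair (iot A) (la (unitization A))

/-- The differential in degree zero. -/
noncomputable def Rd0 : BMod.Hom (R1 A) (R0 A) :=
  pair (copair (ra (regular A)).neg (la (regular A)).neg) (copair (jU A) (Uj A))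

/-- The differential in degree one. -/
noncomputable def Rd1 : BMod.Hom (R2 A) (R1 A) := pair (Aj A) (jA A).neg

/-- The map `u ↦ χ(u) 1 ⊗ 1`. -/
noncomputable def Rone : unitization A →L[ℂ] outer (UL A) (UR A) where
  toLinearMap := (ufst A).smulRight (tUU A (uone A) (uone A))
  cont := by
    have h : Continuous fun u : unitization A => ufst A u • tUU A (uone A) (uone A) :=
      (ufst_cont (B := A)).smul continuous_const
    exact h

theorem Rone_apply (u : unitization A) : Rone A u = ufst A u • tUU A (uone A) (uone A) := rfl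

/-- The homotopy in degree minus one. -/
noncomputable def Rsig : unitization A →L[ℂ] R0 A :=
  ((pinl (regular A) (outer (UL A) (UR A))).f).comp (alp A) +
  ((pinr (regular A) (outer (UL A) (UR A))).f).comp (Rone A)

/-- `α ⊗ 1 : A₊ ⊗̂ A₊ → A ⊗̂ A₊`. -/
noncomputable def aU : outer (UL A) (UR A) →L[ℂ] outer (AL A) (UR A) :=
  omapL (P := UL A) (P' := AL A) (alp A) (UR A)

/-- `α ⊗ 1 : A₊ ⊗̂ A → A ⊗̂ A`. -/
noncomputable def aA : outer (UL A) (AR A) →L[ℂ] outer (AL A) (AR A) :=
  omapL (P := UL A) (P' := AL A) (alp A) (AR A)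

/-- `ηχ ⊗ α : A₊ ⊗̂ A₊ → A₊ ⊗̂ A`. -/
noncomputable def ea : outer (UL A) (UR A) →L[ℂ] outer (UL A) (AR A) :=
  (omapL (P := UL A) (P' := UL A) (ech A) (AR A)).comp
    (omapR (Q := UR A) (Q' := AR A) (UL A) (alp A))

variable {A}

theorem aU_t (u v : unitization A) : aU A (tUU A u v) = tAU A (usnd A u) v :=
  omapL_mk (P := UL A) (P' := AL A) (Q := UR A) (alp A) u v

theorem aA_t (u : unitization A) (b : A) : aA A (tUA A u b) = tAA A (usnd A u) b :=
  omapL_mk (P := UL A) (P' := AL A) (Q := AR A) (alp A) u b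

theorem ea_t (u v : unitization A) : ea A (tUU A u v) = tUA A (ech A u) (usnd A v) := by
  have h1 : omapR (Q := UR A) (Q' := AR A) (UL A) (alp A) (tUU A u v) = tUA A u (usnd A v) :=
    omapR_mk (P := UL A) (Q := UR A) (Q' := AR A) (alp A) u v
  have h2 : ∀ b : A, omapL (P := UL A) (P' := UL A) (ech A) (AR A) (tUA A u b) =
      tUA A (ech A u) b := fun b => omapL_mk (P := UL A) (P' := UL A) (Q := AR A) (ech A) u b
  rw [ea, ContinuousLinearMap.comp_apply, h1, h2]

variable (A)

/-- The homotopy in degree zero. -/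
noncomputable def Rs0 : R0 A →L[ℂ] R1 A :=
  ((pinl (outer (AL A) (UR A)) (outer (UL A) (AR A))).f).comp
    ((aU A).comp (psnd (regular A) (outer (UL A) (UR A))).f) +
  ((pinr (outer (AL A) (UR A)) (outer (UL A) (AR A))).f).comp
    ((ea A).comp (psnd (regular A) (outer (UL A) (UR A))).f)

/-- The homotopy in degree one. -/
noncomputable def Rs1 : R1 A →L[ℂ] R2 A :=
  -((aA A).comp (psnd (outer (AL A) (UR A)) (outer (UL A) (AR A))).f)

variable {A}

theorem Reps_f (x : R0 A) : (Reps A).f x =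
    (iot A).f ((pfst (regular A) (outer (UL A) (UR A))).f x) +
    (la (unitization A)).f ((psnd (regular A) (outer (UL A) (UR A))).f x) := rfl

theorem pfst_Rd0 (x : R1 A) : (pfst (regular A) (outer (UL A) (UR A))).f ((Rd0 A).f x) =
    -(ra (regular A)).f ((pfst (outer (AL A) (UR A)) (outer (UL A) (AR A))).f x) +
    -(la (regular A)).f ((psnd (outer (AL A) (UR A)) (outer (UL A) (AR A))).f x) := by
  rw [Rd0, pfst_pair, copair_f]
  rfl

theorem psnd_Rd0 (x : R1 A) : (psnd (regular A) (outer (UL A) (UR A))).f ((Rd0 A).f x) =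
    (jU A).f ((pfst (outer (AL A) (UR A)) (outer (UL A) (AR A))).f x) +
    (Uj A).f ((psnd (outer (AL A) (UR A)) (outer (UL A) (AR A))).f x) := by
  rw [Rd0, psnd_pair, copair_f]

theorem pfst_Rd1 (x : R2 A) : (pfst (outer (AL A) (UR A)) (outer (UL A) (AR A))).f ((Rd1 A).f x) =
    (Aj A).f x := by
  rw [Rd1, pfst_pair]

theorem psnd_Rd1 (x : R2 A) : (psnd (outer (AL A) (UR A)) (outer (UL A) (AR A))).f ((Rd1 A).f x) =
    -(jA A).f x := by
  rw [Rd1, psnd_pair]
  rfl

theorem pfst_Rsig (u : unitization A) :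
    (pfst (regular A) (outer (UL A) (UR A))).f (Rsig A u) = usnd A u := by
  have h : (usnd A u + 0 : A) = usnd A u := add_zero _
  exact h

theorem pfst_Rsig' (u : unitization A) :
    (pfst (regular A) (outer (UL A) (UR A))).f (Rsig A u) = alp A u := pfst_Rsig u

theorem alp_iot' (a : regular A) : alp A ((iot A).f a) = a := rfl

theorem Rone_iot (a : regular A) : Rone A ((iot A).f a) = 0 := by
  have h : ∀ a : A, Rone A (uinr A a) = 0 := fun a => by
    rw [Rone_apply, ufst_uinr, zero_smul]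
  exact h a

theorem psnd_Rsig (u : unitization A) :
    (psnd (regular A) (outer (UL A) (UR A))).f (Rsig A u) = Rone A u := by
  have h : (psnd (regular A) (outer (UL A) (UR A))).f (Rsig A u) = 0 + Rone A u := rfl
  rw [h, zero_add]

theorem pfst_Rs0 (x : R0 A) : (pfst (outer (AL A) (UR A)) (outer (UL A) (AR A))).f (Rs0 A x) =
    aU A ((psnd (regular A) (outer (UL A) (UR A))).f x) := by
  have h : (pfst (outer (AL A) (UR A)) (outer (UL A) (AR A))).f (Rs0 A x) =
    aU A ((psnd (regular A) (outer (UL A) (UR A))).f x) + 0 := rfl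
  rw [h, add_zero]

theorem psnd_Rs0 (x : R0 A) : (psnd (outer (AL A) (UR A)) (outer (UL A) (AR A))).f (Rs0 A x) =
    ea A ((psnd (regular A) (outer (UL A) (UR A))).f x) := by
  have h : (psnd (outer (AL A) (UR A)) (outer (UL A) (AR A))).f (Rs0 A x) =
    0 + ea A ((psnd (regular A) (outer (UL A) (UR A))).f x) := rfl
  rw [h, zero_add]

theorem Rs1_apply (x : R1 A) : Rs1 A x =
    -(aA A ((psnd (outer (AL A) (UR A)) (outer (UL A) (AR A))).f x)) := rfl

theorem jU_natural (w : outer (AL A) (UR A)) :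
    (la (unitization A)).f ((jU A).f w) = (iot A).f ((ra (regular A)).f w) := by
  rw [← ra_eq_la]
  exact ra_natural (iot A) w

theorem Uj_natural (w : outer (UL A) (AR A)) :
    (la (unitization A)).f ((Uj A).f w) = (iot A).f ((la (regular A)).f w) :=
  la_natural (iot A) w

theorem Reps_Rd0 (x : R1 A) : (Reps A).f ((Rd0 A).f x) = 0 := by
  rw [Reps_f, pfst_Rd0, psnd_Rd0, map_add, map_add, jU_natural, Uj_natural, map_neg, map_neg]
  abel

theorem ra_Aj (w : outer (AL A) (AR A)) :
    (ra (regular A)).f ((Aj A).f w) = (la (regular A)).f ((jA A).f w) := by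
  refine extAA (f := (ra (regular A)).f.comp (Aj A).f) (g := (la (regular A)).f.comp (jA A).f)
    (fun a b => ?_) w
  rw [ContinuousLinearMap.comp_apply, ContinuousLinearMap.comp_apply, Aj_t, jA_t, ra_reg_t,
    la_reg_t, ufst_uinr, ufst_uinr, usnd_uinr, usnd_uinr, zero_smul, zero_smul]

theorem jU_Aj (w : outer (AL A) (AR A)) : (jU A).f ((Aj A).f w) = (Uj A).f ((jA A).f w) := by
  refine extAA (f := (jU A).f.comp (Aj A).f) (g := (Uj A).f.comp (jA A).f) (fun a b => ?_) w
  rw [ContinuousLinearMap.comp_apply, ContinuousLinearMap.comp_apply, Aj_t, jA_t, jU_t, Uj_t]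

theorem Rd0_Rd1 (x : R2 A) : (Rd0 A).f ((Rd1 A).f x) = 0 := by
  refine prod_ext ?_ ?_
  · rw [pfst_Rd0, pfst_Rd1, psnd_Rd1, ra_Aj, map_neg, map_zero]
    abel
  · rw [psnd_Rd0, pfst_Rd1, psnd_Rd1, jU_Aj, map_neg, map_zero]
    abel

theorem Reps_Rsig (u : unitization A) : (Reps A).f (Rsig A u) = u := by
  rw [Reps_f, pfst_Rsig, psnd_Rsig, Rone_apply, map_smul, la_uni_t, ufst_uone, usnd_uone,
    smul_zero, zero_mul, add_zero, map_zero, add_zero, one_smul, iot_f, add_comm]
  exact (u_eq u).symm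

theorem usnd_la (w : outer (UL A) (UR A)) :
    (-(ra (regular A)).f (aU A w) + -(la (regular A)).f (ea A w) +
      alp A ((la (unitization A)).f w) : regular A) = 0 := by
  refine extUU (f := -((ra (regular A)).f.comp (aU A)) + -((la (regular A)).f.comp (ea A)) +
    (alp A).comp (la (unitization A)).f) (g := 0) (fun u v => ?_) w
  rw [_root_.add_apply, _root_.add_apply, _root_.neg_apply, _root_.neg_apply,
    ContinuousLinearMap.comp_apply, ContinuousLinearMap.comp_apply,
    ContinuousLinearMap.comp_apply, aU_t, ea_t, la_uni_t, ra_reg_t, la_reg_t, ech_f]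
  have h : ∀ u v : ℂ × A, -(v.1 • u.2 + u.2 * v.2) + -((u.1 * 1) • v.2 + (u.1 • (0 : A)) * v.2) +
      (u.1 • v.2 + (v.1 • u.2 + u.2 * v.2)) = 0 := by
    intro u v
    rw [mul_one, smul_zero, zero_mul, add_zero]
    abel
  exact h u v

theorem id_w (w : outer (UL A) (UR A)) :
    (jU A).f (aU A w) + (Uj A).f (ea A w) + Rone A ((la (unitization A)).f w) = w := by
  refine extUU (f := (jU A).f.comp (aU A) + (Uj A).f.comp (ea A) +
    (Rone A).comp (la (unitization A)).f) (g := ContinuousLinearMap.id ℂ _) (fun u v => ?_) w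
  rw [_root_.add_apply, _root_.add_apply,
    ContinuousLinearMap.comp_apply, ContinuousLinearMap.comp_apply,
    ContinuousLinearMap.comp_apply, aU_t, ea_t, la_uni_t, jU_t, Uj_t, Rone_apply, map_add,
    map_smul, ufst_uinr, add_zero, smul_eq_mul, ech_f, mul_smul, ← tUU_smul', ← tUU_smul,
    add_assoc, ← tUU_add', add_comm (uinr A (usnd A v)), ← u_eq, ← tUU_add,
    add_comm (uinr A (usnd A u)), ← u_eq]
  rfl

theorem Rd0_Rs0 (x : R0 A) : (Rd0 A).f (Rs0 A x) + Rsig A ((Reps A).f x) = x := by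
  refine prod_ext ?_ ?_
  · rw [map_add, pfst_Rd0, pfst_Rs0, psnd_Rs0, pfst_Rsig', Reps_f, map_add, alp_iot']
    have h := usnd_la ((psnd (regular A) (outer (UL A) (UR A))).f x)
    rw [add_left_comm, h, add_zero]
  · rw [map_add, psnd_Rd0, pfst_Rs0, psnd_Rs0, psnd_Rsig, Reps_f, map_add]
    rw [Rone_iot, zero_add, id_w]

theorem aU_jU (w : outer (AL A) (UR A)) : aU A ((jU A).f w) = w := by
  refine extAU (f := (aU A).comp (jU A).f) (g := ContinuousLinearMap.id ℂ _) (fun a v => ?_) w
  rw [ContinuousLinearMap.comp_apply, jU_t, aU_t, usnd_uinr]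
  rfl

theorem aU_Uj (w : outer (UL A) (AR A)) : aU A ((Uj A).f w) = (Aj A).f (aA A w) := by
  refine extUA (f := (aU A).comp (Uj A).f) (g := (Aj A).f.comp (aA A)) (fun a v => ?_) w
  rw [ContinuousLinearMap.comp_apply, ContinuousLinearMap.comp_apply, Uj_t, aU_t, aA_t, Aj_t]

theorem ea_jU (w : outer (AL A) (UR A)) : ea A ((jU A).f w) = 0 := by
  refine extAU (f := (ea A).comp (jU A).f) (g := 0) (fun a v => ?_) w
  rw [ContinuousLinearMap.comp_apply, jU_t, ea_t, ech_f, ufst_uinr, zero_smul, tUA_zero]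
  rfl

theorem ea_Uj (w : outer (UL A) (AR A)) : (jA A).f (aA A w) + ea A ((Uj A).f w) = w := by
  refine extUA (f := (jA A).f.comp (aA A) + (ea A).comp (Uj A).f)
    (g := ContinuousLinearMap.id ℂ _) (fun u b => ?_) w
  rw [_root_.add_apply, ContinuousLinearMap.comp_apply, ContinuousLinearMap.comp_apply, Uj_t,
    ea_t, aA_t, jA_t, usnd_uinr, ← tUA_add, ech_f, add_comm (uinr A (usnd A u)), ← u_eq]
  rfl

theorem aA_jA (w : outer (AL A) (AR A)) : aA A ((jA A).f w) = w := by
  refine extAA (f := (aA A).comp (jA A).f) (g := ContinuousLinearMap.id ℂ _) (fun a b => ?_) w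
  rw [ContinuousLinearMap.comp_apply, jA_t, aA_t, usnd_uinr]
  rfl

theorem Rd1_Rs1 (x : R1 A) : (Rd1 A).f (Rs1 A x) + Rs0 A ((Rd0 A).f x) = x := by
  refine prod_ext ?_ ?_
  · rw [map_add, pfst_Rd1, pfst_Rs0, psnd_Rd0, Rs1_apply, map_add, map_neg, aU_jU, aU_Uj]
    abel
  · rw [map_add, psnd_Rd1, psnd_Rs0, psnd_Rd0, Rs1_apply, map_add, map_neg, neg_neg, ea_jU,
      zero_add, ea_Uj]

theorem Rs1_Rd1 (x : R2 A) : Rs1 A ((Rd1 A).f x) = x := by
  rw [Rs1_apply, psnd_Rd1, map_neg, neg_neg, aA_jA]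

section Final

variable (A)

/-- The terms of the resolution. -/
noncomputable def RP : ℕ → BMod A A
  | 0 => R0 A
  | 1 => R1 A
  | 2 => R2 A
  | (_ + 3) => BMod.zero A A

/-- The differentials of the resolution. -/
noncomputable def Rd : ∀ i : ℕ, BMod.Hom (RP A (i + 1)) (RP A i)
  | 0 => Rd0 A
  | 1 => Rd1 A
  | 2 => BMod.Hom.zero _ _
  | (_ + 3) => BMod.Hom.zero _ _

/-- The homotopy of the resolution. -/
noncomputable def Rht : ∀ i : ℕ, RP A i →L[ℂ] RP A (i + 1)
  | 0 => Rs0 A
  | 1 => Rs1 A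
  | 2 => 0
  | (_ + 3) => 0

theorem hasFlatResolution_unitization (hA : Biflat A) : HasFlatResolution (unitization A) 2 := by
  refine ⟨RP A, Rd A, Reps A, Rht A, Rsig A, ?_, ?_, ?_, ?_, ?_, ?_, ?_⟩
  · intro i
    match i with
    | 0 => exact Flat.prod hA (flat_outer flat_unitization_left flat_unitization_right)
    | 1 =>
      exact Flat.prod (flat_outer (Flat.forgetR hA) flat_unitization_right)
        (flat_outer flat_unitization_left (Flat.forgetL hA))
    | 2 => exact flat_outer (Flat.forgetR hA) (Flat.forgetL hA)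
    | (n + 3) => exact flat_zero
  · intro i hi
    match i, hi with
    | (n + 3), _ => exact inferInstanceAs (Subsingleton (BMod.zero A A))
  · intro i
    match i with
    | 0 => exact Rd0_Rd1
    | 1 => intro x; exact map_zero (Rd1 A).f
    | 2 => intro x; rfl
    | (n + 3) => intro x; rfl
  · exact Reps_Rd0
  · exact Reps_Rsig
  · exact Rd0_Rs0
  · intro i
    match i with
    | 0 => exact Rd1_Rs1
    | 1 => intro x; exact (zero_add _).trans (Rs1_Rd1 x)
    | 2 => intro x; exact Subsingleton.elim (α := BMod.zero A A) _ _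
    | (n + 3) => intro x; exact Subsingleton.elim (α := BMod.zero A A) _ _

/-- **Theorem.** The weak bidimension of a biflat Fréchet algebra is at most two. -/
theorem wdb_le_two (hA : Biflat A) : wdb A ≤ 2 :=
  sInf_le ⟨2, rfl, hasFlatResolution_unitization A hA⟩

end Final

end Pool.Agent.FrHom
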