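import Pool.Agent.Lib.MP_afeff1_an.Free

/-!
# The flat resolution of length two of the unitization of a biflat algebra
-/

set_option autoImplicit false
set_option linter.unusedSectionVars false
set_option linter.unusedVariables false

open scoped TensorProduct Topology Uniformity
open Filter UniformSpace

namespace Pool.Agent.FrHom

universe u

section HomOps

variable {B C : Type u} [NonUnitalRing B] [Module ℂ B] [UniformSpace B] [FrechetAlgebra B]
  [NonUnitalRing C] [Module ℂ C] [UniformSpace C] [FrechetAlgebra C]
  {M N P Q : BMod B C}

/-- The negative of a morphism. -/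
noncomputable def BMod.Hom.neg (f : BMod.Hom M N) : BMod.Hom M N where
  f := -f.f
  map_l b x := by
    rw [_root_.neg_apply, _root_.neg_apply, f.map_l, map_neg]
  map_r b x := by
    rw [_root_.neg_apply, _root_.neg_apply, f.map_r, map_neg]

/-- The sum of two morphisms. -/
noncomputable def BMod.Hom.add (f g : BMod.Hom M N) : BMod.Hom M N where
  f := f.f + g.f
  map_l b x := by
    rw [_root_.add_apply, _root_.add_apply, f.map_l, g.map_l, map_add]
  map_r b x := by
    rw [_root_.add_apply, _root_.add_apply, f.map_r, g.map_r, map_add]

/-- The morphism `(x, y) ↦ f x + g y`. -/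
noncomputable def copair (f : BMod.Hom P N) (g : BMod.Hom Q N) : BMod.Hom (BMod.prod P Q) N :=
  (f.comp (pfst P Q)).add (g.comp (psnd P Q))

theorem copair_f (f : BMod.Hom P N) (g : BMod.Hom Q N) (x : BMod.prod P Q) :
    (copair f g).f x = f.f ((pfst P Q).f x) + g.f ((psnd P Q).f x) := rfl

/-- The morphism `x ↦ (f x, g x)`. -/
noncomputable def pair (f : BMod.Hom N P) (g : BMod.Hom N Q) : BMod.Hom N (BMod.prod P Q) :=
  ((pinl P Q).comp f).add ((pinr P Q).comp g)

theorem pfst_pair (f : BMod.Hom N P) (g : BMod.Hom N Q) (x : N) :
    (pfst P Q).f ((pair f g).f x) = f.f x := by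
  have h : (pfst P Q).f ((pair f g).f x) = f.f x + 0 := rfl
  rw [h, add_zero]

theorem psnd_pair (f : BMod.Hom N P) (g : BMod.Hom N Q) (x : N) :
    (psnd P Q).f ((pair f g).f x) = g.f x := by
  have h : (psnd P Q).f ((pair f g).f x) = 0 + g.f x := rfl
  rw [h, zero_add]

/-- A morphism of bimodules as a morphism of left modules. -/
noncomputable def fR (g : BMod.Hom M N) : BMod.Hom (forgetR M) (forgetR N) where
  f := g.f
  map_l := g.map_l
  map_r c x := by
    rw [r_punit, r_punit]; exact map_zero g.f

/-- A morphism of bimodules as a morphism of right modules. -/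
noncomputable def fL (g : BMod.Hom M N) : BMod.Hom (forgetL M) (forgetL N) where
  f := g.f
  map_l c x := by
    rw [l_punit, l_punit]; exact map_zero g.f
  map_r := g.map_r

end HomOps

variable {A : Type u} [NonUnitalRing A] [Module ℂ A] [UniformSpace A] [FrechetAlgebra A]

section Act

variable (M N : BMod A A)

/-- The right action map `M ⊗̂ A₊ → M` (as a continuous linear map). -/
noncomputable def raL : outer (forgetR M) (forgetL (unitization A)) →L[ℂ] M :=
  olift (P := forgetR M) (Q := forgetL (unitization A)) (uact M.r).flip
    (flip_cont (uact_cont M.r_cont))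

theorem raL_mk (m : M) (u : unitization A) :
    raL M (omk (forgetR M) (forgetL (unitization A)) m u) = uact M.r u m :=
  olift_mk (P := forgetR M) (Q := forgetL (unitization A)) (uact M.r).flip
    (flip_cont (uact_cont M.r_cont)) m u

/-- The right action map `M ⊗̂ A₊ → M`. -/
noncomputable def ra : BMod.Hom (outer (forgetR M) (forgetL (unitization A))) M where
  f := raL M
  map_l c w := by
    refine outer_ext (P := forgetR M) (Q := forgetL (unitization A))
      (f := (raL M).toLinearMap ∘ₗ (outer (forgetR M) (forgetL (unitization A))).l c)
      (g := M.l c ∘ₗ (raL M).toLinearMap)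
      ((raL M).continuous.comp (BMod.l_cont' _ c))
      ((BMod.l_cont' _ c).comp (raL M).continuous) (fun n u => ?_) w
    have h : ∀ (n : M) (u : unitization A),
        raL M ((outer (forgetR M) (forgetL (unitization A))).l c
          (omk (forgetR M) (forgetL (unitization A)) n u)) =
        M.l c (raL M (omk (forgetR M) (forgetL (unitization A)) n u)) := by
      intro n u
      have h1 : (outer (forgetR M) (forgetL (unitization A))).l c
          (omk (forgetR M) (forgetL (unitization A)) n u) =
          omk (forgetR M) (forgetL (unitization A)) (M.l c n) u := outer_l c n u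
      rw [h1, raL_mk, raL_mk, uact_apply, uact_apply, map_add, map_smul, M.l_r]
    exact h n u
  map_r b w := by
    refine outer_ext (P := forgetR M) (Q := forgetL (unitization A))
      (f := (raL M).toLinearMap ∘ₗ (outer (forgetR M) (forgetL (unitization A))).r b)
      (g := M.r b ∘ₗ (raL M).toLinearMap)
      ((raL M).continuous.comp (BMod.r_cont' _ b))
      ((BMod.r_cont' _ b).comp (raL M).continuous) (fun n u => ?_) w
    have h : ∀ (n : M) (u : unitization A),
        raL M ((outer (forgetR M) (forgetL (unitization A))).r b
          (omk (forgetR M) (forgetL (unitization A)) n u)) =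
        M.r b (raL M (omk (forgetR M) (forgetL (unitization A)) n u)) := by
      intro n u
      have h1 : (outer (forgetR M) (forgetL (unitization A))).r b
          (omk (forgetR M) (forgetL (unitization A)) n u) =
          omk (forgetR M) (forgetL (unitization A)) n ((unitization A).r b u) := outer_r b n u
      rw [h1, raL_mk, raL_mk, uact_r]
    exact h n u

theorem ra_mk (m : M) (u : unitization A) :
    (ra M).f (omk (forgetR M) (forgetL (unitization A)) m u) = uact M.r u m := raL_mk M m u

/-- The left action map `A₊ ⊗̂ M → M` (as a continuous linear map). -/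
noncomputable def laL : outer (forgetR (unitization A)) (forgetL M) →L[ℂ] M :=
  olift (P := forgetR (unitization A)) (Q := forgetL M)
    (show unitization A →ₗ[ℂ] M →ₗ[ℂ] M from uact M.l) (uact_cont M.l_cont)

theorem laL_mk (m : M) (u : unitization A) :
    laL M (omk (forgetR (unitization A)) (forgetL M) u m) = uact M.l u m :=
  olift_mk (P := forgetR (unitization A)) (Q := forgetL M)
    (show unitization A →ₗ[ℂ] M →ₗ[ℂ] M from uact M.l) (uact_cont M.l_cont) u m

/-- The left action map `A₊ ⊗̂ M → M`. -/
noncomputable def la : BMod.Hom (outer (forgetR (unitization A)) (forgetL M)) M where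
  f := laL M
  map_l c w := by
    refine outer_ext (P := forgetR (unitization A)) (Q := forgetL M)
      (f := (laL M).toLinearMap ∘ₗ (outer (forgetR (unitization A)) (forgetL M)).l c)
      (g := M.l c ∘ₗ (laL M).toLinearMap)
      ((laL M).continuous.comp (BMod.l_cont' _ c))
      ((BMod.l_cont' _ c).comp (laL M).continuous) (fun u n => ?_) w
    have h : ∀ (n : M) (u : unitization A),
        laL M ((outer (forgetR (unitization A)) (forgetL M)).l c
          (omk (forgetR (unitization A)) (forgetL M) u n)) =
        M.l c (laL M (omk (forgetR (unitization A)) (forgetL M) u n)) := by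
      intro n u
      have h1 : (outer (forgetR (unitization A)) (forgetL M)).l c
          (omk (forgetR (unitization A)) (forgetL M) u n) =
          omk (forgetR (unitization A)) (forgetL M) ((unitization A).l c u) n := outer_l c u n
      rw [h1, laL_mk, laL_mk, uact_l]
    exact h n u
  map_r b w := by
    refine outer_ext (P := forgetR (unitization A)) (Q := forgetL M)
      (f := (laL M).toLinearMap ∘ₗ (outer (forgetR (unitization A)) (forgetL M)).r b)
      (g := M.r b ∘ₗ (laL M).toLinearMap)
      ((laL M).continuous.comp (BMod.r_cont' _ b))
      ((BMod.r_cont' _ b).comp (laL M).continuous) (fun u n => ?_) w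
    have h : ∀ (n : M) (u : unitization A),
        laL M ((outer (forgetR (unitization A)) (forgetL M)).r b
          (omk (forgetR (unitization A)) (forgetL M) u n)) =
        M.r b (laL M (omk (forgetR (unitization A)) (forgetL M) u n)) := by
      intro n u
      have h1 : (outer (forgetR (unitization A)) (forgetL M)).r b
          (omk (forgetR (unitization A)) (forgetL M) u n) =
          omk (forgetR (unitization A)) (forgetL M) u (M.r b n) := outer_r b u n
      rw [h1, laL_mk, laL_mk, uact_apply, uact_apply, map_add, map_smul, M.l_r]
    exact h n u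

theorem la_mk (m : M) (u : unitization A) :
    (la M).f (omk (forgetR (unitization A)) (forgetL M) u m) = uact M.l u m := laL_mk M m u

variable {M N}

/-- Naturality of the right action map. -/
theorem ra_natural (f : BMod.Hom M N) (w : outer (forgetR M) (forgetL (unitization A))) :
    (ra N).f ((omap (fR f) (forgetL (unitization A))).f w) = f.f ((ra M).f w) := by
  refine outer_extL (P := forgetR M) (Q := forgetL (unitization A))
    (f := (ra N).f.comp (omap (fR f) (forgetL (unitization A))).f) (g := f.f.comp (ra M).f)
    (fun n u => ?_) w
  have h : ∀ (n : M) (u : unitization A),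
      (ra N).f ((omap (fR f) (forgetL (unitization A))).f
        (omk (forgetR M) (forgetL (unitization A)) n u)) =
      f.f ((ra M).f (omk (forgetR M) (forgetL (unitization A)) n u)) := by
    intro n u
    have h1 : (omap (fR f) (forgetL (unitization A))).f
        (omk (forgetR M) (forgetL (unitization A)) n u) =
        omk (forgetR N) (forgetL (unitization A)) (f.f n) u := omapL_mk (fR f).f n u
    rw [h1, ra_mk, ra_mk, uact_apply, uact_apply, map_add, map_smul, f.map_r]
  exact h n u

/-- Naturality of the left action map. -/
theorem la_natural (f : BMod.Hom M N) (w : outer (forgetR (unitization A)) (forgetL M)) :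
    (la N).f ((omap' (forgetR (unitization A)) (fL f)).f w) = f.f ((la M).f w) := by
  refine outer_extL (P := forgetR (unitization A)) (Q := forgetL M)
    (f := (la N).f.comp (omap' (forgetR (unitization A)) (fL f)).f) (g := f.f.comp (la M).f)
    (fun u n => ?_) w
  have h : ∀ (n : M) (u : unitization A),
      (la N).f ((omap' (forgetR (unitization A)) (fL f)).f
        (omk (forgetR (unitization A)) (forgetL M) u n)) =
      f.f ((la M).f (omk (forgetR (unitization A)) (forgetL M) u n)) := by
    intro n u
    have h1 : (omap' (forgetR (unitization A)) (fL f)).f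
        (omk (forgetR (unitization A)) (forgetL M) u n) =
        omk (forgetR (unitization A)) (forgetL N) u (f.f n) := omapR_mk (fL f).f u n
    rw [h1, la_mk, la_mk, uact_apply, uact_apply, map_add, map_smul, f.map_l]
  exact h n u

end Act

section Uni

variable (A)

/-- `ra` and `la` agree on the unitization. -/
theorem ra_eq_la (w : outer (forgetR (unitization A)) (forgetL (unitization A))) :
    (ra (unitization A)).f w = (la (unitization A)).f w := by
  refine outer_extL (P := forgetR (unitization A)) (Q := forgetL (unitization A))
    (f := (ra (unitization A)).f) (g := (la (unitization A)).f) (fun u v => ?_) w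
  have h : ∀ u v : unitization A,
      (ra (unitization A)).f (omk (forgetR (unitization A)) (forgetL (unitization A)) u v) =
      (la (unitization A)).f (omk (forgetR (unitization A)) (forgetL (unitization A)) u v) := by
    intro u v
    rw [ra_mk, la_mk, uact_apply, uact_apply, u_l, u_r]
    have h2 : ∀ u v : ℂ × A, v.1 • u + ((0 : ℂ), u.1 • v.2 + u.2 * v.2) =
        u.1 • v + ((0 : ℂ), v.1 • u.2 + u.2 * v.2) := by
      intro u v
      ext
      · simp [mul_comm]
      · simp only [Prod.snd_add, Prod.smul_snd]; abel
    exact h2 u v
  exact h u v

/-- The inclusion `A → A₊`. -/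
noncomputable def iot : BMod.Hom (regular A) (unitization A) where
  f := ContinuousLinearMap.inr ℂ ℂ A
  map_l b x := by
    have h : ∀ x b : A, ((0 : ℂ), b * x) = ((0 : ℂ), (0 : ℂ) • b + b * x) := by
      intro x b; rw [zero_smul, zero_add]
    exact h x b
  map_r b x := by
    have h : ∀ x b : A, ((0 : ℂ), x * b) = ((0 : ℂ), (0 : ℂ) • b + x * b) := by
      intro x b; rw [zero_smul, zero_add]
    exact h x b

theorem iot_f (a : A) : (iot A).f a = uinr A a := rfl

/-- The projection `A₊ → A`. -/
noncomputable def alp : unitization A →L[ℂ] regular A := ContinuousLinearMap.snd ℂ ℂ A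

theorem alp_f (u : unitization A) : alp A u = usnd A u := rfl

/-- The projection `A₊ → ℂ 1 ⊆ A₊`. -/
noncomputable def ech : unitization A →L[ℂ] unitization A :=
  (ContinuousLinearMap.inl ℂ ℂ A).comp (ContinuousLinearMap.fst ℂ ℂ A)

theorem ech_f (u : unitization A) : ech A u = ufst A u • uone A := by
  have h : ∀ u : ℂ × A, ((u.1, 0) : ℂ × A) = u.1 • ((1 : ℂ), (0 : A)) := by
    intro u; ext <;> simp
  exact h u

theorem ech_iot (a : A) : ech A ((iot A).f a) = 0 := rfl

theorem alp_iot (a : A) : alp A ((iot A).f a) = a := rfl

theorem ech_add (u : unitization A) : ech A u + (iot A).f (alp A u) = u := by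
  rw [ech_f, alp_f, iot_f]
  exact (u_eq u).symm

end Uni

end Pool.Agent.FrHom
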