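import Pool.Agent.Lib.MP_afeff1_an.Frechet

/-!
# The completed projective tensor product of Fréchet spaces
-/

set_option autoImplicit false
set_option linter.unusedSectionVars false

open scoped TensorProduct Topology Uniformity
open Filter UniformSpace

namespace Pool.Agent.FrHom

section PT

variable (E F : Type*) [AddCommGroup E] [Module ℂ E] [UniformSpace E]
  [AddCommGroup F] [Module ℂ F] [UniformSpace F]

/-- The algebraic tensor product `E ⊗ F`, to be equipped with the projective topology. -/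
def PT : Type _ := E ⊗[ℂ] F

noncomputable instance : AddCommGroup (PT E F) := inferInstanceAs (AddCommGroup (E ⊗[ℂ] F))
noncomputable instance : Module ℂ (PT E F) := inferInstanceAs (Module ℂ (E ⊗[ℂ] F))

variable {E F}

/-- The elementary tensors, as a bilinear map into `PT E F`. -/
noncomputable def PT.tmul : E →ₗ[ℂ] F →ₗ[ℂ] PT E F := TensorProduct.mk ℂ E F

/-- The seminorms `r` on `E ⊗ F` for which there are continuous seminorms `p` on `E` and `q` on `F`
with `r (x ⊗ y) ≤ p x * q y`. -/
def IsCross (r : Seminorm ℂ (PT E F)) : Prop :=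
  ∃ p : Seminorm ℂ E, ∃ q : Seminorm ℂ F, Continuous p ∧ Continuous q ∧
    ∀ x y, r (PT.tmul x y) ≤ p x * q y

variable (E F) in
/-- The family of all cross seminorms; it generates the projective topology. -/
def crossFamily : SeminormFamily ℂ (PT E F) {r : Seminorm ℂ (PT E F) // IsCross r} :=
  fun r => r.1

/-- The projective (locally convex) topology on `E ⊗ F`. -/
noncomputable instance : UniformSpace (PT E F) :=
  (crossFamily E F).addGroupFilterBasis.uniformSpace

instance : IsUniformAddGroup (PT E F) :=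
  (crossFamily E F).addGroupFilterBasis.isUniformAddGroup

theorem withSeminorms_cross : WithSeminorms (crossFamily E F) := ⟨rfl⟩

instance : ContinuousSMul ℂ (PT E F) := withSeminorms_cross.continuousSMul

instance : UniformContinuousConstSMul ℂ (PT E F) :=
  uniformContinuousConstSMul_of_continuousConstSMul ℂ _

theorem PT.induction_on {motive : PT E F → Prop} (z : PT E F) (zero : motive 0)
    (tmul : ∀ x y, motive (PT.tmul x y)) (add : ∀ x y, motive x → motive y → motive (x + y)) :
    motive z :=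
  TensorProduct.induction_on z zero tmul add

theorem IsCross.continuous {r : Seminorm ℂ (PT E F)} (hr : IsCross r) : Continuous r :=
  withSeminorms_cross.continuous_seminorm (⟨r, hr⟩ : {r : Seminorm ℂ (PT E F) // IsCross r})

/-- The linear map out of the algebraic tensor product given by a bilinear map. -/
noncomputable def PT.lift {G : Type*} [AddCommGroup G] [Module ℂ G] (b : E →ₗ[ℂ] F →ₗ[ℂ] G) :
    PT E F →ₗ[ℂ] G := TensorProduct.lift b

@[simp] theorem PT.lift_tmul {G : Type*} [AddCommGroup G] [Module ℂ G]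
    (b : E →ₗ[ℂ] F →ₗ[ℂ] G) (x : E) (y : F) : PT.lift b (PT.tmul x y) = b x y :=
  TensorProduct.lift.tmul x y

section Proj

variable (p : Seminorm ℂ E) (q : Seminorm ℂ F)

theorem bddAbove_proj :
    BddAbove {r : Seminorm ℂ (PT E F) | ∀ x y, r (PT.tmul x y) ≤ p x * q y} := by
  rw [Seminorm.bddAbove_iff]
  have key : ∀ z : PT E F, ∃ C : ℝ, ∀ r : Seminorm ℂ (PT E F),
      (∀ x y, r (PT.tmul x y) ≤ p x * q y) → r z ≤ C := by
    intro z
    induction z using PT.induction_on with
    | zero => exact ⟨0, fun r _ => by simp⟩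
    | tmul x y => exact ⟨p x * q y, fun r hr => hr x y⟩
    | add x y hx hy =>
      obtain ⟨C, hC⟩ := hx
      obtain ⟨D, hD⟩ := hy
      exact ⟨C + D, fun r hr => (map_add_le_add r x y).trans (add_le_add (hC r hr) (hD r hr))⟩
  choose C hC using key
  refine ⟨C, ?_⟩
  rintro _ ⟨r, hr, rfl⟩ z
  exact hC z r hr

/-- The projective seminorm `p ⊗ q`: the largest seminorm `r` on `E ⊗ F` with
`r (x ⊗ y) ≤ p x * q y`. -/
noncomputable def projSeminorm : Seminorm ℂ (PT E F) :=
  sSup {r : Seminorm ℂ (PT E F) | ∀ x y, r (PT.tmul x y) ≤ p x * q y}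

theorem projSeminorm_tmul_le (x : E) (y : F) : projSeminorm p q (PT.tmul x y) ≤ p x * q y := by
  rw [projSeminorm, Seminorm.coe_sSup_eq (bddAbove_proj p q)]
  simp only [iSup_apply]
  have : Nonempty {r : Seminorm ℂ (PT E F) | ∀ x y, r (PT.tmul x y) ≤ p x * q y} :=
    ⟨⟨0, fun x y => by simpa using mul_nonneg (apply_nonneg p x) (apply_nonneg q y)⟩⟩
  exact ciSup_le fun r => r.2 x y

theorem le_projSeminorm {r : Seminorm ℂ (PT E F)} (h : ∀ x y, r (PT.tmul x y) ≤ p x * q y) :
    r ≤ projSeminorm p q :=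
  le_csSup (bddAbove_proj p q) h

theorem isCross_projSeminorm {p : Seminorm ℂ E} {q : Seminorm ℂ F} (hp : Continuous p)
    (hq : Continuous q) : IsCross (projSeminorm p q) :=
  ⟨p, q, hp, hq, projSeminorm_tmul_le p q⟩

end Proj

theorem PT.continuous_tmul [PolynormableSpace ℂ E] [PolynormableSpace ℂ F] :
    Continuous fun z : E × F => PT.tmul z.1 z.2 := by
  rw [continuous_iff_continuousAt]
  rintro ⟨x₀, y₀⟩
  rw [ContinuousAt, withSeminorms_cross.tendsto_nhds]
  rintro ⟨r, p, q, hp, hq, h⟩ ε hε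
  have h1 : Tendsto (fun z : E × F => p (z.1 - x₀) * q z.2 + p x₀ * q (z.2 - y₀))
      (𝓝 (x₀, y₀)) (𝓝 0) := by
    have := (PolynormableSpace.withSeminorms ℂ E).topologicalAddGroup
    have := (PolynormableSpace.withSeminorms ℂ F).topologicalAddGroup
    have h2 : Continuous (fun z : E × F => p (z.1 - x₀) * q z.2 + p x₀ * q (z.2 - y₀)) := by
      fun_prop
    refine h2.tendsto' _ _ ?_
    simp
  filter_upwards [h1 (Iio_mem_nhds hε)] with z hz
  refine lt_of_le_of_lt ?_ hz
  have h3 : (PT.tmul z.1 z.2 - PT.tmul x₀ y₀ : PT E F)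
      = PT.tmul (z.1 - x₀) z.2 + PT.tmul x₀ (z.2 - y₀) := by
    simp [map_sub]
  change r _ ≤ _
  rw [h3]
  exact (map_add_le_add r _ _).trans (add_le_add (h _ _) (h _ _))

section Lift

variable {G : Type*} [AddCommGroup G] [Module ℂ G] [UniformSpace G]

theorem PT.continuous_lift [PolynormableSpace ℂ E] [PolynormableSpace ℂ F]
    [PolynormableSpace ℂ G] (b : E →ₗ[ℂ] F →ₗ[ℂ] G)
    (hb : Continuous fun z : E × F => b z.1 z.2) : Continuous (PT.lift b) := by
  have := (PolynormableSpace.withSeminorms ℂ G).topologicalAddGroup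
  refine WithSeminorms.continuous_of_continuous_comp (PolynormableSpace.withSeminorms ℂ G) _ ?_
  rintro ⟨r, hr⟩
  obtain ⟨p, q, hp, hq, h⟩ := exists_bound b hb hr
  have hc : IsCross (r.comp (PT.lift b)) :=
    ⟨p, q, hp, hq, fun x y => by simpa using h x y⟩
  exact hc.continuous

end Lift

/-- On a Fréchet space there is a sequence of continuous seminorms which dominates every
continuous seminorm. -/
theorem exists_seq_seminorms (E : Type*) [AddCommGroup E] [Module ℂ E] [UniformSpace E]
    [FrechetSpace E] : ∃ P : ℕ → Seminorm ℂ E, (∀ n, Continuous (P n)) ∧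
      ∀ q : Seminorm ℂ E, Continuous q → ∃ n, q ≤ P n := by
  obtain ⟨U, hU⟩ := (𝓝 (0 : E)).exists_antitone_basis
  choose P hP hPU using fun n => exists_seminorm_ball_subset (hU.mem n)
  refine ⟨P, hP, fun q hq => ?_⟩
  have h1 : {x : E | q x < 1} ∈ 𝓝 (0 : E) := by
    apply (isOpen_lt hq continuous_const).mem_nhds
    simp
  obtain ⟨n, hn⟩ := hU.mem_iff.mp h1
  exact ⟨n, seminorm_le_of_ball_subset fun x hx => hn (hPU n x hx)⟩

theorem exists_countable_cross (E F : Type*) [AddCommGroup E] [Module ℂ E] [UniformSpace E]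
    [FrechetSpace E] [AddCommGroup F] [Module ℂ F] [UniformSpace F] [FrechetSpace F] :
    ∃ P : ℕ × ℕ → Seminorm ℂ (PT E F), WithSeminorms P := by
  obtain ⟨P, hP, hP'⟩ := exists_seq_seminorms E
  obtain ⟨Q, hQ, hQ'⟩ := exists_seq_seminorms F
  refine ⟨fun n => projSeminorm (P n.1) (Q n.2), ?_⟩
  have hc := withSeminorms_cross (E := E) (F := F)
  rw [SeminormFamily.withSeminorms_iff_nhds_eq_iInf] at hc ⊢
  rw [hc]
  refine le_antisymm ?_ ?_
  · rw [le_iInf_iff]
    intro n
    exact iInf_le_of_le (⟨projSeminorm (P n.1) (Q n.2), isCross_projSeminorm (hP _) (hQ _)⟩ :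
      {r : Seminorm ℂ (PT E F) // IsCross r}) le_rfl
  · rw [le_iInf_iff]
    rintro ⟨r, p, q, hp, hq, h⟩
    obtain ⟨n, hn⟩ := hP' p hp
    obtain ⟨m, hm⟩ := hQ' q hq
    have hr : r ≤ projSeminorm (P n) (Q m) := le_projSeminorm _ _ fun x y =>
      (h x y).trans (mul_le_mul (hn x) (hm y) (apply_nonneg _ _) (apply_nonneg _ _))
    refine iInf_le_of_le (n, m) ?_
    rw [← tendsto_iff_comap]
    refine squeeze_zero (fun z => apply_nonneg r z) (fun z => hr z) ?_
    exact tendsto_comap

section CT

variable (E F : Type*) [AddCommGroup E] [Module ℂ E] [UniformSpace E] [FrechetSpace E]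
  [AddCommGroup F] [Module ℂ F] [UniformSpace F] [FrechetSpace F]

/-- The completed projective tensor product of two Fréchet spaces. -/
def CT : Type _ := Completion (PT E F)

noncomputable instance : AddCommGroup (CT E F) := inferInstanceAs (AddCommGroup (Completion (PT E F)))
noncomputable instance : Module ℂ (CT E F) := inferInstanceAs (Module ℂ (Completion (PT E F)))
noncomputable instance : UniformSpace (CT E F) := inferInstanceAs (UniformSpace (Completion (PT E F)))
instance : IsUniformAddGroup (CT E F) := inferInstanceAs (IsUniformAddGroup (Completion (PT E F)))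
instance : CompleteSpace (CT E F) := inferInstanceAs (CompleteSpace (Completion (PT E F)))

instance : FrechetSpace (CT E F) := by
  obtain ⟨P, hP⟩ := exists_countable_cross E F
  have h1 := withSeminorms_completion hP
  have h2 : PolynormableSpace ℂ (Completion (PT E F)) := h1.toPolynormableSpace
  have h3 : FirstCountableTopology (Completion (PT E F)) := h1.firstCountableTopology
  have h4 : (𝓤 (Completion (PT E F))).IsCountablyGenerated :=
    IsUniformAddGroup.uniformity_countably_generated
  have h5 : TopologicalSpace.MetrizableSpace (Completion (PT E F)) :=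
    UniformSpace.metrizableSpace
  exact FrechetSpace.of (Completion (PT E F))

variable {E F}

/-- The canonical map from the algebraic to the completed tensor product. -/
noncomputable def CT.of : PT E F →L[ℂ] CT E F where
  toFun := fun z => (z : Completion (PT E F))
  map_add' := fun x y => Completion.coe_add x y
  map_smul' := fun c x => Completion.coe_smul c x
  cont := Completion.continuous_coe _

theorem CT.denseRange_of : DenseRange (CT.of : PT E F → CT E F) := Completion.denseRange_coe

/-- Elementary tensors in the completed projective tensor product. -/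
noncomputable def CT.mk : E →ₗ[ℂ] F →ₗ[ℂ] CT E F := PT.tmul.compr₂ (CT.of : PT E F →L[ℂ] CT E F).toLinearMap

theorem CT.mk_eq (x : E) (y : F) : CT.mk x y = CT.of (PT.tmul x y) := rfl

theorem CT.continuous_mk : Continuous fun z : E × F => CT.mk z.1 z.2 :=
  CT.of.continuous.comp PT.continuous_tmul

variable {G : Type*} [AddCommGroup G] [Module ℂ G] [UniformSpace G]

/-- The universal property of the completed projective tensor product. -/
noncomputable def CT.lift [FrechetSpace G] (b : E →ₗ[ℂ] F →ₗ[ℂ] G)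
    (hb : Continuous fun z : E × F => b z.1 z.2) : CT E F →L[ℂ] G :=
  (⟨PT.lift b, PT.continuous_lift b hb⟩ : PT E F →L[ℂ] G).fromCompletion

theorem CT.lift_of [FrechetSpace G] (b : E →ₗ[ℂ] F →ₗ[ℂ] G)
    (hb : Continuous fun z : E × F => b z.1 z.2) (v : PT E F) :
    CT.lift b hb (CT.of v) = PT.lift b v :=
  ContinuousLinearMap.fromCompletion_apply_coe (⟨PT.lift b, PT.continuous_lift b hb⟩ : PT E F →L[ℂ] G) v

@[simp] theorem CT.lift_mk [FrechetSpace G] (b : E →ₗ[ℂ] F →ₗ[ℂ] G)
    (hb : Continuous fun z : E × F => b z.1 z.2) (x : E) (y : F) :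
    CT.lift b hb (CT.mk x y) = b x y := by
  rw [CT.mk_eq, CT.lift_of, PT.lift_tmul]

theorem CT.ext_apply [T2Space G] {f g : CT E F →L[ℂ] G} (h : ∀ x y, f (CT.mk x y) = g (CT.mk x y))
    (w : CT E F) : f w = g w := by
  have h1 : ∀ v : PT E F, f (CT.of v) = g (CT.of v) := by
    intro v
    induction v using PT.induction_on with
    | zero => simp
    | tmul x y => exact h x y
    | add x y hx hy => simp [hx, hy]
  exact congrFun (CT.denseRange_of.equalizer f.continuous g.continuous (funext h1)) w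

theorem CT.ext [T2Space G] {f g : CT E F →L[ℂ] G} (h : ∀ x y, f (CT.mk x y) = g (CT.mk x y)) :
    f = g := ContinuousLinearMap.ext (CT.ext_apply h)

/-- Joint continuity of the lift of a family of bilinear maps depending on a parameter. -/
theorem CT.continuous_lift_param [FrechetSpace G] {Θ : Type*} [TopologicalSpace Θ]
    (b : Θ → E →ₗ[ℂ] F →ₗ[ℂ] G) (hb : Continuous fun z : Θ × E × F => b z.1 z.2.1 z.2.2)
    (hb' : ∀ θ, Continuous fun z : E × F => b θ z.1 z.2) :
    Continuous fun z : Θ × CT E F => CT.lift (b z.1) (hb' z.1) z.2 := by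
  rw [continuous_iff_continuousAt]
  rintro ⟨θ₀, w₀⟩
  rw [ContinuousAt, (PolynormableSpace.withSeminorms ℂ G).tendsto_nhds]
  rintro ⟨r, hr⟩ ε hε
  obtain ⟨U, hU, p, q, hp, hq, h⟩ := exists_bound_param b hb θ₀ hr
  have hP : Continuous (projSeminorm p q) := (isCross_projSeminorm hp hq).continuous
  let P : Seminorm ℂ (CT E F) := extSeminorm (projSeminorm p q) hP
  have hPc : Continuous P := continuous_extSeminorm _ hP
  have h1 : ∀ θ ∈ U, ∀ w : CT E F, r (CT.lift (b θ) (hb' θ) w) ≤ P w := by
    intro θ hθ w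
    have hcl : IsClosed {w : CT E F | r (CT.lift (b θ) (hb' θ) w) ≤ P w} :=
      isClosed_le (hr.comp (CT.lift (b θ) (hb' θ)).continuous) hPc
    refine CT.denseRange_of.induction_on (p := fun w => r (CT.lift (b θ) (hb' θ) w) ≤ P w)
      w hcl fun v => ?_
    rw [CT.lift_of]
    have h2 : r.comp (PT.lift (b θ)) ≤ projSeminorm p q :=
      le_projSeminorm p q fun x y => by simpa using h θ hθ x y
    have h3 : P (CT.of v) = projSeminorm p q v := extSeminorm_coe _ hP v
    rw [h3]
    exact h2 v
  have h2 : ∃ v : PT E F, P (w₀ - CT.of v) < ε / 4 := by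
    have ho : IsOpen {w : CT E F | P (w₀ - w) < ε / 4} :=
      isOpen_lt (hPc.comp (by fun_prop)) continuous_const
    obtain ⟨v, hv⟩ := CT.denseRange_of.exists_mem_open ho ⟨w₀, by simpa using hε⟩
    exact ⟨v, hv⟩
  obtain ⟨v, hv⟩ := h2
  have h3 : ∀ v : PT E F, Continuous fun θ => PT.lift (b θ) v := by
    intro v
    induction v using PT.induction_on with
    | zero => simpa using continuous_const
    | tmul x y =>
      simp only [PT.lift_tmul]
      exact hb.comp (by fun_prop : Continuous fun θ : Θ => (θ, x, y))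
    | add x y hx hy =>
      simp only [map_add]
      exact hx.add hy
  have h4 : ∀ᶠ z : Θ × CT E F in 𝓝 (θ₀, w₀), z.1 ∈ U :=
    continuous_fst.continuousAt.preimage_mem_nhds hU
  have h5 : ∀ᶠ z : Θ × CT E F in 𝓝 (θ₀, w₀), P (z.2 - CT.of v) < ε / 4 := by
    have ho : IsOpen {z : Θ × CT E F | P (z.2 - CT.of v) < ε / 4} :=
      isOpen_lt (hPc.comp (by fun_prop)) continuous_const
    exact ho.mem_nhds hv
  have h6 : ∀ᶠ z : Θ × CT E F in 𝓝 (θ₀, w₀), r (PT.lift (b z.1) v - PT.lift (b θ₀) v) < ε / 4 := by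
    have ho : IsOpen {z : Θ × CT E F | r (PT.lift (b z.1) v - PT.lift (b θ₀) v) < ε / 4} :=
      isOpen_lt (hr.comp ((((h3 v).comp continuous_fst)).sub continuous_const)) continuous_const
    exact ho.mem_nhds (by simpa using hε)
  filter_upwards [h4, h5, h6] with z hz4 hz5 hz6
  have key : CT.lift (b z.1) (hb' z.1) z.2 - CT.lift (b θ₀) (hb' θ₀) w₀
      = CT.lift (b z.1) (hb' z.1) (z.2 - CT.of v) + (PT.lift (b z.1) v - PT.lift (b θ₀) v)
        + -(CT.lift (b θ₀) (hb' θ₀) (w₀ - CT.of v)) := by
    rw [map_sub, map_sub, CT.lift_of, CT.lift_of]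
    abel
  have h7 := h1 z.1 hz4 (z.2 - CT.of v)
  have h8 := h1 θ₀ (mem_of_mem_nhds hU) (w₀ - CT.of v)
  change r _ < ε
  rw [key]
  calc _ ≤ r (CT.lift (b z.1) (hb' z.1) (z.2 - CT.of v) + (PT.lift (b z.1) v - PT.lift (b θ₀) v))
        + r (-(CT.lift (b θ₀) (hb' θ₀) (w₀ - CT.of v))) := map_add_le_add r _ _
    _ ≤ r (CT.lift (b z.1) (hb' z.1) (z.2 - CT.of v)) + r (PT.lift (b z.1) v - PT.lift (b θ₀) v)
        + r (-(CT.lift (b θ₀) (hb' θ₀) (w₀ - CT.of v))) := by
          gcongr; exact map_add_le_add r _ _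
    _ < ε := by rw [map_neg_eq_map]; linarith

section Param

variable {H : Type*} [AddCommGroup H] [Module ℂ H] [TopologicalSpace H]

/-- Lift of a trilinear map in the last two variables. -/
noncomputable def CT.plift [FrechetSpace G] (t : H →ₗ[ℂ] E →ₗ[ℂ] F →ₗ[ℂ] G)
    (ht : Continuous fun z : H × E × F => t z.1 z.2.1 z.2.2) : H →ₗ[ℂ] CT E F →ₗ[ℂ] G where
  toFun h := (CT.lift (t h) (ht.comp (by fun_prop : Continuous fun z : E × F => (h, z)))).toLinearMap
  map_add' h h' := by
    ext w
    refine CT.ext_apply (f := CT.lift (t (h + h')) _) (g := CT.lift (t h) _ + CT.lift (t h') _)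
      (fun x y => ?_) w
    simp
  map_smul' c h := by
    ext w
    refine CT.ext_apply (f := CT.lift (t (c • h)) _) (g := c • CT.lift (t h) _)
      (fun x y => ?_) w
    simp

theorem CT.plift_apply [FrechetSpace G] (t : H →ₗ[ℂ] E →ₗ[ℂ] F →ₗ[ℂ] G)
    (ht : Continuous fun z : H × E × F => t z.1 z.2.1 z.2.2) (h : H) (w : CT E F) :
    CT.plift t ht h w =
      CT.lift (t h) (ht.comp (by fun_prop : Continuous fun z : E × F => (h, z))) w := rfl

@[simp] theorem CT.plift_mk [FrechetSpace G] (t : H →ₗ[ℂ] E →ₗ[ℂ] F →ₗ[ℂ] G)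
    (ht : Continuous fun z : H × E × F => t z.1 z.2.1 z.2.2) (h : H) (x : E) (y : F) :
    CT.plift t ht h (CT.mk x y) = t h x y := by
  rw [CT.plift_apply, CT.lift_mk]

theorem CT.continuous_plift [FrechetSpace G] (t : H →ₗ[ℂ] E →ₗ[ℂ] F →ₗ[ℂ] G)
    (ht : Continuous fun z : H × E × F => t z.1 z.2.1 z.2.2) :
    Continuous fun z : H × CT E F => CT.plift t ht z.1 z.2 :=
  CT.continuous_lift_param (fun h => t h) ht
    (fun h => ht.comp (by fun_prop : Continuous fun z : E × F => (h, z)))

end Param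

end CT

end PT

section QT

variable {E F : Type*} [AddCommGroup E] [Module ℂ E] [UniformSpace E] [FrechetSpace E]
  [AddCommGroup F] [Module ℂ F] [UniformSpace F] [FrechetSpace F]

/-- The closed linear span in `E ⊗̂ F` of a set `R` of elements of `E ⊗ F`. -/
noncomputable def relSub (R : Set (PT E F)) : Submodule ℂ (CT E F) :=
  (Submodule.span ℂ (CT.of '' R)).topologicalClosure

/-- The quotient of the completed projective tensor product `E ⊗̂ F` by the closed linear span
of a set `R` of elements of the algebraic tensor product. -/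
def QT (R : Set (PT E F)) : Type _ := CT E F ⧸ relSub R

variable (R : Set (PT E F))

noncomputable instance : AddCommGroup (QT R) := inferInstanceAs (AddCommGroup (CT E F ⧸ relSub R))
noncomputable instance : Module ℂ (QT R) := inferInstanceAs (Module ℂ (CT E F ⧸ relSub R))
/-- The uniform structure on the quotient is the one of the quotient (group) topology. -/
noncomputable instance : UniformSpace (QT R) := IsTopologicalAddGroup.rightUniformSpace (CT E F ⧸ relSub R)
instance : IsUniformAddGroup (QT R) := by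
  have h := isUniformAddGroup_of_addCommGroup (G := CT E F ⧸ relSub R)
  exact h

theorem isClosed_relSub : IsClosed (relSub R : Set (CT E F)) :=
  Submodule.isClosed_topologicalClosure _

instance : FrechetSpace (QT R) := by
  have h1 : CompleteSpace (QT R) := completeSpace_quotient (relSub R)
  have h2 : TopologicalSpace.MetrizableSpace (QT R) :=
    metrizableSpace_quotient (relSub R) (isClosed_relSub R)
  have h3 : PolynormableSpace ℂ (QT R) := polynormableSpace_quotient (relSub R)
  exact FrechetSpace.of (QT R)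

variable {R}

/-- The quotient map `E ⊗̂ F → (E ⊗̂ F) / R`. -/
noncomputable def QT.proj : CT E F →L[ℂ] QT R :=
  ⟨(relSub R).mkQ, (relSub R).isOpenQuotientMap_mkQ.continuous⟩

theorem QT.isOpenQuotientMap_proj : IsOpenQuotientMap (QT.proj : CT E F → QT R) :=
  (relSub R).isOpenQuotientMap_mkQ

/-- The image of an elementary tensor in `QT R`. -/
noncomputable def QT.mk : E →ₗ[ℂ] F →ₗ[ℂ] QT R :=
  CT.mk.compr₂ (QT.proj : CT E F →L[ℂ] QT R).toLinearMap

theorem QT.mk_eq (x : E) (y : F) : (QT.mk x y : QT R) = QT.proj (CT.mk x y) := rfl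

theorem QT.continuous_mk : Continuous fun z : E × F => (QT.mk z.1 z.2 : QT R) :=
  QT.proj.continuous.comp CT.continuous_mk

theorem QT.lift_mk_eq_zero {z : PT E F} (hz : z ∈ R) :
    PT.lift (QT.mk : E →ₗ[ℂ] F →ₗ[ℂ] QT R) z = 0 := by
  have h1 : ∀ v : PT E F, PT.lift (QT.mk : E →ₗ[ℂ] F →ₗ[ℂ] QT R) v = QT.proj (CT.of v) := by
    intro v
    induction v using PT.induction_on with
    | zero => simp
    | tmul x y => rw [PT.lift_tmul, QT.mk_eq, CT.mk_eq]
    | add x y hx hy => simp [hx, hy]
  rw [h1]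
  have h2 : CT.of z ∈ relSub R :=
    Submodule.le_topologicalClosure _ (Submodule.subset_span ⟨z, hz, rfl⟩)
  exact (Submodule.Quotient.mk_eq_zero _).mpr h2

variable {G : Type*} [AddCommGroup G] [Module ℂ G] [UniformSpace G]

theorem QT.ext_apply [T2Space G] {f g : QT R →L[ℂ] G} (h : ∀ x y, f (QT.mk x y) = g (QT.mk x y))
    (w : QT R) : f w = g w := by
  obtain ⟨v, rfl⟩ := QT.isOpenQuotientMap_proj.surjective w
  have := CT.ext_apply (f := f.comp QT.proj) (g := g.comp QT.proj) (fun x y => h x y) v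
  exact this

theorem QT.ext [T2Space G] {f g : QT R →L[ℂ] G} (h : ∀ x y, f (QT.mk x y) = g (QT.mk x y)) :
    f = g := ContinuousLinearMap.ext (QT.ext_apply h)

theorem relSub_le_ker [FrechetSpace G] (b : E →ₗ[ℂ] F →ₗ[ℂ] G)
    (hb : Continuous fun z : E × F => b z.1 z.2) (hR : ∀ z ∈ R, PT.lift b z = 0) :
    relSub R ≤ (CT.lift b hb).ker := by
  refine Submodule.topologicalClosure_minimal _ ?_ (ContinuousLinearMap.isClosed_ker _)
  rw [Submodule.span_le]
  rintro _ ⟨z, hz, rfl⟩
  change CT.lift b hb (CT.of z) = 0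
  rw [CT.lift_of, hR z hz]

/-- The universal property of the quotient `QT R`: continuous bilinear maps that vanish on `R`
extend uniquely to continuous linear maps. -/
noncomputable def QT.lift [FrechetSpace G] (b : E →ₗ[ℂ] F →ₗ[ℂ] G)
    (hb : Continuous fun z : E × F => b z.1 z.2) (hR : ∀ z ∈ R, PT.lift b z = 0) :
    QT R →L[ℂ] G :=
  ⟨(relSub R).liftQ (CT.lift b hb).toLinearMap (relSub_le_ker b hb hR),
    (relSub R).isOpenQuotientMap_mkQ.isQuotientMap.continuous_iff.mpr (CT.lift b hb).continuous⟩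

theorem QT.lift_proj [FrechetSpace G] (b : E →ₗ[ℂ] F →ₗ[ℂ] G)
    (hb : Continuous fun z : E × F => b z.1 z.2) (hR : ∀ z ∈ R, PT.lift b z = 0) (v : CT E F) :
    QT.lift b hb hR (QT.proj v) = CT.lift b hb v := rfl

@[simp] theorem QT.lift_mk [FrechetSpace G] (b : E →ₗ[ℂ] F →ₗ[ℂ] G)
    (hb : Continuous fun z : E × F => b z.1 z.2) (hR : ∀ z ∈ R, PT.lift b z = 0) (x : E) (y : F) :
    QT.lift b hb hR (QT.mk x y) = b x y := by
  rw [QT.mk_eq, QT.lift_proj, CT.lift_mk]

/-- Joint continuity of the lift of a family of bilinear maps depending on a parameter. -/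
theorem QT.continuous_lift_param [FrechetSpace G] {Θ : Type*} [TopologicalSpace Θ]
    (b : Θ → E →ₗ[ℂ] F →ₗ[ℂ] G) (hb : Continuous fun z : Θ × E × F => b z.1 z.2.1 z.2.2)
    (hb' : ∀ θ, Continuous fun z : E × F => b θ z.1 z.2)
    (hR : ∀ θ, ∀ z ∈ R, PT.lift (b θ) z = 0) :
    Continuous fun z : Θ × QT R => QT.lift (b z.1) (hb' z.1) (hR z.1) z.2 := by
  have h1 := (IsOpenQuotientMap.id (X := Θ)).prodMap (QT.isOpenQuotientMap_proj (R := R))
  rw [← h1.continuous_comp_iff]
  exact CT.continuous_lift_param b hb hb'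

section Param

variable {H : Type*} [AddCommGroup H] [Module ℂ H] [TopologicalSpace H]

/-- Lift of a trilinear map in the last two variables. -/
noncomputable def QT.plift [FrechetSpace G] (t : H →ₗ[ℂ] E →ₗ[ℂ] F →ₗ[ℂ] G)
    (ht : Continuous fun z : H × E × F => t z.1 z.2.1 z.2.2)
    (hR : ∀ h, ∀ z ∈ R, PT.lift (t h) z = 0) : H →ₗ[ℂ] QT R →ₗ[ℂ] G where
  toFun h := (QT.lift (t h) (ht.comp (by fun_prop : Continuous fun z : E × F => (h, z)))
    (hR h)).toLinearMap
  map_add' h h' := by
    ext w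
    refine QT.ext_apply (f := QT.lift (t (h + h')) _ (hR (h + h')))
      (g := QT.lift (t h) _ (hR h) + QT.lift (t h') _ (hR h')) (fun x y => ?_) w
    simp
  map_smul' c h := by
    ext w
    refine QT.ext_apply (f := QT.lift (t (c • h)) _ (hR (c • h))) (g := c • QT.lift (t h) _ (hR h))
      (fun x y => ?_) w
    simp

theorem QT.plift_apply [FrechetSpace G] (t : H →ₗ[ℂ] E →ₗ[ℂ] F →ₗ[ℂ] G)
    (ht : Continuous fun z : H × E × F => t z.1 z.2.1 z.2.2)
    (hR : ∀ h, ∀ z ∈ R, PT.lift (t h) z = 0) (h : H) (w : QT R) :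
    QT.plift t ht hR h w =
      QT.lift (t h) (ht.comp (by fun_prop : Continuous fun z : E × F => (h, z))) (hR h) w := rfl

@[simp] theorem QT.plift_mk [FrechetSpace G] (t : H →ₗ[ℂ] E →ₗ[ℂ] F →ₗ[ℂ] G)
    (ht : Continuous fun z : H × E × F => t z.1 z.2.1 z.2.2)
    (hR : ∀ h, ∀ z ∈ R, PT.lift (t h) z = 0) (h : H) (x : E) (y : F) :
    QT.plift t ht hR h (QT.mk x y) = t h x y := by
  rw [QT.plift_apply, QT.lift_mk]

theorem QT.continuous_plift [FrechetSpace G] (t : H →ₗ[ℂ] E →ₗ[ℂ] F →ₗ[ℂ] G)
    (ht : Continuous fun z : H × E × F => t z.1 z.2.1 z.2.2)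
    (hR : ∀ h, ∀ z ∈ R, PT.lift (t h) z = 0) :
    Continuous fun z : H × QT R => QT.plift t ht hR z.1 z.2 :=
  QT.continuous_lift_param (fun h => t h) ht
    (fun h => ht.comp (by fun_prop : Continuous fun z : E × F => (h, z))) hR

end Param

end QT

attribute [irreducible] CT.mk CT.lift CT.plift QT.mk QT.lift QT.plift

end Pool.Agent.FrHom
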