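import Pool.Agent.Lib.MP_afeff1_an.Key

/-!
# Flat bimodules are flat on either side; the unitization is flat on either side
-/

set_option autoImplicit false
set_option linter.unusedSectionVars false
set_option linter.unusedVariables false

open scoped TensorProduct Topology Uniformity
open Filter UniformSpace

namespace Pool.Agent.FrHom

universe u

variable {B C : Type u} [NonUnitalRing B] [Module ℂ B] [UniformSpace B] [FrechetAlgebra B]
  [NonUnitalRing C] [Module ℂ C] [UniformSpace C] [FrechetAlgebra C]

/-- Transport of exactness along natural bijections. -/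
theorem Flat.of_equiv {B' C' : Type u} [NonUnitalRing B'] [Module ℂ B'] [UniformSpace B']
    [FrechetAlgebra B'] [NonUnitalRing C'] [Module ℂ C'] [UniformSpace C'] [FrechetAlgebra C']
    {F : BMod B C} {F' : BMod B' C'} (hF : Flat F)
    (T : BMod C' B' → BMod C B)
    (Tm : ∀ {M N : BMod C' B'}, BMod.Hom M N → BMod.Hom (T M) (T N))
    (TS : ∀ {L M N : BMod C' B'} {i : BMod.Hom L M} {p : BMod.Hom M N}, SES i p →
      SES (Tm i) (Tm p))
    (e : ∀ M : BMod C' B', Tens (T M) F →L[ℂ] Tens M F')
    (e' : ∀ M : BMod C' B', Tens M F' →L[ℂ] Tens (T M) F)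
    (h1 : ∀ M w, e M (e' M w) = w) (h2 : ∀ M w, e' M (e M w) = w)
    (hn : ∀ {M N : BMod C' B'} (f : BMod.Hom M N) (w), e N (Tens.map (Tm f) F w)
      = Tens.map f F' (e M w)) : Flat F' := by
  have hn' : ∀ {M N : BMod C' B'} (f : BMod.Hom M N) (w), e' N (Tens.map f F' w)
      = Tens.map (Tm f) F (e' M w) := by
    intro M N f w
    have h := hn f (e' M w)
    rw [h1] at h
    rw [← h, h2]
  refine Flat.of_ses fun L M N i p S => ⟨?_, ?_, ?_⟩
  · intro v w hvw
    have h := congrArg (e' M) hvw
    rw [hn', hn'] at h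
    have h5 := congrArg (e L) (hF.injective (TS S) h)
    rwa [h1, h1] at h5
  · intro w
    constructor
    · intro hw
      have h := congrArg (e' N) hw
      rw [hn', map_zero] at h
      obtain ⟨v, hv⟩ := (hF.exact (TS S) _).mp h
      exact ⟨e L v, by rw [← hn, hv, h1]⟩
    · rintro ⟨v, rfl⟩
      rw [Tens.map_map]
      exact Tens.map_eq_zero _ (fun x => S.p_i x) v
  · intro w
    obtain ⟨v, hv⟩ := hF.surjective (TS S) (e' N w)
    exact ⟨e M v, by rw [← hn, hv, h1]⟩

section Left

variable (F : BMod B C) (M : BMod Z B)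

/-- Elementary tensors in `M ⊗̂_B F`. -/
noncomputable def lmk : M →ₗ[ℂ] F →ₗ[ℂ] Tens M (forgetR F) := tmk M (forgetR F)

theorem lmk_cont : Continuous fun z : M × F => lmk F M z.1 z.2 := tmk_cont M (forgetR F)

theorem lmk_bal (b : B) (m : M) (x : F) : lmk F M (M.r b m) x = lmk F M m (F.l b x) :=
  tmk_r M (forgetR F) b m x

/-- The auxiliary bilinear map. -/
noncomputable def LtB : F →ₗ[ℂ] outer (unitization C) M →ₗ[ℂ] Tens M (forgetR F) :=
  oplift (P := unitization C) (Q := M) (tri1 (uact F.r).flip (lmk F M).flip)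
    (tri1_cont (flip_cont (uact_cont F.r_cont)) (flip_cont (lmk_cont F M)))

theorem LtB_mk (x : F) (u : unitization C) (m : M) :
    LtB F M x (omk (unitization C) M u m) = lmk F M m (uact F.r u x) := by
  rw [LtB, oplift_mk, tri1_apply, LinearMap.flip_apply, LinearMap.flip_apply]

theorem LtB_cont : Continuous fun z : F × outer (unitization C) M => LtB F M z.1 z.2 :=
  oplift_cont (P := unitization C) (Q := M) (tri1 (uact F.r).flip (lmk F M).flip)
    (tri1_cont (flip_cont (uact_cont F.r_cont)) (flip_cont (lmk_cont F M)))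

theorem LtB_r (x : F) (b : B) (w : outer (unitization C) M) :
    LtB F M x ((outer (unitization C) M).r b w) = LtB F M (F.l b x) w := by
  refine outer_ext (f := LtB F M x ∘ₗ (outer (unitization C) M).r b) (g := LtB F M (F.l b x))
    ((fix_cont (LtB_cont F M) x).comp (BMod.r_cont' _ b))
    (fix_cont (LtB_cont F M) _) (fun u m => ?_) w
  rw [LinearMap.comp_apply, outer_r, LtB_mk, LtB_mk, lmk_bal, uact_apply, uact_apply, map_add,
    map_smul, F.l_r]

theorem LtB_l (x : F) (c : C) (w : outer (unitization C) M) :
    LtB F M x ((outer (unitization C) M).l c w) = LtB F M (F.r c x) w := by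
  refine outer_ext (f := LtB F M x ∘ₗ (outer (unitization C) M).l c) (g := LtB F M (F.r c x))
    ((fix_cont (LtB_cont F M) x).comp (BMod.l_cont' _ c))
    (fix_cont (LtB_cont F M) _) (fun u m => ?_) w
  rw [LinearMap.comp_apply, outer_l, LtB_mk, LtB_mk, uact_r']

/-- `(C₊ ⊗̂ M) ⊗̂_{B-C} F → M ⊗̂_B F`. -/
noncomputable def Lt : Tens (outer (unitization C) M) F →L[ℂ] Tens M (forgetR F) :=
  Tens.lift (LtB F M).flip (flip_cont (LtB_cont F M))
    (fun b v x => by rw [LinearMap.flip_apply, LinearMap.flip_apply, LtB_r])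
    (fun c v x => by rw [LinearMap.flip_apply, LinearMap.flip_apply, LtB_l])

theorem Lt_mk (u : unitization C) (m : M) (x : F) :
    Lt F M (tmk (outer (unitization C) M) F (omk (unitization C) M u m) x) =
      lmk F M m (uact F.r u x) := by
  rw [Lt, tlift_mk, LinearMap.flip_apply, LtB_mk]

/-- `m ↦ 1 ⊗ m`. -/
noncomputable def lone : M →L[ℂ] outer (unitization C) M where
  toLinearMap := omk (unitization C) M (uone C)
  cont := fix_cont (omk_cont (unitization C) M) (uone C)

theorem lone_apply (m : M) : lone (C := C) M m = omk (unitization C) M (uone C) m := rfl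

theorem lone_r (b : B) (m : M) :
    lone (C := C) M (M.r b m) = (outer (unitization C) M).r b (lone (C := C) M m) := by
  rw [lone_apply, lone_apply, outer_r]

/-- The auxiliary bilinear map. -/
noncomputable def LsB : M →ₗ[ℂ] forgetR F →ₗ[ℂ] Tens (outer (unitization C) M) F :=
  (tmk (outer (unitization C) M) F) ∘ₗ (lone (C := C) M).toLinearMap

theorem LsB_mk (m : M) (x : F) :
    LsB F M m x = tmk (outer (unitization C) M) F (lone (C := C) M m) x := rfl

theorem LsB_cont : Continuous fun z : M × forgetR F => LsB F M z.1 z.2 :=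
  comp_cont (tmk_cont (outer (unitization C) M) F) (lone (C := C) M).continuous

/-- `M ⊗̂_B F → (C₊ ⊗̂ M) ⊗̂_{B-C} F`. -/
noncomputable def Ls : Tens M (forgetR F) →L[ℂ] Tens (outer (unitization C) M) F :=
  Tens.lift (LsB F M) (LsB_cont F M)
    (fun b m x => by
      have h := tmk_r (outer (unitization C) M) F b (lone (C := C) M m) x
      rw [← lone_r] at h
      exact h)
    (fun z v x => by rw [l_punit, r_punit, map_zero, map_zero, LinearMap.zero_apply])

theorem Ls_mk (m : M) (x : F) :
    Ls F M (lmk F M m x) = tmk (outer (unitization C) M) F (lone (C := C) M m) x :=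
  tlift_mk (LsB F M) (LsB_cont F M) _ _ m x

theorem Lt_Ls (w : Tens M (forgetR F)) : Lt F M (Ls F M w) = w := by
  refine QT.ext_apply (f := (Lt F M).comp (Ls F M)) (g := ContinuousLinearMap.id ℂ _)
    (fun m x => ?_) w
  have h : ∀ x : F, Lt F M (Ls F M (lmk F M m x)) = lmk F M m x := fun x => by
    rw [Ls_mk, lone_apply, Lt_mk, uact_uone]
  exact h x

theorem lt_ext {G : Type*} [AddCommGroup G] [Module ℂ G] [UniformSpace G] [T2Space G]
    {f g : Tens (outer (unitization C) M) F →L[ℂ] G}
    (h : ∀ u m x, f (tmk (outer (unitization C) M) F (omk (unitization C) M u m) x) =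
      g (tmk (outer (unitization C) M) F (omk (unitization C) M u m) x))
    (w : Tens (outer (unitization C) M) F) : f w = g w := by
  refine QT.ext_apply (fun v x => ?_) w
  have hc : Continuous ((tmk (outer (unitization C) M) F).flip x) :=
    fix_cont (flip_cont (tmk_cont (outer (unitization C) M) F)) x
  exact outer_ext (f := f.toLinearMap ∘ₗ (tmk (outer (unitization C) M) F).flip x)
    (g := g.toLinearMap ∘ₗ (tmk (outer (unitization C) M) F).flip x)
    (f.continuous.comp hc) (g.continuous.comp hc) (fun u m => h u m x) v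

theorem Ls_Lt (w : Tens (outer (unitization C) M) F) : Ls F M (Lt F M w) = w := by
  refine lt_ext F M (f := (Ls F M).comp (Lt F M)) (g := ContinuousLinearMap.id ℂ _)
    (fun u m x => ?_) w
  rw [ContinuousLinearMap.comp_apply, Lt_mk, Ls_mk, uact_apply, ContinuousLinearMap.id_apply]
  conv_rhs => rw [u_eq u]
  rw [map_add, map_add, LinearMap.add_apply, map_add, LinearMap.add_apply]
  congr 1
  · rw [map_smul, map_smul, LinearMap.smul_apply, map_smul, LinearMap.smul_apply, lone_apply]
  · rw [← tmk_l, lone_apply, outer_l]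
    have h : (unitization C).l (usnd C u) (uone C) = uinr C (usnd C u) := by
      rw [u_l, ufst_uone, usnd_uone, mul_zero, add_zero, one_smul]
    rw [h]

theorem Lt_natural {M' : BMod Z B} (f : BMod.Hom M M') (w : Tens (outer (unitization C) M) F) :
    Lt F M' (Tens.map (omap' (unitization C) f) F w) = Tens.map f (forgetR F) (Lt F M w) := by
  refine lt_ext F M (f := (Lt F M').comp (Tens.map (omap' (unitization C) f) F))
    (g := (Tens.map f (forgetR F)).comp (Lt F M)) (fun u m x => ?_) w
  rw [ContinuousLinearMap.comp_apply, ContinuousLinearMap.comp_apply, tmap_mk, Lt_mk]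
  have h : (omap' (unitization C) f).f (omk (unitization C) M u m) =
      omk (unitization C) M' u (f.f m) := omapR_mk f.f u m
  rw [h, Lt_mk]
  exact (tmap_mk f (forgetR F) m _).symm

end Left

/-- A flat bimodule is flat as a left module. -/
theorem Flat.forgetR {F : BMod B C} (hF : Flat F) : Flat (forgetR F) :=
  Flat.of_equiv hF (fun M : BMod Z B => outer (unitization C) M)
    (fun f => omap' (unitization C) f) (fun S => S.outer' (unitization C))
    (fun M => Lt F M) (fun M => Ls F M) (fun M => Lt_Ls F M) (fun M => Ls_Lt F M)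
    (fun f w => Lt_natural F _ f w)

section Right

variable (F : BMod B C) (M : BMod C Z)

/-- Elementary tensors in `F ⊗̂_C M`. -/
noncomputable def rmk : M →ₗ[ℂ] F →ₗ[ℂ] Tens M (forgetL F) := tmk M (forgetL F)

theorem rmk_cont : Continuous fun z : M × F => rmk F M z.1 z.2 := tmk_cont M (forgetL F)

theorem rmk_bal (c : C) (m : M) (x : F) : rmk F M (M.l c m) x = rmk F M m (F.r c x) :=
  tmk_l M (forgetL F) c m x

/-- The auxiliary bilinear map. -/
noncomputable def RtB : F →ₗ[ℂ] outer M (unitization B) →ₗ[ℂ] Tens M (forgetL F) :=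
  oplift (P := M) (Q := unitization B) (tri2 (uact F.l).flip (rmk F M))
    (tri2_cont (flip_cont (uact_cont F.l_cont)) (rmk_cont F M))

theorem RtB_mk (x : F) (m : M) (u : unitization B) :
    RtB F M x (omk M (unitization B) m u) = rmk F M m (uact F.l u x) := by
  rw [RtB, oplift_mk, tri2_apply, LinearMap.flip_apply]

theorem RtB_cont : Continuous fun z : F × outer M (unitization B) => RtB F M z.1 z.2 :=
  oplift_cont (P := M) (Q := unitization B) (tri2 (uact F.l).flip (rmk F M))
    (tri2_cont (flip_cont (uact_cont F.l_cont)) (rmk_cont F M))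

theorem RtB_r (x : F) (b : B) (w : outer M (unitization B)) :
    RtB F M x ((outer M (unitization B)).r b w) = RtB F M (F.l b x) w := by
  refine outer_ext (f := RtB F M x ∘ₗ (outer M (unitization B)).r b) (g := RtB F M (F.l b x))
    ((fix_cont (RtB_cont F M) x).comp (BMod.r_cont' _ b))
    (fix_cont (RtB_cont F M) _) (fun m u => ?_) w
  rw [LinearMap.comp_apply, outer_r, RtB_mk, RtB_mk, uact_l']

theorem RtB_l (x : F) (c : C) (w : outer M (unitization B)) :
    RtB F M x ((outer M (unitization B)).l c w) = RtB F M (F.r c x) w := by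
  refine outer_ext (f := RtB F M x ∘ₗ (outer M (unitization B)).l c) (g := RtB F M (F.r c x))
    ((fix_cont (RtB_cont F M) x).comp (BMod.l_cont' _ c))
    (fix_cont (RtB_cont F M) _) (fun m u => ?_) w
  rw [LinearMap.comp_apply, outer_l, RtB_mk, RtB_mk, rmk_bal, uact_apply, uact_apply, map_add,
    map_smul, F.l_r]

/-- `(M ⊗̂ B₊) ⊗̂_{B-C} F → F ⊗̂_C M`. -/
noncomputable def Rt : Tens (outer M (unitization B)) F →L[ℂ] Tens M (forgetL F) :=
  Tens.lift (RtB F M).flip (flip_cont (RtB_cont F M))
    (fun b v x => by rw [LinearMap.flip_apply, LinearMap.flip_apply, RtB_r])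
    (fun c v x => by rw [LinearMap.flip_apply, LinearMap.flip_apply, RtB_l])

theorem Rt_mk (m : M) (u : unitization B) (x : F) :
    Rt F M (tmk (outer M (unitization B)) F (omk M (unitization B) m u) x) =
      rmk F M m (uact F.l u x) := by
  rw [Rt, tlift_mk, LinearMap.flip_apply, RtB_mk]

/-- `m ↦ m ⊗ 1`. -/
noncomputable def rone : M →L[ℂ] outer M (unitization B) where
  toLinearMap := (omk M (unitization B)).flip (uone B)
  cont := fix_cont (flip_cont (omk_cont M (unitization B))) (uone B)

theorem rone_apply (m : M) : rone (B := B) M m = omk M (unitization B) m (uone B) := rfl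

theorem rone_l (c : C) (m : M) :
    rone (B := B) M (M.l c m) = (outer M (unitization B)).l c (rone (B := B) M m) := by
  rw [rone_apply, rone_apply, outer_l]

/-- The auxiliary bilinear map. -/
noncomputable def RsB : M →ₗ[ℂ] forgetL F →ₗ[ℂ] Tens (outer M (unitization B)) F :=
  (tmk (outer M (unitization B)) F) ∘ₗ (rone (B := B) M).toLinearMap

theorem RsB_mk (m : M) (x : F) :
    RsB F M m x = tmk (outer M (unitization B)) F (rone (B := B) M m) x := rfl

theorem RsB_cont : Continuous fun z : M × forgetL F => RsB F M z.1 z.2 :=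
  comp_cont (tmk_cont (outer M (unitization B)) F) (rone (B := B) M).continuous

/-- `F ⊗̂_C M → (M ⊗̂ B₊) ⊗̂_{B-C} F`. -/
noncomputable def Rs : Tens M (forgetL F) →L[ℂ] Tens (outer M (unitization B)) F :=
  Tens.lift (RsB F M) (RsB_cont F M)
    (fun z v x => by rw [l_punit, r_punit, map_zero, map_zero, LinearMap.zero_apply])
    (fun c m x => by
      have h := tmk_l (outer M (unitization B)) F c (rone (B := B) M m) x
      rw [← rone_l] at h
      exact h)

theorem Rs_mk (m : M) (x : F) :
    Rs F M (rmk F M m x) = tmk (outer M (unitization B)) F (rone (B := B) M m) x :=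
  tlift_mk (RsB F M) (RsB_cont F M) _ _ m x

theorem Rt_Rs (w : Tens M (forgetL F)) : Rt F M (Rs F M w) = w := by
  refine QT.ext_apply (f := (Rt F M).comp (Rs F M)) (g := ContinuousLinearMap.id ℂ _)
    (fun m x => ?_) w
  have h : ∀ x : F, Rt F M (Rs F M (rmk F M m x)) = rmk F M m x := fun x => by
    rw [Rs_mk, rone_apply, Rt_mk, uact_uone]
  exact h x

theorem rt_ext {G : Type*} [AddCommGroup G] [Module ℂ G] [UniformSpace G] [T2Space G]
    {f g : Tens (outer M (unitization B)) F →L[ℂ] G}
    (h : ∀ m u x, f (tmk (outer M (unitization B)) F (omk M (unitization B) m u) x) =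
      g (tmk (outer M (unitization B)) F (omk M (unitization B) m u) x))
    (w : Tens (outer M (unitization B)) F) : f w = g w := by
  refine QT.ext_apply (fun v x => ?_) w
  have hc : Continuous ((tmk (outer M (unitization B)) F).flip x) :=
    fix_cont (flip_cont (tmk_cont (outer M (unitization B)) F)) x
  exact outer_ext (f := f.toLinearMap ∘ₗ (tmk (outer M (unitization B)) F).flip x)
    (g := g.toLinearMap ∘ₗ (tmk (outer M (unitization B)) F).flip x)
    (f.continuous.comp hc) (g.continuous.comp hc) (fun m u => h m u x) v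

theorem Rs_Rt (w : Tens (outer M (unitization B)) F) : Rs F M (Rt F M w) = w := by
  refine rt_ext F M (f := (Rs F M).comp (Rt F M)) (g := ContinuousLinearMap.id ℂ _)
    (fun m u x => ?_) w
  rw [ContinuousLinearMap.comp_apply, Rt_mk, Rs_mk, uact_apply, ContinuousLinearMap.id_apply]
  conv_rhs => rw [u_eq u]
  rw [map_add, map_add, map_add, LinearMap.add_apply]
  congr 1
  · rw [map_smul, map_smul, map_smul, LinearMap.smul_apply, rone_apply]
  · rw [← tmk_r, rone_apply, outer_r]
    have h : (unitization B).r (usnd B u) (uone B) = uinr B (usnd B u) := by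
      rw [u_r, ufst_uone, usnd_uone, zero_mul, add_zero, one_smul]
    rw [h]

theorem Rt_natural {M' : BMod C Z} (f : BMod.Hom M M') (w : Tens (outer M (unitization B)) F) :
    Rt F M' (Tens.map (omap f (unitization B)) F w) = Tens.map f (forgetL F) (Rt F M w) := by
  refine rt_ext F M (f := (Rt F M').comp (Tens.map (omap f (unitization B)) F))
    (g := (Tens.map f (forgetL F)).comp (Rt F M)) (fun m u x => ?_) w
  rw [ContinuousLinearMap.comp_apply, ContinuousLinearMap.comp_apply, tmap_mk, Rt_mk]
  have h : (omap f (unitization B)).f (omk M (unitization B) m u) =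
      omk M' (unitization B) (f.f m) u := omapL_mk f.f m u
  rw [h, Rt_mk]
  exact (tmap_mk f (forgetL F) m _).symm

end Right

/-- A flat bimodule is flat as a right module. -/
theorem Flat.forgetL {F : BMod B C} (hF : Flat F) : Flat (forgetL F) :=
  Flat.of_equiv hF (fun M : BMod C Z => outer M (unitization B))
    (fun f => omap f (unitization B)) (fun S => S.outer (unitization B))
    (fun M => Rt F M) (fun M => Rs F M) (fun M => Rt_Rs F M) (fun M => Rs_Rt F M)
    (fun f w => Rt_natural F _ f w)

end Pool.Agent.FrHom
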